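import Pool.Agent.Lib.H90L.Base

/-!
# H90L, R0: the functions `fold` and `hh`, real lemmas; the discriminant of `E_t`
-/

set_option autoImplicit false

namespace Pool.Agent.Lib.H90L

open Pool.Agent.H38LS

universe u

theorem Δ_Et {K : Type u} [Field K] (t : K) : (Et t).Δ = t * (1 + 1728 * t) ^ 2 := by
  simp only [Et, WeierstrassCurve.Δ, WeierstrassCurve.b₂, WeierstrassCurve.b₄, WeierstrassCurve.b₆, WeierstrassCurve.b₈]
  ring

theorem hh_nonneg {L a : ℝ} (hL : 0 < L) (h0 : 0 ≤ a) (h1 : a ≤ L) : 0 ≤ hh L a :=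
  div_nonneg (mul_nonneg h0 (by linarith)) hL.le

theorem hh_mono {L a b : ℝ} (hL : 0 < L) (hab : a ≤ b) (hb : b ≤ L / 2) : hh L a ≤ hh L b := by
  unfold hh
  apply div_le_div_of_nonneg_right _ hL.le
  nlinarith [mul_nonneg (sub_nonneg.2 hab) (show (0 : ℝ) ≤ L - a - b by linarith)]

/-- `hh` is Lipschitz. -/
theorem hh_add_le {L a c : ℝ} (hL : 0 < L) (h0 : 0 ≤ a) (hc : 0 ≤ c) : hh L (a + c) ≤ hh L a + c := by
  unfold hh
  rw [div_add' _ _ _ hL.ne']
  apply div_le_div_of_nonneg_right _ hL.le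
  nlinarith [mul_nonneg h0 hc, mul_nonneg hc hc]

/-- The functional equation of `hh`. -/
theorem hh_fold {L a : ℝ} (hL : 0 < L) : hh L a = a / 2 + hh L (fold L (2 * a)) / 4 := by
  have h1 : hh L (fold L (2 * a)) = hh L (2 * a) := by
    unfold fold hh
    rcases le_total (2 * a) (L - 2 * a) with h | h
    · rw [min_eq_left h]
    · rw [min_eq_right h]
      congr 1
      ring
  rw [h1]
  unfold hh
  field_simp
  ring

theorem fold_le {L a : ℝ} : fold L a ≤ L / 2 := by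
  unfold fold
  rcases le_total a (L / 2) with h | h
  · exact (min_le_left _ _).trans h
  · exact (min_le_right _ _).trans (by linarith)

theorem fold_nonneg {L a : ℝ} (h0 : 0 ≤ a) (h1 : a ≤ L) : 0 ≤ fold L a := le_min h0 (by linarith)

/-- PROOF. Let `r₁ ≤ r₂`, `u₁ ≤ u₂` after exchanging. `o = M` gives `r₁ + r₂ = u₁ + u₂`. If `r₁ < u₁`, take `o = u₁`:
`r₁ + min r₂ u₁ = 2 u₁` is impossible; symmetric for `u₁ < r₁`. -/
theorem min_det {M r₁ r₂ u₁ u₂ : ℝ} (hr₁ : 0 ≤ r₁) (hr₂ : 0 ≤ r₂) (hu₁ : 0 ≤ u₁) (hu₂ : 0 ≤ u₂) (hr₁' : r₁ ≤ M) (hr₂' : r₂ ≤ M)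
    (hu₁' : u₁ ≤ M) (hu₂' : u₂ ≤ M)
    (h : ∀ o, 0 ≤ o → o ≤ M → min r₁ o + min r₂ o = min u₁ o + min u₂ o) :
    (r₁ = u₁ ∧ r₂ = u₂) ∨ (r₂ = u₁ ∧ r₁ = u₂) := by
  have hM := h M (hr₁.trans hr₁') le_rfl
  rw [min_eq_left hr₁', min_eq_left hr₂', min_eq_left hu₁', min_eq_left hu₂'] at hM
  have h1 := h r₁ hr₁ hr₁'
  have h2 := h r₂ hr₂ hr₂'
  have h3 := h u₁ hu₁ hu₁'
  have h4 := h u₂ hu₂ hu₂'
  rw [min_self] at h1 h2 h3 h4
  rcases le_total r₁ r₂ with a1 | a1 <;> rcases le_total u₁ u₂ with a2 | a2 <;>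
    rcases le_total r₁ u₁ with a3 | a3 <;> rcases le_total r₁ u₂ with a4 | a4 <;>
    rcases le_total r₂ u₁ with a5 | a5 <;> rcases le_total r₂ u₂ with a6 | a6 <;>
    simp only [min_eq_left a1, min_eq_right a1, min_eq_left a2, min_eq_right a2, min_eq_left a3,
      min_eq_right a3, min_eq_left a4, min_eq_right a4, min_eq_left a5, min_eq_right a5,
      min_eq_left a6, min_eq_right a6] at h1 h2 h3 h4 <;>
    first
      | (left; constructor <;> linarith)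
      | (right; constructor <;> linarith)

end Pool.Agent.Lib.H90L
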