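import Pool.Agent.Lib.H90L.G2
import Pool.Agent.Lib.H90L.R0

/-!
# H90L, A1: the exact lower bound of the local height, nonarchimedean, `|j| > 1`
-/

set_option autoImplicit false

namespace Pool.Agent.Lib.H90L

open Pool.Agent.H38LS

universe u

variable {K : Type u} [Field K] {v : AbsoluteValue K ℝ}

/-- PROOF. Logarithm of `dup_N1` and `N2_eq_exp_al`. -/
theorem log_dup (hv : IsNonarchimedean v) {t : K} (ht : 0 < v t) (ht1 : v t < 1) {L : ℝ} (hL : L = -Real.log (v t))
    {p : K × K} (hp : p ≠ 0) :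
    Real.log (N2 v 1 (dup (Et t) p)) = 4 * Real.log (N2 v 1 p) - 2 * al v L p := by
  have h1 := N2_pos v one_pos hp
  have h2 := N2_pos v (a0_exp_pos L) hp
  rw [dup_N1 hv ht ht1 hL hp, N2_eq_exp_al v L hp, Real.log_mul (by positivity) (by positivity), Real.log_pow,
    Real.log_pow, Real.log_mul h1.ne' (Real.exp_pos _).ne', Real.log_exp]
  push_cast
  ring

/-- PROOF. `al (dup p) = log (N_1 (dup p) / N_ω (dup p))`; by `dup_N1`, `dup_Nw`, `N2_eq_exp_al`: `N_ω p = N_1 p e^(-a)`, the quotient is at most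
`N_1^4 e^(-2a) / (N_1^4 max (e^(-4a)) (e^(-L)))`, so `al (dup p) ≤ min (2 a) (L - 2 a)`. -/
theorem al_dup_le (hv : IsNonarchimedean v) {t : K} (ht : 0 < v t) (ht1 : v t < 1) {L : ℝ} (hL : L = -Real.log (v t))
    {p : K × K} (hp : p ≠ 0) : al v L (dup (Et t) p) ≤ fold L (2 * al v L p) := by
  have h1 := N2_pos v one_pos hp
  have h2 := N2_pos v (a0_exp_pos L) hp
  have hq1 : 0 < N2 v 1 (dup (Et t) p) := by
    rw [dup_N1 hv ht ht1 hL hp]
    positivity
  have hd : dup (Et t) p ≠ 0 := by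
    intro h
    rw [h] at hq1
    simp [N2] at hq1
  have hq2 := N2_pos v (a0_exp_pos L) hd
  have hw := dup_Nw hv ht ht1 hL hp
  have key : ∀ c : ℝ, N2 v 1 (dup (Et t) p) ≤ Real.exp c * N2 v (Real.exp (-(L / 2))) (dup (Et t) p) →
      al v L (dup (Et t) p) ≤ c := by
    intro c hc
    rw [al, Real.log_le_iff_le_exp (div_pos hq1 hq2), div_le_iff₀ hq2]
    exact hc
  have hvt : v t = Real.exp (-L) := by
    rw [hL, neg_neg, Real.exp_log ht]
  have e1 : N2 v 1 (dup (Et t) p) = N2 v 1 p ^ 4 * Real.exp (-(2 * al v L p)) := by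
    rw [dup_N1 hv ht ht1 hL hp, N2_eq_exp_al v L hp]
    have : Real.exp (-(2 * al v L p)) = Real.exp (-al v L p) ^ 2 := by
      rw [← Real.exp_nat_mul]
      congr 1
      push_cast
      ring
    rw [this]
    ring
  unfold fold
  refine le_min (key _ ?_) (key _ ?_)
  · rw [e1]
    calc N2 v 1 p ^ 4 * Real.exp (-(2 * al v L p)) =
        Real.exp (2 * al v L p) * N2 v (Real.exp (-(L / 2))) p ^ 4 := by
          rw [N2_eq_exp_al v L hp, mul_pow]
          have e2 : Real.exp (-(2 * al v L p)) = Real.exp (2 * al v L p) * Real.exp (-al v L p) ^ 4 := by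
            rw [← Real.exp_nat_mul, ← Real.exp_add]
            congr 1
            push_cast
            ring
          rw [e2]
          ring
      _ ≤ _ := mul_le_mul_of_nonneg_left ((le_max_left _ _).trans hw) (Real.exp_pos _).le
  · rw [e1]
    calc N2 v 1 p ^ 4 * Real.exp (-(2 * al v L p)) =
        Real.exp (L - 2 * al v L p) * (v t * N2 v 1 p ^ 4) := by
          have e2 : Real.exp (-(2 * al v L p)) = Real.exp (L - 2 * al v L p) * Real.exp (-L) := by
            rw [← Real.exp_add]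
            congr 1
            ring
          rw [hvt, e2]
          ring
      _ ≤ _ := mul_le_mul_of_nonneg_left ((le_max_right _ _).trans hw) (Real.exp_pos _).le

/-- PROOF. `dup (Et t) p = 0` would give `N_1 (dup p) = 0`, but it is positive by `dup_N1`. -/
theorem dup_ne (hv : IsNonarchimedean v) {t : K} (ht : 0 < v t) (ht1 : v t < 1) {p : K × K} (hp : p ≠ 0) :
    dup (Et t) p ≠ 0 := by
  intro h
  have h1 := N2_pos v one_pos hp
  have h2 := N2_pos v (a0_exp_pos (-Real.log (v t))) hp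
  have hq1 : 0 < N2 v 1 (dup (Et t) p) := by
    rw [dup_N1 hv ht ht1 rfl hp]
    positivity
  rw [h] at hq1
  simp [N2] at hq1

/-- (A1). PROOF. Let `p_n = dup^n (x, 1)`, `u n = log N_1 p_n`, `a n = al p_n ∈ [0, L/2]`. `w n = u n - hh L (a n)`:
`w (n+1) = 4 u n - 2 a n - hh (a (n+1)) ≥ 4 u n - 2 a n - hh (fold (2 a n)) = 4 w n` (`hh_mono`, `hh_fold`). So
`u n ≥ w n ≥ 4^n w 0` (`hh ≥ 0`), and `w 0 ≥ - hh (a 0)` because `N_1 (x, 1) ≥ 1`. Finally `2 l + log |Δ| / 6 = - hh (a 0)`
because `|Δ| = |t| |1 + 1728 t|^2 = |t|`; the constant is `C = 0`. (`Δ_Et` is in `R0`.) -/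
theorem A1 : Spec.A1.{u} := by
  intro K _ v hv t ht ht1 x
  obtain ⟨L, hL⟩ : ∃ L : ℝ, L = -Real.log (v t) := ⟨_, rfl⟩
  rw [← hL]
  have hLpos : 0 < L := by
    rw [hL, neg_pos]
    exact Real.log_neg ht ht1
  have hx : ((x, 1) : K × K) ≠ 0 := by
    intro h
    have := congrArg Prod.snd h
    exact one_ne_zero this
  have hpn : ∀ n : ℕ, (dup (Et t))^[n] (x, 1) ≠ 0 := by
    intro n
    induction n with
    | zero => exact hx
    | succ n ih =>
      rw [Function.iterate_succ_apply']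
      exact dup_ne hv ht ht1 ih
  have hΔ : v (Et t).Δ = v t := by
    rw [Δ_Et, map_mul, map_pow]
    have h1 : v (1728 * t) < v 1 := by
      rw [map_one]
      exact (na_nat_mul hv 1728 t).trans_lt ht1
    rw [na_eq hv h1, map_one, one_pow, mul_one]
  have hlog : Real.log (v t) = -L := by
    rw [hL, neg_neg]
  refine ⟨0, fun n => ?_⟩
  rw [hΔ, hlog, sub_zero]
  have e0 : 2 * (L / 12 - hh L (al v L (x, 1)) / 2) + -L / 6 = -hh L (al v L (x, 1)) := by ring
  rw [e0]
  have hw : ∀ n : ℕ, 4 ^ n * (-hh L (al v L (x, 1))) ≤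
      Real.log (N2 v 1 ((dup (Et t))^[n] (x, 1))) - hh L (al v L ((dup (Et t))^[n] (x, 1))) := by
    intro n
    induction n with
    | zero =>
      rw [pow_zero, one_mul, Function.iterate_zero, id_eq]
      have h1 : 0 ≤ Real.log (N2 v 1 ((x, 1) : K × K)) := by
        apply Real.log_nonneg
        unfold N2
        rw [map_one, mul_one]
        exact le_max_right _ _
      linarith
    | succ n ih =>
      rw [Function.iterate_succ_apply', log_dup hv ht ht1 hL (hpn n)]
      have h1 := al_dup_le hv ht ht1 hL (hpn n)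
      have h2 := hh_mono hLpos h1 fold_le
      have h3 := hh_fold (a := al v L ((dup (Et t))^[n] (x, 1))) hLpos
      rw [pow_succ]
      linarith
  have h4 := hw n
  have h5 := hh_nonneg hLpos (al_nonneg v hLpos.le (hpn n)) ((al_le v hLpos.le (hpn n)).trans (by linarith))
  linarith

end Pool.Agent.Lib.H90L
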