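import Pool.Agent.Lib.H90L.A2b

/-!
# H90L, A2l: lower bound of the norm of `asm (sym p q)`
-/

set_option autoImplicit false

namespace Pool.Agent.Lib.H90L

open Pool.Agent.H38LS

universe u

variable {K : Type u} [Field K] {v : AbsoluteValue K ℝ}

/-- The three coordinates bound `N3`. -/
private theorem A2l_fst {w : ℝ} (s : K × K × K) : v s.1 ≤ N3 v w s := le_max_left _ _

private theorem A2l_snd {w : ℝ} (s : K × K × K) : w * v s.2.1 ≤ N3 v w s :=
  (le_max_left _ _).trans (le_max_right _ _)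

private theorem A2l_trd {w : ℝ} (s : K × K × K) : w ^ 2 * v s.2.2 ≤ N3 v w s :=
  (le_max_right _ _).trans (le_max_right _ _)

/-- The error term of the first coordinate. -/
private theorem A2l_err1 (hv : IsNonarchimedean v) {t a b c : K} (ht1 : v t ≤ 1) (ha : v a ≤ 1) (hb : v b ≤ 1)
    (hc : v c ≤ 1) : v (72 * t * a * c + 4 * t * b * c + (t + 1296 * t ^ 2) * c ^ 2) ≤ v t := by
  have h72 : v (72 : K) ≤ 1 := na_ofNat hv 72
  have h4 : v (4 : K) ≤ 1 := na_ofNat hv 4
  have h1296 : v (1296 : K) ≤ 1 := na_ofNat hv 1296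
  have ht0 := v.nonneg t
  refine na_add hv (na_add hv ?_ ?_) ?_
  · rw [map_mul, map_mul, map_mul]
    calc v 72 * v t * v a * v c ≤ 1 * v t * 1 * 1 := by
          have := v.nonneg (72 : K)
          have := v.nonneg a
          have := v.nonneg c
          gcongr
      _ = v t := by ring
  · rw [map_mul, map_mul, map_mul]
    calc v 4 * v t * v b * v c ≤ 1 * v t * 1 * 1 := by
          have := v.nonneg (4 : K)
          have := v.nonneg b
          have := v.nonneg c
          gcongr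
      _ = v t := by ring
  · rw [map_mul, map_pow]
    have h1 : v (t + 1296 * t ^ 2) ≤ v t := by
      refine na_add hv le_rfl ?_
      rw [map_mul, map_pow]
      calc v 1296 * v t ^ 2 ≤ 1 * (v t * 1) := by
            have := v.nonneg (1296 : K)
            rw [pow_two]
            gcongr
        _ = v t := by ring
    calc v (t + 1296 * t ^ 2) * v c ^ 2 ≤ v t * 1 ^ 2 := by
          have := v.nonneg c
          gcongr
      _ = v t := by ring

/-- The error term of the first coordinate, strict form. -/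
private theorem A2l_err2 (hv : IsNonarchimedean v) {t a b c : K} (ht : 0 < v t) (ht1 : v t < 1) (ha : v a < 1)
    (hb : v b < 1) (hc : v c = 1) : v (72 * t * a * c + 4 * t * b * c + 1296 * t ^ 2 * c ^ 2) < v t := by
  have h72 : v (72 : K) ≤ 1 := na_ofNat hv 72
  have h4 : v (4 : K) ≤ 1 := na_ofNat hv 4
  have h1296 : v (1296 : K) ≤ 1 := na_ofNat hv 1296
  refine na_add_lt hv (na_add_lt hv ?_ ?_) ?_
  · rw [map_mul, map_mul, map_mul, hc, mul_one]
    calc v 72 * v t * v a ≤ 1 * v t * v a := by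
          have := v.nonneg a
          gcongr
      _ < 1 * v t * 1 := by
          rw [one_mul]
          exact mul_lt_mul_of_pos_left ha ht
      _ = v t := by ring
  · rw [map_mul, map_mul, map_mul, hc, mul_one]
    calc v 4 * v t * v b ≤ 1 * v t * v b := by
          have := v.nonneg b
          gcongr
      _ < 1 * v t * 1 := by
          rw [one_mul]
          exact mul_lt_mul_of_pos_left hb ht
      _ = v t := by ring
  · rw [map_mul, map_mul, map_pow, map_pow, hc, one_pow, mul_one, pow_two]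
    calc v 1296 * (v t * v t) ≤ 1 * (v t * v t) := by
          gcongr
      _ < 1 * (v t * 1) := by
          rw [one_mul, one_mul]
          exact mul_lt_mul_of_pos_left ht1 ht
      _ = v t := by ring

/-- The error term of the second coordinate. -/
private theorem A2l_err3 (hv : IsNonarchimedean v) {t b c : K} (hb : v b ≤ 1) (hc : v c ≤ 1) :
    v (72 * t * b * c + 4 * t * c ^ 2) ≤ v t := by
  have h72 : v (72 : K) ≤ 1 := na_ofNat hv 72
  have h4 : v (4 : K) ≤ 1 := na_ofNat hv 4
  have ht0 := v.nonneg t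
  have hc0 := v.nonneg c
  have hb0 := v.nonneg b
  refine na_add hv ?_ ?_
  · rw [map_mul, map_mul, map_mul]
    calc v 72 * v t * v b * v c ≤ 1 * v t * 1 * 1 := by gcongr
      _ = v t := by ring
  · rw [map_mul, map_mul, map_pow]
    calc v 4 * v t * v c ^ 2 ≤ 1 * v t * 1 ^ 2 := by gcongr
      _ = v t := by ring

/-- First coordinate: large `s.1`. -/
private theorem A2l_c1 (hv : IsNonarchimedean v) {t : K} (ht1 : v t ≤ 1) {s : K × K × K} (h1 : v s.1 ≤ 1)
    (h2 : v s.2.1 ≤ 1) (h3 : v s.2.2 ≤ 1) (hlt : v t < v s.1 ^ 2) : v (asm (Et t) s).1 = v s.1 ^ 2 := by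
  have e : (asm (Et t) s).1 =
      s.1 ^ 2 + (72 * t * s.1 * s.2.2 + 4 * t * s.2.1 * s.2.2 + (t + 1296 * t ^ 2) * s.2.2 ^ 2) := by
    rw [asm_Et]
    ring
  rw [e, na_eq hv, map_pow]
  rw [map_pow]
  exact (A2l_err1 hv ht1 h1 h2 h3).trans_lt hlt

/-- First coordinate: small `s.1`. -/
private theorem A2l_c2 (hv : IsNonarchimedean v) {t : K} (ht : 0 < v t) (ht1 : v t < 1) {s : K × K × K}
    (h1 : v s.1 < 1) (h2 : v s.2.1 < 1) (h3 : v s.2.2 = 1) (hlt : v s.1 ^ 2 < v t) : v (asm (Et t) s).1 = v t := by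
  have e : (asm (Et t) s).1 =
      (s.1 ^ 2 + (72 * t * s.1 * s.2.2 + 4 * t * s.2.1 * s.2.2 + 1296 * t ^ 2 * s.2.2 ^ 2)) + t * s.2.2 ^ 2 := by
    rw [asm_Et]
    ring
  have h4 : v (t * s.2.2 ^ 2) = v t := by rw [map_mul, map_pow, h3, one_pow, mul_one]
  rw [e, na_eq' hv, h4]
  rw [h4]
  refine na_add_lt hv ?_ (A2l_err2 hv ht ht1 h1 h2 h3)
  rw [map_pow]
  exact hlt

/-- Second coordinate. -/
private theorem A2l_c3 (hv : IsNonarchimedean v) {t : K} {s : K × K × K}
    (h2 : v s.2.1 < 1) (h3 : v s.2.2 = 1) (hlt : v t < v s.1) : v (asm (Et t) s).2.1 = v s.1 := by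
  have e : (asm (Et t) s).2.1 = s.1 * (s.2.2 + 2 * s.2.1) - (72 * t * s.2.1 * s.2.2 + 4 * t * s.2.2 ^ 2) := by
    rw [asm_Et]
    ring
  have h5 : v (s.2.2 + 2 * s.2.1) = 1 := by
    rw [na_eq hv, h3]
    rw [h3]
    exact (na_nat_mul hv 2 s.2.1).trans_lt h2
  have h4 : v (s.1 * (s.2.2 + 2 * s.2.1)) = v s.1 := by rw [map_mul, h5, mul_one]
  rw [e, na_eq_sub hv, h4]
  rw [h4]
  exact (A2l_err3 hv h2.le h3.le).trans_lt hlt

/-- Third coordinate. -/
private theorem A2l_c4 (t : K) (p q : K × K) :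
    (asm (Et t) (sym p q)).2.2 = (p.1 * q.2 - q.1 * p.2) ^ 2 := by
  rw [asm_Et]
  simp only [sym]
  ring

/-- Lower bound. PROOF. `ω ≤ B ≤ A ≤ 1`. Let `E` be the right side.
(0) `A = 1` (then `|X₁| = 1`; note `A = 1` if and only if `|X₁| = 1`, because `ω < 1`): `E = max (w²) (w B) (B²) |t| = max (w²) (B²)`
(`w B ≤ max`, `|t| = ω² ≤ w²`). If `B = 1`: `|asm.1| = |X₁ X₂|² = 1`. If `B < 1`: `|Z₂| = 1`, `|X₂| ≤ B < 1`, so `|asm.2.2| = |X₁ Z₂|² = 1`, giving
`w²`; and if `B² > w²` then `B > ω`, `B = |X₂|`, `|X₁ X₂|² = B² > |t|`, so `|asm.1| = B²`.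
(1) `A < 1`: `|Z₁| = |Z₂| = 1`, `A = max |X₁| ω`, `B = max |X₂| ω`, `|2 (X₁ Z₂ + Z₁ X₂) + Z₁ Z₂| = 1`. Four terms of `E`:
`|t|` and `A² B²`: if `A² B² > |t|` then `A B > ω`, so `|X₁| = A`, `|X₂| = B` or (`B = ω`, then `A > 1`: impossible), `|asm.1| = A² B²`; if
`A² B² < |t|` then `|asm.1| = |t|` (the other terms are `< |t|`); if `A² B² = |t|`, i.e. `A B = ω`: `A, B > ω` (as `A, B < 1`), so `|X₁ X₂| = ω`,
`|asm.2.1| = ω` and `w ω ≥ ω² = |t|`.
`w A B`: if `A > ω`, `B > ω`: `|X₁ X₂| = A B > |t|`, `|asm.2.1| = A B`. If `B = ω`: `w A B = w A ω ≤ max (w² A²) (ω²)`, covered by the other terms.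
`w² A²`: if `B < A`: `|X₁ Z₂ - Z₁ X₂| = |X₁| = A` (`A > B ≥ ω`, `|X₂| ≤ B < A`), so `|asm.2.2| = A²`. If `B = A`: `w² A² ≤ w A B`, covered. -/
theorem le_asm_norm (hv : IsNonarchimedean v) {t : K} (ht : 0 < v t) (ht1 : v t < 1) {ω w A B : ℝ} (hω : 0 < ω)
    (hωt : ω ^ 2 = v t) (hw : ω ≤ w) (hw1 : w ≤ 1) {p q : K × K} (hp : N2 v 1 p = 1) (hq : N2 v 1 q = 1)
    (hA : A = N2 v ω p) (hB : B = N2 v ω q) (hBA : B ≤ A) :
    max (max (w ^ 2 * A ^ 2) (w * (A * B))) (max (A ^ 2 * B ^ 2) (v t)) ≤ N3 v w (asm (Et t) (sym p q)) := by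
  have hω1 : ω < 1 := by nlinarith
  have hw0 : 0 < w := hω.trans_le hw
  -- coordinates
  have hX₁ : v p.1 ≤ 1 := hp ▸ le_max_left _ _
  have hX₂ : v q.1 ≤ 1 := hq ▸ le_max_left _ _
  have hZ₁ : v p.2 ≤ 1 := by
    have h : (1 : ℝ) * v p.2 ≤ N2 v 1 p := le_max_right _ _
    rwa [hp, one_mul] at h
  have hZ₂ : v q.2 ≤ 1 := by
    have h : (1 : ℝ) * v q.2 ≤ N2 v 1 q := le_max_right _ _
    rwa [hq, one_mul] at h
  have hAX : v p.1 ≤ A := hA ▸ le_max_left _ _
  have hBX : v q.1 ≤ B := hB ▸ le_max_left _ _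
  have hA1 : A ≤ 1 := by
    rw [hA, ← hp]
    exact N2_mono v hω1.le p
  have hB1 : B ≤ 1 := hBA.trans hA1
  have hωB : ω ≤ B := by
    have h := mul_N2_le v hω.le hω1.le q
    rwa [hq, mul_one, ← hB] at h
  have hωA : ω ≤ A := hωB.trans hBA
  have hA0 : 0 < A := hω.trans_le hωA
  have hB0 : 0 < B := hω.trans_le hωB
  -- `ω < A` gives `v p.1 = A`
  have hAe : ω < A → v p.1 = A := by
    intro h
    rcases le_total (v p.1) (ω * v p.2) with h1 | h1
    · have h2 : A = ω * v p.2 := by rw [hA, N2, max_eq_right h1]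
      have h3 : A ≤ ω := by
        rw [h2]
        exact mul_le_of_le_one_right hω.le hZ₁
      exact absurd h (not_lt.2 h3)
    · rw [hA, N2, max_eq_left h1]
  have hBe : ω < B → v q.1 = B := by
    intro h
    rcases le_total (v q.1) (ω * v q.2) with h1 | h1
    · have h2 : B = ω * v q.2 := by rw [hB, N2, max_eq_right h1]
      have h3 : B ≤ ω := by
        rw [h2]
        exact mul_le_of_le_one_right hω.le hZ₂
      exact absurd h (not_lt.2 h3)
    · rw [hB, N2, max_eq_left h1]
  -- `A < 1` gives `v p.2 = 1`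
  have hZe₁ : A < 1 → v p.2 = 1 := by
    intro h
    have h1 : v p.1 < 1 := hAX.trans_lt h
    have h2 : max (v p.1) (1 * v p.2) = 1 := hp
    rcases le_total (v p.1) (1 * v p.2) with h3 | h3
    · rwa [max_eq_right h3, one_mul] at h2
    · rw [max_eq_left h3] at h2
      exact absurd h2 h1.ne
  have hZe₂ : B < 1 → v q.2 = 1 := by
    intro h
    have h1 : v q.1 < 1 := hBX.trans_lt h
    have h2 : max (v q.1) (1 * v q.2) = 1 := hq
    rcases le_total (v q.1) (1 * v q.2) with h3 | h3
    · rwa [max_eq_right h3, one_mul] at h2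
    · rw [max_eq_left h3] at h2
      exact absurd h2 h1.ne
  -- the symmetric coordinates
  have hs1 : v (sym p q).1 = v p.1 * v q.1 := by simp only [sym, map_mul]
  have hs1' : v (sym p q).1 ≤ 1 := by
    rw [hs1]
    exact mul_le_one₀ hX₁ (v.nonneg _) hX₂
  have hs3 : v (sym p q).2.2 = v p.2 * v q.2 := by simp only [sym, map_mul]
  have hs3' : v (sym p q).2.2 ≤ 1 := by
    rw [hs3]
    exact mul_le_one₀ hZ₁ (v.nonneg _) hZ₂
  have hs2' : v (sym p q).2.1 ≤ 1 := by
    simp only [sym]
    refine na_add hv ?_ ?_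
    · rw [map_mul]
      exact mul_le_one₀ hX₁ (v.nonneg _) hZ₂
    · rw [map_mul]
      exact mul_le_one₀ hX₂ (v.nonneg _) hZ₁
  set N := N3 v w (asm (Et t) (sym p q)) with hN
  have hN1 : v (asm (Et t) (sym p q)).1 ≤ N := A2l_fst _
  have hN2 : w * v (asm (Et t) (sym p q)).2.1 ≤ N := A2l_snd _
  have hN3 : w ^ 2 * v (asm (Et t) (sym p q)).2.2 ≤ N := A2l_trd _
  rcases hA1.lt_or_eq with hAlt | hAeq
  · -- case `A < 1`
    have hBlt : B < 1 := hBA.trans_lt hAlt
    have hz₁ := hZe₁ hAlt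
    have hz₂ := hZe₂ hBlt
    have hs3e : v (sym p q).2.2 = 1 := by rw [hs3, hz₁, hz₂, mul_one]
    have hs2lt : v (sym p q).2.1 < 1 := by
      simp only [sym]
      refine na_add_lt hv ?_ ?_
      · rw [map_mul, hz₂, mul_one]
        exact hAX.trans_lt hAlt
      · rw [map_mul, hz₁, mul_one]
        exact hBX.trans_lt hBlt
    have hs1le : v (sym p q).1 ≤ A * B := by
      rw [hs1]
      exact mul_le_mul hAX hBX (v.nonneg _) hA0.le
    have hAB1 : A * B < 1 := by nlinarith
    have hABpos : 0 < A * B := mul_pos hA0 hB0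
    -- the terms `|t|` and `A² B²`
    have key1 : v t ≤ N ∧ A ^ 2 * B ^ 2 ≤ N := by
      rcases lt_trichotomy (A * B) ω with h | h | h
      · have h1 : v (sym p q).1 ^ 2 < v t := by
          rw [← hωt]
          have h2 := v.nonneg (sym p q).1
          exact pow_lt_pow_left₀ (hs1le.trans_lt h) h2 two_ne_zero
        rw [A2l_c2 hv ht ht1 (hs1le.trans_lt hAB1) hs2lt hs3e h1] at hN1
        refine ⟨hN1, le_trans ?_ hN1⟩
        rw [← hωt, ← mul_pow]
        exact pow_le_pow_left₀ hABpos.le h.le 2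
      · have hωA' : ω < A := by
          rw [← h]
          exact mul_lt_of_lt_one_right hA0 hBlt
        have hωB' : ω < B := by
          rw [← h]
          exact mul_lt_of_lt_one_left hB0 hAlt
        have h1 : v (sym p q).1 = ω := by rw [hs1, hAe hωA', hBe hωB', h]
        have h2 : v t < v (sym p q).1 := by
          rw [h1, ← hωt]
          nlinarith
        rw [A2l_c3 hv hs2lt hs3e h2, h1] at hN2
        have h3 : v t ≤ N := by
          refine le_trans ?_ hN2
          rw [← hωt, pow_two]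
          exact mul_le_mul_of_nonneg_right hw hω.le
        refine ⟨h3, ?_⟩
        rw [← mul_pow, h, hωt]
        exact h3
      · have hωA' : ω < A := h.trans (mul_lt_of_lt_one_right hA0 hBlt)
        have hωB' : ω < B := h.trans (mul_lt_of_lt_one_left hB0 hAlt)
        have h1 : v (sym p q).1 = A * B := by rw [hs1, hAe hωA', hBe hωB']
        have h2 : v t < v (sym p q).1 ^ 2 := by
          rw [h1, ← hωt]
          exact pow_lt_pow_left₀ h hω.le two_ne_zero
        rw [A2l_c1 hv ht1.le hs1' hs2' hs3' h2] at hN1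
        refine ⟨h2.le.trans hN1, ?_⟩
        rwa [h1, mul_pow] at hN1
    -- the term `w² A²`
    have key3 : ω < B → w * (A * B) ≤ N := by
      intro hωB'
      have hωA' : ω < A := hωB'.trans_le hBA
      have h1 : v (sym p q).1 = A * B := by rw [hs1, hAe hωA', hBe hωB']
      have h2 : v t < v (sym p q).1 := by
        rw [h1, ← hωt, pow_two]
        exact mul_lt_mul'' hωA' hωB' hω.le hω.le
      rw [A2l_c3 hv hs2lt hs3e h2, h1] at hN2
      exact hN2
    have key2 : w ^ 2 * A ^ 2 ≤ N := by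
      rcases hBA.lt_or_eq with h | h
      · have hωA' : ω < A := hωB.trans_lt h
        have h1 : v (p.1 * q.2 - q.1 * p.2) = A := by
          rw [na_eq_sub hv]
          · rw [map_mul, hz₂, mul_one, hAe hωA']
          · rw [map_mul, map_mul, hz₂, hz₁, mul_one, mul_one, hAe hωA']
            exact hBX.trans_lt h
        rw [A2l_c4, map_pow, h1] at hN3
        exact hN3
      · rcases hωB.lt_or_eq with h' | h'
        · refine le_trans ?_ (key3 h')
          rw [h, pow_two, pow_two, mul_assoc]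
          refine mul_le_mul_of_nonneg_left ?_ hw0.le
          exact mul_le_of_le_one_left (mul_pos hA0 hA0).le hw1
        · refine le_trans ?_ key1.1
          rw [← hωt, ← h, ← h', ← mul_pow]
          refine pow_le_pow_left₀ (mul_pos hw0 hω).le ?_ 2
          exact mul_le_of_le_one_left hω.le hw1
    have key4 : w * (A * B) ≤ N := by
      rcases hωB.lt_or_eq with h' | h'
      · exact key3 h'
      · rw [← h']
        rcases le_total (w * A) ω with h4 | h4
        · refine le_trans ?_ key1.1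
          rw [← hωt, pow_two, ← mul_assoc]
          exact mul_le_mul_of_nonneg_right h4 hω.le
        · refine le_trans ?_ key2
          rw [← mul_assoc, ← mul_pow, pow_two]
          exact mul_le_mul_of_nonneg_left h4 (mul_pos hw0 hA0).le
    exact max_le (max_le key2 key4) (max_le key1.2 key1.1)
  · -- case `A = 1`
    have hωA' : ω < A := by rw [hAeq]; exact hω1
    have hx₁ : v p.1 = 1 := by rw [hAe hωA', hAeq]
    rcases hB1.lt_or_eq with hBlt | hBeq
    · have hz₂ := hZe₂ hBlt
      have h1 : v (p.1 * q.2 - q.1 * p.2) = 1 := by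
        rw [na_eq_sub hv]
        · rw [map_mul, hx₁, hz₂, mul_one]
        · rw [map_mul, map_mul, hx₁, hz₂, mul_one]
          calc v q.1 * v p.2 ≤ B * 1 := mul_le_mul hBX hZ₁ (v.nonneg _) hB0.le
            _ < 1 := by rw [mul_one]; exact hBlt
      rw [A2l_c4, map_pow, h1, one_pow, mul_one] at hN3
      have ht' : v t ≤ N := by
        refine le_trans ?_ hN3
        rw [← hωt]
        exact pow_le_pow_left₀ hω.le hw 2
      have hBB : B ^ 2 ≤ N := by
        rcases le_or_gt B w with h | h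
        · exact (pow_le_pow_left₀ hB0.le h 2).trans hN3
        · have hωB' : ω < B := hw.trans_lt h
          have h2 : v (sym p q).1 = B := by rw [hs1, hx₁, one_mul, hBe hωB']
          have h3 : v t < v (sym p q).1 ^ 2 := by
            rw [h2, ← hωt]
            exact pow_lt_pow_left₀ hωB' hω.le two_ne_zero
          rw [A2l_c1 hv ht1.le hs1' hs2' hs3' h3, h2] at hN1
          exact hN1
      rw [hAeq]
      refine max_le (max_le ?_ ?_) (max_le ?_ ht')
      · rwa [one_pow, mul_one]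
      · rw [one_mul]
        rcases le_total B w with h | h
        · refine le_trans ?_ hN3
          rw [pow_two]
          exact mul_le_mul_of_nonneg_left h hw0.le
        · refine le_trans ?_ hBB
          rw [pow_two]
          exact mul_le_mul_of_nonneg_right h hB0.le
      · rwa [one_pow, one_mul]
    · have hωB' : ω < B := by rw [hBeq]; exact hω1
      have h2 : v (sym p q).1 = 1 := by rw [hs1, hx₁, one_mul, hBe hωB', hBeq]
      have h3 : v t < v (sym p q).1 ^ 2 := by rw [h2, one_pow]; exact ht1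
      rw [A2l_c1 hv ht1.le hs1' hs2' hs3' h3, h2, one_pow] at hN1
      rw [hAeq, hBeq]
      simp only [one_pow, mul_one]
      refine max_le (max_le ?_ ?_) (max_le hN1 (ht1.le.trans hN1))
      · exact (pow_le_one₀ hw0.le hw1).trans hN1
      · exact hw1.trans hN1

end Pool.Agent.Lib.H90L
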