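import Pool.Agent.Lib.H90L.A2u
import Pool.Agent.Lib.H90L.A2l

/-!
# H90L, A2c: the norm of `asm (sym p q)`
-/

set_option autoImplicit false

namespace Pool.Agent.Lib.H90L

open Pool.Agent.H38LS

universe u

variable {K : Type u} [Field K] {v : AbsoluteValue K ℝ}

theorem asm_norm (hv : IsNonarchimedean v) {t : K} (ht : 0 < v t) (ht1 : v t < 1) {ω w A B : ℝ} (hω : 0 < ω)
    (hωt : ω ^ 2 = v t) (hw : ω ≤ w) (hw1 : w ≤ 1) {p q : K × K} (hp : N2 v 1 p = 1) (hq : N2 v 1 q = 1)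
    (hA : A = N2 v ω p) (hB : B = N2 v ω q) (hBA : B ≤ A) :
    N3 v w (asm (Et t) (sym p q)) = max (max (w ^ 2 * A ^ 2) (w * (A * B))) (max (A ^ 2 * B ^ 2) (v t)) :=
  le_antisymm (asm_norm_le hv ht ht1 hω hωt hw hw1 hp hq hA hB hBA) (le_asm_norm hv ht ht1 hω hωt hw hw1 hp hq hA hB hBA)

end Pool.Agent.Lib.H90L
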