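import Pool.Agent.Lib.H90L.R0

/-!
# H90L, R1: the tropical formula
-/

set_option autoImplicit false

namespace Pool.Agent.Lib.H90L

open Pool.Agent.H38LS

universe u



/-- The tropical formula. PROOF. All factors are exponentials: `max (e^x) (e^y) = e^(max x y)`, so the claim is an identity of
`max` of real numbers; multiply out: the left side is `e^(-2a) max (e^(-o)) (e^(-(b-a))) max (e^(-o)) (e^(-(fold (a+b))))`, i.e. the maximum of
`w² A²`, `w A² (B / A) = w A B`, `w A² e^(-fold)` and `A² (B/A) e^(-fold) = A B e^(-fold)`, where `e^(-fold) = max (A B) (|t| / (A B))`. Now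
`A B e^(-fold) = max (A² B²) |t|`, and `w A² e^(-fold) ≤ w A B` (`A² A B ≤ A B`; `A² |t| / (A B) = A |t| / B ≤ A B` because `B² ≥ |t|`). -/
theorem trop {L a b o : ℝ} (ha : 0 ≤ a) (hab : a ≤ b) (hb : b ≤ L / 2) (ho : 0 ≤ o) (hoL : o ≤ L / 2) :
    Real.exp (-(2 * a + min (b - a) o + min (fold L (a + b)) o)) =
      max (max (Real.exp (-o) ^ 2 * Real.exp (-a) ^ 2) (Real.exp (-o) * (Real.exp (-a) * Real.exp (-b))))
        (max (Real.exp (-a) ^ 2 * Real.exp (-b) ^ 2) (Real.exp (-L))) := by
  have e1 : Real.exp (-o) ^ 2 * Real.exp (-a) ^ 2 = Real.exp (-(2 * o + 2 * a)) := by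
    rw [← Real.exp_nat_mul, ← Real.exp_nat_mul, ← Real.exp_add]
    congr 1
    push_cast
    ring
  have e2 : Real.exp (-o) * (Real.exp (-a) * Real.exp (-b)) = Real.exp (-(o + a + b)) := by
    rw [← Real.exp_add, ← Real.exp_add]
    congr 1
    ring
  have e3 : Real.exp (-a) ^ 2 * Real.exp (-b) ^ 2 = Real.exp (-(2 * a + 2 * b)) := by
    rw [← Real.exp_nat_mul, ← Real.exp_nat_mul, ← Real.exp_add]
    congr 1
    push_cast
    ring
  rw [e1, e2, e3]
  unfold fold
  apply le_antisymm
  · rcases le_total (b - a) o with h1 | h1
    · rw [min_eq_left h1]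
      rcases le_total (min (a + b) (L - (a + b))) o with h2 | h2
      · rw [min_eq_left h2]
        rcases le_total (a + b) (L - (a + b)) with h3 | h3
        · rw [min_eq_left h3]
          refine le_max_of_le_right (le_max_of_le_left ?_)
          apply Real.exp_le_exp.mpr
          linarith
        · rw [min_eq_right h3]
          refine le_max_of_le_right (le_max_of_le_right ?_)
          apply Real.exp_le_exp.mpr
          linarith
      · rw [min_eq_right h2]
        refine le_max_of_le_left (le_max_of_le_right ?_)
        apply Real.exp_le_exp.mpr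
        linarith
    · rw [min_eq_right h1]
      rcases le_total (min (a + b) (L - (a + b))) o with h2 | h2
      · rw [min_eq_left h2]
        refine le_max_of_le_left (le_max_of_le_right ?_)
        apply Real.exp_le_exp.mpr
        rcases le_total (a + b) (L - (a + b)) with h3 | h3
        · rw [min_eq_left h3]
          linarith
        · rw [min_eq_right h3]
          linarith
      · rw [min_eq_right h2]
        refine le_max_of_le_left (le_max_of_le_left ?_)
        apply Real.exp_le_exp.mpr
        linarith
  · have m1 : min (b - a) o ≤ b - a := min_le_left _ _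
    have m2 : min (b - a) o ≤ o := min_le_right _ _
    have m3 : min (min (a + b) (L - (a + b))) o ≤ o := min_le_right _ _
    have m4 : min (min (a + b) (L - (a + b))) o ≤ a + b := (min_le_left _ _).trans (min_le_left _ _)
    have m5 : min (min (a + b) (L - (a + b))) o ≤ L - (a + b) := (min_le_left _ _).trans (min_le_right _ _)
    refine max_le (max_le ?_ ?_) (max_le ?_ ?_)
    all_goals
      apply Real.exp_le_exp.mpr
      linarith

end Pool.Agent.Lib.H90L
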