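import Pool.Agent.Lib.H90L.A2a
import Pool.Agent.Lib.H90L.A2c
import Pool.Agent.Lib.H90L.R1

/-!
# H90L, A2: the multiset lemma
-/

set_option autoImplicit false

namespace Pool.Agent.Lib.H90L

open Pool.Agent.H38LS

universe u

variable {K : Type u} [Field K] {v : AbsoluteValue K ℝ}

private theorem A2_aux (hv : IsNonarchimedean v) {t : K} (ht : 0 < v t) (ht1 : v t < 1) {L : ℝ}
    (hL : L = -Real.log (v t))
    {p q : K × K} (hp : p ≠ 0) (hq : q ≠ 0) {o : ℝ} (ho : 0 ≤ o) (hoL : o ≤ L / 2)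
    (hab : al v L p ≤ al v L q) :
    N3 v (Real.exp (-o)) (asm (Et t) (sym p q)) = N2 v 1 p ^ 2 * N2 v 1 q ^ 2 *
      Real.exp (-(2 * al v L p + min (al v L q - al v L p) o
        + min (fold L (al v L p + al v L q)) o)) := by
  have hLpos : 0 < L := by rw [hL]; linarith [Real.log_neg ht ht1]
  obtain ⟨c, hc, hcp⟩ := exists_norm v hp
  obtain ⟨e, he, heq⟩ := exists_norm v hq
  have hvt : v t = Real.exp (-L) := by rw [hL, neg_neg, Real.exp_log ht]
  have hcp0 : c • p ≠ 0 := smul_ne_zero hc hp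
  have heq0 : e • q ≠ 0 := smul_ne_zero he hq
  have hA : Real.exp (-al v L p) = N2 v (Real.exp (-(L / 2))) (c • p) := by
    rw [N2_eq_exp_al v L hcp0, hcp, one_mul, al_smul v hc]
  have hB : Real.exp (-al v L q) = N2 v (Real.exp (-(L / 2))) (e • q) := by
    rw [N2_eq_exp_al v L heq0, heq, one_mul, al_smul v he]
  have hω : Real.exp (-(L / 2)) ^ 2 = v t := by
    rw [hvt, ← Real.exp_nat_mul]
    congr 1
    push_cast
    ring
  have key := asm_norm hv ht ht1 (Real.exp_pos (-(L / 2))) hω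
    (Real.exp_le_exp.2 (neg_le_neg hoL)) (Real.exp_le_one_iff.2 (neg_nonpos.2 ho)) hcp heq hA hB
    (Real.exp_le_exp.2 (neg_le_neg hab))
  rw [hvt, ← trop (al_nonneg v hLpos.le hp) hab (al_le v hLpos.le hq) ho hoL, sym_smul,
    asm_smul, N3_smul] at key
  have h1 : v c * N2 v 1 p = 1 := by rw [← N2_smul]; exact hcp
  have h2 : v e * N2 v 1 q = 1 := by rw [← N2_smul]; exact heq
  have h3 : v ((c * e) ^ 2) * (N2 v 1 p ^ 2 * N2 v 1 q ^ 2) = 1 := by
    rw [map_pow, map_mul]
    calc (v c * v e) ^ 2 * (N2 v 1 p ^ 2 * N2 v 1 q ^ 2)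
        = (v c * N2 v 1 p) ^ 2 * (v e * N2 v 1 q) ^ 2 := by ring
      _ = 1 := by rw [h1, h2]; norm_num
  rw [← key]
  calc N3 v (Real.exp (-o)) (asm (Et t) (sym p q))
      = (v ((c * e) ^ 2) * (N2 v 1 p ^ 2 * N2 v 1 q ^ 2))
        * N3 v (Real.exp (-o)) (asm (Et t) (sym p q)) := by rw [h3, one_mul]
    _ = N2 v 1 p ^ 2 * N2 v 1 q ^ 2
        * (v ((c * e) ^ 2) * N3 v (Real.exp (-o)) (asm (Et t) (sym p q))) := by ring

/-- PROOF. Scale `p`, `q` to norm one (`exists_norm`, `al_smul`, `sym_smul`, `asm_smul`, `N3_smul`: the scalar cancels in the quotient), then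
`asm_norm` (with `A = e^(-a)`, `B = e^(-b)`, `w = e^(-o)`, `|t| = e^(-L)`, `N2_eq_exp_al`), and `trop`. -/
theorem asm_log (hv : IsNonarchimedean v) {t : K} (ht : 0 < v t) (ht1 : v t < 1) {L : ℝ} (hL : L = -Real.log (v t))
    {p q : K × K} (hp : p ≠ 0) (hq : q ≠ 0) {o : ℝ} (ho : 0 ≤ o) (hoL : o ≤ L / 2) :
    N3 v (Real.exp (-o)) (asm (Et t) (sym p q)) = N2 v 1 p ^ 2 * N2 v 1 q ^ 2 *
      Real.exp (-(2 * min (al v L p) (al v L q) + min |al v L p - al v L q| o + min (fold L (al v L p + al v L q)) o)) := by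
  rcases le_total (al v L p) (al v L q) with h | h
  · rw [min_eq_left h, abs_of_nonpos (sub_nonpos.2 h), neg_sub]
    exact A2_aux hv ht ht1 hL hp hq ho hoL h
  · rw [min_eq_right h, abs_of_nonneg (sub_nonneg.2 h), sym_comm p q,
      A2_aux hv ht ht1 hL hq hp ho hoL h, add_comm (al v L q) (al v L p),
      mul_comm (N2 v 1 q ^ 2) (N2 v 1 p ^ 2)]

/-- (A2). PROOF. By `gauss` and `N3_smul`: `N_w r₁ * N_w r₂ = |l| N3_w (asm (sym p q))` for `w = e^(-o)`, `0 ≤ o ≤ L/2`. By `N2_eq_exp_min` the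
left side is `N_1 r₁ N_1 r₂ exp (-(min (al r₁) o + min (al r₂) o))`, by `asm_log` the right side is
`|l| N_1 p² N_1 q² exp (-(2 min a b + min |a-b| o + min (fold (a+b)) o))`. Divide by the case `o = 0` and take logarithms:
`min (al r₁) o + min (al r₂) o = min |a-b| o + min (fold (a+b)) o` for all `o ∈ [0, L/2]`; `min_det`. -/
theorem A2 : Spec.A2.{u} := by
  intro K _ v hv t ht ht1 L hL p q r₁ r₂ h
  obtain ⟨hp, hq, hr₁, hr₂, l, hl, hsym⟩ := h
  have hLpos : 0 < L := by rw [hL]; linarith [Real.log_neg ht ht1]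
  have ha0 := al_nonneg v hLpos.le hp
  have ha1 := al_le v hLpos.le hp
  have hb0 := al_nonneg v hLpos.le hq
  have hb1 := al_le v hLpos.le hq
  have hr10 := al_nonneg v hLpos.le hr₁
  have hr11 := al_le v hLpos.le hr₁
  have hr20 := al_nonneg v hLpos.le hr₂
  have hr21 := al_le v hLpos.le hr₂
  have habs : |al v L p - al v L q| ≤ L / 2 := abs_le.2 ⟨by linarith, by linarith⟩
  have hfold0 : 0 ≤ fold L (al v L p + al v L q) := fold_nonneg (by linarith) (by linarith)
  have hN1 := N2_pos v one_pos hr₁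
  have hN2 := N2_pos v one_pos hr₂
  -- the identity for every weight
  have key : ∀ o, 0 ≤ o → o ≤ L / 2 →
      N2 v 1 r₁ * N2 v 1 r₂ * Real.exp (-(min (al v L r₁) o + min (al v L r₂) o))
      = v l * (N2 v 1 p ^ 2 * N2 v 1 q ^ 2) *
        Real.exp (-(2 * min (al v L p) (al v L q) + min |al v L p - al v L q| o
          + min (fold L (al v L p + al v L q)) o)) := by
    intro o ho hoL
    have h1 := gauss hv (Real.exp_pos (-o)) r₁ r₂
    rw [N2_eq_exp_min v ho hoL hr₁, N2_eq_exp_min v ho hoL hr₂, hsym, N3_smul,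
      asm_log hv ht ht1 hL hp hq ho hoL] at h1
    have h2 : Real.exp (-(min (al v L r₁) o + min (al v L r₂) o))
        = Real.exp (-min (al v L r₁) o) * Real.exp (-min (al v L r₂) o) := by
      rw [← Real.exp_add]
      congr 1
      ring
    rw [h2]
    linarith
  have key0 := key 0 le_rfl (by linarith)
  have habs0 : 0 ≤ |al v L p - al v L q| := abs_nonneg _
  rw [min_eq_right hr10, min_eq_right hr20, min_eq_right habs0, min_eq_right hfold0] at key0
  simp only [add_zero, neg_zero, Real.exp_zero, mul_one] at key0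
  refine min_det (M := L / 2) hr10 hr20 (abs_nonneg _) hfold0 hr11 hr21 habs fold_le ?_
  intro o ho hoL
  have h1 := key o ho hoL
  have h2 : Real.exp (-(2 * min (al v L p) (al v L q) + min |al v L p - al v L q| o
          + min (fold L (al v L p + al v L q)) o))
      = Real.exp (-(2 * min (al v L p) (al v L q)))
        * Real.exp (-(min |al v L p - al v L q| o + min (fold L (al v L p + al v L q)) o)) := by
    rw [← Real.exp_add]
    congr 1
    ring
  rw [h2, ← mul_assoc, ← key0] at h1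
  have h3 := mul_left_cancel₀ (mul_pos hN1 hN2).ne' h1
  have h4 := Real.exp_injective h3
  linarith

end Pool.Agent.Lib.H90L
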