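import Pool.Agent.Lib.H90L.NA

/-!
# H90L, A2a: Gauss's lemma with weights
-/

set_option autoImplicit false

namespace Pool.Agent.Lib.H90L

open Pool.Agent.H38LS

universe u

variable {K : Type u} [Field K] {v : AbsoluteValue K ℝ}

/-- PROOF. `N3 ≤`: every term of `sym p q` is at most `N_w p N_w q` (ultrametric inequality). `≥`: let `p = (X₁, Z₁)`, `q = (X₂, Z₂)`. If
`|X₁| ≥ w |Z₁|`, `|X₂| ≥ w |Z₂|`: the first coordinate `X₁ X₂`. If `|X₁| ≤ w |Z₁|`, `|X₂| ≤ w |Z₂|`: the third. If `|X₁| ≥ w |Z₁|` and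
`|X₂| < w |Z₂|`: then (for `X₁ ≠ 0`; else the product is 0 or trivial) `|Z₁ X₂| < |X₁ Z₂|`, so the second coordinate has absolute value
`|X₁ Z₂|`. The last case is symmetric (`sym_comm`). -/
theorem gauss (hv : IsNonarchimedean v) {w : ℝ} (hw : 0 < w) (p q : K × K) :
    N2 v w p * N2 v w q = N3 v w (sym p q) := by
  obtain ⟨X₁, Z₁⟩ := p
  obtain ⟨X₂, Z₂⟩ := q
  simp only [N2, N3, sym, map_mul]
  have hX1 := v.nonneg X₁
  have hX2 := v.nonneg X₂
  have hZ1 := v.nonneg Z₁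
  have hZ2 := v.nonneg Z₂
  have hb0 : 0 ≤ w * v Z₁ := mul_nonneg hw.le hZ1
  have hd0 : 0 ≤ w * v Z₂ := mul_nonneg hw.le hZ2
  have e1 : w * v (X₁ * Z₂) = v X₁ * (w * v Z₂) := by rw [map_mul]; ring
  have e2 : w * v (X₂ * Z₁) = (w * v Z₁) * v X₂ := by rw [map_mul]; ring
  have e3 : w ^ 2 * (v Z₁ * v Z₂) = (w * v Z₁) * (w * v Z₂) := by ring
  rw [e3]
  have hsum : w * v (X₁ * Z₂ + X₂ * Z₁) ≤ max (w * v (X₁ * Z₂)) (w * v (X₂ * Z₁)) := by
    rw [← mul_max_of_nonneg _ _ hw.le]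
    exact mul_le_mul_of_nonneg_left (hv _ _) hw.le
  have hs1 : w * v (X₂ * Z₁) < w * v (X₁ * Z₂) → w * v (X₁ * Z₂ + X₂ * Z₁) = w * v (X₁ * Z₂) := by
    intro h
    rw [na_eq hv (lt_of_mul_lt_mul_left h hw.le)]
  have hs2 : w * v (X₁ * Z₂) < w * v (X₂ * Z₁) → w * v (X₁ * Z₂ + X₂ * Z₁) = w * v (X₂ * Z₁) := by
    intro h
    rw [na_eq' hv (lt_of_mul_lt_mul_left h hw.le)]
  rw [e1, e2] at hsum hs1 hs2
  generalize w * v (X₁ * Z₂ + X₂ * Z₁) = S at *
  generalize v X₁ = a at *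
  generalize v X₂ = c at *
  generalize w * v Z₁ = b at *
  generalize w * v Z₂ = d at *
  apply le_antisymm
  · rcases le_total b a with h1 | h1 <;> rcases le_total d c with h2 | h2
    · rw [max_eq_left h1, max_eq_left h2]
      exact le_max_left _ _
    · rw [max_eq_left h1, max_eq_right h2]
      rcases lt_or_ge (b * c) (a * d) with h3 | h3
      · rw [hs1 h3]
        exact le_max_of_le_right (le_max_left _ _)
      · exact le_max_of_le_left (h3.trans (mul_le_mul_of_nonneg_right h1 hX2))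
    · rw [max_eq_right h1, max_eq_left h2]
      rcases lt_or_ge (a * d) (b * c) with h3 | h3
      · rw [hs2 h3]
        exact le_max_of_le_right (le_max_left _ _)
      · exact le_max_of_le_left (h3.trans (mul_le_mul_of_nonneg_left h2 hX1))
    · rw [max_eq_right h1, max_eq_right h2]
      exact le_max_of_le_right (le_max_right _ _)
  · have ha : a ≤ max a b := le_max_left _ _
    have hb : b ≤ max a b := le_max_right _ _
    have hc : c ≤ max c d := le_max_left _ _
    have hd : d ≤ max c d := le_max_right _ _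
    have h0 : 0 ≤ max a b := hX1.trans ha
    refine max_le (mul_le_mul ha hc hX2 h0) (max_le (hsum.trans (max_le ?_ ?_)) ?_)
    · exact mul_le_mul ha hd hd0 h0
    · exact mul_le_mul hb hc hX2 h0
    · exact mul_le_mul hb hd hd0 h0

end Pool.Agent.Lib.H90L
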