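import Pool.Agent.Lib.H90L.G1

/-!
# H90L, A2b: the norm of `asm (sym p q)`, nonarchimedean, `|t| < 1` (exact)
-/

set_option autoImplicit false

namespace Pool.Agent.Lib.H90L

open Pool.Agent.H38LS

universe u

variable {K : Type u} [Field K] {v : AbsoluteValue K ℝ}

/-- The coordinates of `asm (Et t)`. -/
theorem asm_Et (t : K) (s : K × K × K) : asm (Et t) s =
    (s.1 ^ 2 + 72 * t * s.1 * s.2.2 + 4 * t * s.2.1 * s.2.2 + (t + 1296 * t ^ 2) * s.2.2 ^ 2,
      s.1 * (2 * s.2.1 + s.2.2) - 72 * t * s.2.1 * s.2.2 - 4 * t * s.2.2 ^ 2,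
      s.2.1 ^ 2 - 4 * s.1 * s.2.2) := by
  ext
  · simp only [asm, Et, WeierstrassCurve.b₄, WeierstrassCurve.b₆, WeierstrassCurve.b₈]
    ring
  · simp only [asm, Et, WeierstrassCurve.b₂, WeierstrassCurve.b₄, WeierstrassCurve.b₆]
    ring
  · simp only [asm]

end Pool.Agent.Lib.H90L
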