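import Pool.Agent.Lib.H90L.A2b

/-!
# H90L, A2u: upper bound of the norm of `asm (sym p q)`
-/

set_option autoImplicit false

namespace Pool.Agent.Lib.H90L

open Pool.Agent.H38LS

universe u

variable {K : Type u} [Field K] {v : AbsoluteValue K ℝ}

/-- Upper bound. PROOF. `p = (X₁, Z₁)`, `q = (X₂, Z₂)`, all of absolute value `≤ 1`, `|X₁| ≤ A`, `|X₂| ≤ B` (`A = N_ω p`). By `asm_Et`:
`|asm.1| ≤ max (|X₁ X₂|²) |t| ≤ max (A² B²) |t|`; `|asm.2.1| ≤ max |X₁ X₂| |t| ≤ max (A B) |t|` and `w |t| ≤ |t|`;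
`asm.2.2 = (X₁ Z₂ - Z₁ X₂)²`, of absolute value `≤ max A B ^ 2 = A²`. -/
theorem asm_norm_le (hv : IsNonarchimedean v) {t : K} (ht : 0 < v t) (ht1 : v t < 1) {ω w A B : ℝ} (hω : 0 < ω)
    (hωt : ω ^ 2 = v t) (hw : ω ≤ w) (hw1 : w ≤ 1) {p q : K × K} (hp : N2 v 1 p = 1) (hq : N2 v 1 q = 1)
    (hA : A = N2 v ω p) (hB : B = N2 v ω q) (hBA : B ≤ A) :
    N3 v w (asm (Et t) (sym p q)) ≤ max (max (w ^ 2 * A ^ 2) (w * (A * B))) (max (A ^ 2 * B ^ 2) (v t)) := by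
  have hw0 : 0 < w := lt_of_lt_of_le hω hw
  obtain ⟨X₁, Z₁⟩ := p
  obtain ⟨X₂, Z₂⟩ := q
  simp only [N2, one_mul] at hp hq hA hB
  have hX1 : v X₁ ≤ 1 := by rw [← hp]; exact le_max_left _ _
  have hZ1 : v Z₁ ≤ 1 := by rw [← hp]; exact le_max_right _ _
  have hX2 : v X₂ ≤ 1 := by rw [← hq]; exact le_max_left _ _
  have hZ2 : v Z₂ ≤ 1 := by rw [← hq]; exact le_max_right _ _
  have hXA : v X₁ ≤ A := by rw [hA]; exact le_max_left _ _
  have hXB : v X₂ ≤ B := by rw [hB]; exact le_max_left _ _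
  have hA0 : 0 ≤ A := (v.nonneg _).trans hXA
  have hB0 : 0 ≤ B := (v.nonneg _).trans hXB
  have hs1 : v (X₁ * X₂) ≤ A * B := by
    rw [map_mul]
    exact mul_le_mul hXA hXB (v.nonneg _) hA0
  have hs1' : v (X₁ * X₂) ≤ 1 := by
    rw [map_mul]
    exact mul_le_one₀ hX1 (v.nonneg _) hX2
  have hs2 : v (X₁ * Z₂ + X₂ * Z₁) ≤ 1 := by
    apply na_add hv
    · rw [map_mul]
      exact mul_le_one₀ hX1 (v.nonneg _) hZ2
    · rw [map_mul]
      exact mul_le_one₀ hX2 (v.nonneg _) hZ1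
  have hs3 : v (Z₁ * Z₂) ≤ 1 := by
    rw [map_mul]
    exact mul_le_one₀ hZ1 (v.nonneg _) hZ2
  have hs4 : v (X₁ * Z₂ - X₂ * Z₁) ≤ A := by
    apply na_sub hv
    · rw [map_mul]
      exact (mul_le_of_le_one_right (v.nonneg _) hZ2).trans hXA
    · rw [map_mul]
      exact (mul_le_of_le_one_right (v.nonneg _) hZ1).trans (hXB.trans hBA)
  have hmul : ∀ {a b : K}, v b ≤ 1 → v (a * b) ≤ v a := by
    intro a b hb
    rw [map_mul]
    exact mul_le_of_le_one_right (v.nonneg _) hb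
  have h3 : (X₁ * Z₂ + X₂ * Z₁) ^ 2 - 4 * (X₁ * X₂) * (Z₁ * Z₂) = (X₁ * Z₂ - X₂ * Z₁) ^ 2 := by ring
  rw [asm_Et]
  simp only [N3, sym]
  rw [h3]
  generalize X₁ * X₂ = a at *
  generalize X₁ * Z₂ + X₂ * Z₁ = b at *
  generalize Z₁ * Z₂ = c at *
  generalize X₁ * Z₂ - X₂ * Z₁ = d at *
  have hct : ∀ (n : ℕ) [n.AtLeastTwo] (x y : K), v x ≤ 1 → v y ≤ 1 →
      v (OfNat.ofNat n * t * x * y) ≤ v t := by
    intro n _ x y hx hy
    exact (hmul hy).trans ((hmul hx).trans (na_nat_mul hv n t))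
  refine max_le ?_ (max_le ?_ ?_)
  · refine le_max_of_le_right ?_
    have t1 : v (a ^ 2) ≤ A ^ 2 * B ^ 2 := by
      rw [map_pow, ← mul_pow]
      exact pow_le_pow_left₀ (v.nonneg _) hs1 2
    have t4 : v ((t + 1296 * t ^ 2) * c ^ 2) ≤ v t := by
      refine (hmul (by rw [map_pow]; exact pow_le_one₀ (v.nonneg _) hs3)).trans (na_add hv le_rfl ?_)
      refine (na_nat_mul hv 1296 (t ^ 2)).trans ?_
      rw [sq]
      exact hmul ht1.le
    exact na_add hv (na_add hv (na_add hv (le_max_of_le_left t1)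
      (le_max_of_le_right (hct 72 a c hs1' hs3))) (le_max_of_le_right (hct 4 b c hs2 hs3)))
      (le_max_of_le_right t4)
  · have t1 : v (a * (2 * b + c)) ≤ A * B := by
      refine (hmul ?_).trans hs1
      exact na_add hv ((na_nat_mul hv 2 b).trans hs2) hs3
    have t3 : v (4 * t * c ^ 2) ≤ v t := by
      refine (hmul (by rw [map_pow]; exact pow_le_one₀ (v.nonneg _) hs3)).trans (na_nat_mul hv 4 t)
    have h := na_sub hv (na_sub hv (le_max_of_le_left t1)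
      (le_max_of_le_right (hct 72 b c hs2 hs3))) (le_max_of_le_right t3)
    rcases le_max_iff.1 h with h | h
    · exact le_max_of_le_left (le_max_of_le_right (mul_le_mul_of_nonneg_left h hw0.le))
    · refine le_max_of_le_right (le_max_of_le_right ?_)
      exact (mul_le_mul_of_nonneg_left h hw0.le).trans (mul_le_of_le_one_left (v.nonneg _) hw1)
  · refine le_max_of_le_left (le_max_of_le_left ?_)
    rw [map_pow]
    exact mul_le_mul_of_nonneg_left (pow_le_pow_left₀ (v.nonneg _) hs4 2) (by positivity)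

end Pool.Agent.Lib.H90L
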