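import Pool.Agent.Lib.H90L.G1

/-!
# H90L, A5
-/

set_option autoImplicit false

namespace Pool.Agent.Lib.H90L

open Pool.Agent.H38LS

universe u

/-- (A5). PROOF. If `|x| ≥ 1` then `al = 0`; so `|x| < 1`, `N_1 (x, 1) = 1`, `al = - log (max |x| ω)`; `al < L/2 = - log ω` gives `|x| > ω`,
so `al = - log |x|`, `|x|^2 > |t|` (`sq_exp`). In `dupZ_Et` with `Z = 1` the term `x^2` dominates: `|4 x^3| ≤ |x|^3 < |x|^2`,
`|144 t x|, |4 t| ≤ |t| < |x|^2`. -/
theorem A5 : Spec.A5.{u} := by
  intro K _ v hv t ht ht1 L hL x h0 h1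
  have hLpos : 0 < L := by
    rw [hL]
    have := Real.log_neg ht ht1
    linarith
  set ω : ℝ := Real.exp (-(L / 2)) with hω
  have hω0 : 0 < ω := Real.exp_pos _
  have hω1 : ω ≤ 1 := a0_exp_le hLpos.le
  have hωt : ω ^ 2 = v t := sq_exp ht hL
  have e1 : N2 v 1 (x, (1 : K)) = max (v x) 1 := by
    unfold N2
    simp only [map_one, mul_one]
  have e2 : N2 v ω (x, (1 : K)) = max (v x) ω := by
    unfold N2
    simp only [map_one, mul_one]
  have e3 : al v L (x, (1 : K)) = Real.log (max (v x) 1 / max (v x) ω) := by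
    unfold al
    rw [e1, e2]
  have hx1 : v x < 1 := by
    by_contra hcon
    rw [not_lt] at hcon
    rw [e3, max_eq_left hcon, max_eq_left (hω1.trans hcon), div_self (by linarith),
      Real.log_one] at h0
    exact lt_irrefl _ h0
  rw [max_eq_right hx1.le] at e3
  have hxω : ω < v x := by
    by_contra hcon
    rw [not_lt] at hcon
    rw [e3, max_eq_right hcon, one_div, Real.log_inv, hω, Real.log_exp, neg_neg] at h1
    exact lt_irrefl _ h1
  have hx0 : 0 < v x := hω0.trans hxω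
  rw [max_eq_left hxω.le, one_div, Real.log_inv] at e3
  refine ⟨e3, ?_⟩
  have htx : v t < v x ^ 2 := by
    rw [← hωt]
    exact pow_lt_pow_left₀ hxω hω0.le (by norm_num)
  have hcube : v x ^ 3 < v x ^ 2 := by
    have h2 : v x ^ 3 = v x ^ 2 * v x := by ring
    have h3 : 0 < v x ^ 2 := by positivity
    rw [h2]
    nlinarith
  have h4 : v (4 * x ^ 3) < v x ^ 2 := by
    refine (na_nat_mul hv 4 (x ^ 3)).trans_lt ?_
    rw [map_pow]
    exact hcube
  have h5 : v (144 * (t * x)) < v x ^ 2 := by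
    refine (na_nat_mul hv 144 (t * x)).trans_lt ?_
    rw [map_mul]
    refine lt_of_le_of_lt ?_ htx
    exact mul_le_of_le_one_right ht.le hx1.le
  have h6 : v (4 * t) < v x ^ 2 := (na_nat_mul hv 4 t).trans_lt htx
  have e4 : dupZ (Et t) x 1 = x ^ 2 + (4 * x ^ 3 - 144 * (t * x) - 4 * t) := by
    rw [dupZ_Et]
    ring
  have h7 : v (4 * x ^ 3 - 144 * (t * x) - 4 * t) < v (x ^ 2) := by
    rw [map_pow]
    exact na_sub_lt hv (na_sub_lt hv h4 h5) h6
  rw [e4, na_eq hv h7, map_pow]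

end Pool.Agent.Lib.H90L
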