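import Pool.Agent.Lib.H90L.Base

/-!
# H90L, AV: arbitrary absolute values (all proved)
-/

set_option autoImplicit false

namespace Pool.Agent.Lib.H90L

open Pool.Agent.H38LS

universe u

variable {K : Type u} [Field K] (v : AbsoluteValue K ℝ)

theorem v_nat (n : ℕ) : v (n : K) ≤ n := by
  induction n with
  | zero => simp
  | succ n ih =>
    rw [Nat.cast_succ, Nat.cast_succ]
    exact (v.add_le _ _).trans (add_le_add ih (by rw [map_one]))

theorem v_ofNat (n : ℕ) [n.AtLeastTwo] : v (OfNat.ofNat n : K) ≤ OfNat.ofNat n := by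
  have := v_nat v (OfNat.ofNat n)
  rwa [Nat.cast_ofNat, Nat.cast_ofNat] at this

theorem v_ofNat_mul (n : ℕ) [n.AtLeastTwo] (x : K) : v (OfNat.ofNat n * x) ≤ OfNat.ofNat n * v x := by
  rw [map_mul]
  exact mul_le_mul_of_nonneg_right (v_ofNat v n) (v.nonneg _)

theorem v_add (x y : K) : v (x + y) ≤ v x + v y := v.add_le x y

theorem v_sub (x y : K) : v (x - y) ≤ v x + v y := by
  rw [sub_eq_add_neg]
  exact (v.add_le _ _).trans (by rw [v.map_neg])

/-- `|x| - |y| ≤ |x + y|`. -/
theorem v_sub_le (x y : K) : v x - v y ≤ v (x + y) := by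
  have h := v_sub v (x + y) y
  rw [add_sub_cancel_right] at h
  linarith

/-- `|x| - |y| ≤ |x - y|`. -/
theorem v_sub_le' (x y : K) : v x - v y ≤ v (x - y) := by
  have h := v_sub_le v x (-y)
  rwa [v.map_neg, ← sub_eq_add_neg] at h

end Pool.Agent.Lib.H90L
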