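import Pool.Agent.Lib.H90L.NA

/-!
# H90L, B0: short coordinates `X + (b₂ / 12) Z`
-/

set_option autoImplicit false

namespace Pool.Agent.Lib.H90L

open Pool.Agent.H38LS

universe u

variable {K : Type u} [Field K]

/-- The coefficient `A` of the short equation. -/
noncomputable def cA (W : WeierstrassCurve K) : K := -W.c₄ / 48

/-- The coefficient `B` of the short equation. -/
noncomputable def cB (W : WeierstrassCurve K) : K := -W.c₆ / 864

/-- The shifted point. -/
noncomputable def sh (W : WeierstrassCurve K) (p : K × K) : K × K := (p.1 + W.b₂ / 12 * p.2, p.2)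

/-- The shifted triple. -/
noncomputable def sh3 (W : WeierstrassCurve K) (s : K × K × K) : K × K × K :=
  (s.1 + W.b₂ / 12 * s.2.1 + (W.b₂ / 12) ^ 2 * s.2.2, s.2.1 + 2 * (W.b₂ / 12) * s.2.2, s.2.2)

/-- Duplication in short coordinates. -/
def dupS (A B : K) (p : K × K) : K × K :=
  (p.1 ^ 4 - 2 * A * p.1 ^ 2 * p.2 ^ 2 - 8 * B * p.1 * p.2 ^ 3 + A ^ 2 * p.2 ^ 4,
    4 * (p.1 ^ 3 * p.2 + A * p.1 * p.2 ^ 3 + B * p.2 ^ 4))

/-- Add and subtract in short coordinates. -/
def asmS (A B : K) (s : K × K × K) : K × K × K :=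
  (s.1 ^ 2 - 2 * A * s.1 * s.2.2 + A ^ 2 * s.2.2 ^ 2 - 4 * B * s.2.1 * s.2.2,
    2 * (s.2.1 * (s.1 + A * s.2.2) + 2 * B * s.2.2 ^ 2), s.2.1 ^ 2 - 4 * s.1 * s.2.2)

theorem b8_eq (h2 : (2 : K) ≠ 0) (W : WeierstrassCurve K) : W.b₈ = (W.b₂ * W.b₆ - W.b₄ ^ 2) / 4 := by
  have h4 : (4 : K) ≠ 0 := by
    have : (4 : K) = 2 * 2 := by norm_num
    rw [this]
    exact mul_ne_zero h2 h2
  rw [eq_div_iff h4]
  linear_combination W.b_relation

theorem sh_dup (h2 : (2 : K) ≠ 0) (h3 : (3 : K) ≠ 0) (W : WeierstrassCurve K) (p : K × K) :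
    sh W (dup W p) = dupS (cA W) (cB W) (sh W p) := by
  have h12 : (12 : K) ≠ 0 := by
    have : (12 : K) = 2 * 2 * 3 := by norm_num
    rw [this]
    exact mul_ne_zero (mul_ne_zero h2 h2) h3
  have h4 : (4 : K) ≠ 0 := by
    have : (4 : K) = 2 * 2 := by norm_num
    rw [this]
    exact mul_ne_zero h2 h2
  have h48 : (48 : K) ≠ 0 := by
    have : (48 : K) = 4 * 12 := by norm_num
    rw [this]
    exact mul_ne_zero h4 h12
  have h864 : (864 : K) ≠ 0 := by
    have : (864 : K) = 12 * 12 * (2 * 3) := by norm_num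
    rw [this]
    exact mul_ne_zero (mul_ne_zero h12 h12) (mul_ne_zero h2 h3)
  ext
  · simp only [sh, dup, dupX, dupZ, dupS, cA, cB, b8_eq h2 W, WeierstrassCurve.c₄, WeierstrassCurve.c₆]
    field_simp
    ring
  · simp only [sh, dup, dupX, dupZ, dupS, cA, cB, b8_eq h2 W, WeierstrassCurve.c₄, WeierstrassCurve.c₆]
    field_simp
    ring

theorem sh3_asm (h2 : (2 : K) ≠ 0) (h3 : (3 : K) ≠ 0) (W : WeierstrassCurve K) (s : K × K × K) :
    sh3 W (asm W s) = asmS (cA W) (cB W) (sh3 W s) := by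
  have h12 : (12 : K) ≠ 0 := by
    have : (12 : K) = 2 * 2 * 3 := by norm_num
    rw [this]
    exact mul_ne_zero (mul_ne_zero h2 h2) h3
  have h4 : (4 : K) ≠ 0 := by
    have : (4 : K) = 2 * 2 := by norm_num
    rw [this]
    exact mul_ne_zero h2 h2
  have h48 : (48 : K) ≠ 0 := by
    have : (48 : K) = 4 * 12 := by norm_num
    rw [this]
    exact mul_ne_zero h4 h12
  have h864 : (864 : K) ≠ 0 := by
    have : (864 : K) = 12 * 12 * (2 * 3) := by norm_num
    rw [this]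
    exact mul_ne_zero (mul_ne_zero h12 h12) (mul_ne_zero h2 h3)
  ext
  · simp only [sh3, asm, asmS, cA, cB, b8_eq h2 W, WeierstrassCurve.c₄, WeierstrassCurve.c₆]
    field_simp
    ring
  · simp only [sh3, asm, asmS, cA, cB, b8_eq h2 W, WeierstrassCurve.c₄, WeierstrassCurve.c₆]
    field_simp
    ring
  · simp only [sh3, asm, asmS]
    ring

theorem sh3_sym (W : WeierstrassCurve K) (p q : K × K) : sh3 W (sym p q) = sym (sh W p) (sh W q) := by
  ext
  · simp only [sh3, sym, sh]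
    ring
  · simp only [sh3, sym, sh]
    ring
  · simp only [sh3, sym, sh]

theorem sh3_smul (W : WeierstrassCurve K) (c : K) (s : K × K × K) : sh3 W (c • s) = c • sh3 W s := by
  ext
  · simp only [sh3, Prod.smul_fst, Prod.smul_snd, smul_eq_mul]
    ring
  · simp only [sh3, Prod.smul_fst, Prod.smul_snd, smul_eq_mul]
    ring
  · simp only [sh3, Prod.smul_fst, Prod.smul_snd, smul_eq_mul]

theorem sh_smul (W : WeierstrassCurve K) (c : K) (p : K × K) : sh W (c • p) = c • sh W p := by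
  ext
  · simp only [sh, Prod.smul_fst, Prod.smul_snd, smul_eq_mul]
    ring
  · simp only [sh, Prod.smul_snd]

theorem sh_ne (W : WeierstrassCurve K) {p : K × K} (hp : p ≠ 0) : sh W p ≠ 0 := by
  intro h
  have h1 : p.2 = 0 := congrArg Prod.snd h
  have h2 : p.1 + W.b₂ / 12 * p.2 = 0 := congrArg Prod.fst h
  rw [h1, mul_zero, add_zero] at h2
  exact hp (Prod.ext h2 h1)

/-- The discriminant. -/
theorem Δ_short (h2 : (2 : K) ≠ 0) (h3 : (3 : K) ≠ 0) (W : WeierstrassCurve K) :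
    W.Δ = -16 * (4 * cA W ^ 3 + 27 * cB W ^ 2) := by
  have h12 : (12 : K) ≠ 0 := by
    have : (12 : K) = 2 * 2 * 3 := by norm_num
    rw [this]
    exact mul_ne_zero (mul_ne_zero h2 h2) h3
  have h4 : (4 : K) ≠ 0 := by
    have : (4 : K) = 2 * 2 := by norm_num
    rw [this]
    exact mul_ne_zero h2 h2
  have h48 : (48 : K) ≠ 0 := by
    have : (48 : K) = 4 * 12 := by norm_num
    rw [this]
    exact mul_ne_zero h4 h12
  have h864 : (864 : K) ≠ 0 := by
    have : (864 : K) = 12 * 12 * (2 * 3) := by norm_num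
    rw [this]
    exact mul_ne_zero (mul_ne_zero h12 h12) (mul_ne_zero h2 h3)
  simp only [cA, cB, WeierstrassCurve.Δ, b8_eq h2 W, WeierstrassCurve.c₄, WeierstrassCurve.c₆]
  field_simp
  ring

/-- The resultant identity. -/
theorem dupS_res (A B X Z : K) : (12 * X ^ 2 * Z + 16 * A * Z ^ 3) * (dupS A B (X, Z)).1 -
    (3 * X ^ 3 - 5 * A * X * Z ^ 2 - 27 * B * Z ^ 3) * (dupS A B (X, Z)).2 = 4 * (4 * A ^ 3 + 27 * B ^ 2) * Z ^ 7 := by
  simp only [dupS]
  ring

theorem dupZ_eq (W : WeierstrassCurve K) (p : K × K) : (sh W (dup W p)).2 = dupZ W p.1 p.2 := rfl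

end Pool.Agent.Lib.H90L
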