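import Pool.Agent.Lib.H90L.B0

/-!
# H90L, B1b: nonarchimedean, `|6| = 1`, `|j| ≤ 1`
-/

set_option autoImplicit false

namespace Pool.Agent.Lib.H90L

open Pool.Agent.H38LS

universe u

variable {K : Type u} [Field K] {v : AbsoluteValue K ℝ}

private theorem B1b_num (h2 : v 2 = 1) (h3 : v 3 = 1) :
    v (48 : K) = 1 ∧ v (16 : K) = 1 ∧ v (4 : K) = 1 ∧ v (27 : K) = 1 := by
  refine ⟨?_, ?_, ?_, ?_⟩
  · have : (48 : K) = 2 ^ 4 * 3 := by norm_num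
    rw [this, map_mul, map_pow, h2, h3]
    norm_num
  · have : (16 : K) = 2 ^ 4 := by norm_num
    rw [this, map_pow, h2]
    norm_num
  · have : (4 : K) = 2 ^ 2 := by norm_num
    rw [this, map_pow, h2]
    norm_num
  · have : (27 : K) = 3 ^ 3 := by norm_num
    rw [this, map_pow, h3]
    norm_num

/-- PROOF. `|48| = |2|^4 |3| = 1`, so `|cA| = |c₄|`, and `|c₄|^3 ≤ |Δ| = d^6`. -/
theorem cA_le (h2 : v 2 = 1) (h3 : v 3 = 1) {W : WeierstrassCurve K} (hj : v W.c₄ ^ 3 ≤ v W.Δ) {d : ℝ} (hd : 0 < d)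
    (hd6 : d ^ 6 = v W.Δ) : v (cA W) ≤ d ^ 2 := by
  obtain ⟨h48, -, -, -⟩ := B1b_num h2 h3
  have h4 : v (cA W) = v W.c₄ := by
    rw [cA, map_div₀, v.map_neg, h48, div_one]
  rw [h4]
  refine le_of_pow_le_pow_left₀ (n := 3) (by norm_num) (by positivity) ?_
  calc v W.c₄ ^ 3 ≤ v W.Δ := hj
    _ = (d ^ 2) ^ 3 := by
      rw [← hd6]
      ring

/-- PROOF. `Δ_short`, `|16| = 1`. (`v 2 = 1` gives `2 ≠ 0`.) -/
theorem disc_abs (h2 : v 2 = 1) (h3 : v 3 = 1) {W : WeierstrassCurve K} {d : ℝ}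
    (hd6 : d ^ 6 = v W.Δ) : v (4 * cA W ^ 3 + 27 * cB W ^ 2) = d ^ 6 := by
  obtain ⟨-, h16, -, -⟩ := B1b_num h2 h3
  have h20 : (2 : K) ≠ 0 := by
    intro h0
    rw [h0, map_zero] at h2
    exact zero_ne_one h2
  have h30 : (3 : K) ≠ 0 := by
    intro h0
    rw [h0, map_zero] at h3
    exact zero_ne_one h3
  rw [hd6, Δ_short h20 h30 W, neg_mul, v.map_neg, map_mul, h16, one_mul]

/-- PROOF. `27 cB² = (4 cA³ + 27 cB²) - 4 cA³` has absolute value at most `d^6` (`disc_abs`, `cA_le`), and `|27| = 1`. -/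
theorem cB_le (hv : IsNonarchimedean v) (h2 : v 2 = 1) (h3 : v 3 = 1) {W : WeierstrassCurve K} (hj : v W.c₄ ^ 3 ≤ v W.Δ)
    {d : ℝ} (hd : 0 < d) (hd6 : d ^ 6 = v W.Δ) : v (cB W) ≤ d ^ 3 := by
  obtain ⟨-, -, h4, h27⟩ := B1b_num h2 h3
  have hA := cA_le h2 h3 hj hd hd6
  have hD := disc_abs h2 h3 hd6
  refine le_of_pow_le_pow_left₀ (n := 2) (by norm_num) (by positivity) ?_
  have h5 : v (cB W) ^ 2 = v (4 * cA W ^ 3 + 27 * cB W ^ 2 + -(4 * cA W ^ 3)) := by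
    have h6 : 4 * cA W ^ 3 + 27 * cB W ^ 2 + -(4 * cA W ^ 3) = 27 * cB W ^ 2 := by ring
    rw [h6, map_mul, map_pow, h27, one_mul]
  rw [h5]
  refine (hv _ _).trans (max_le ?_ ?_)
  · rw [hD]
    exact le_of_eq (by ring)
  · rw [v.map_neg, map_mul, map_pow, h4, one_mul]
    calc v (cA W) ^ 3 ≤ (d ^ 2) ^ 3 := pow_le_pow_left₀ (v.nonneg _) hA 3
      _ = (d ^ 3) ^ 2 := by ring

end Pool.Agent.Lib.H90L
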