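import Pool.Agent.Lib.H90L.B0

/-!
# H90L, B1c: `dup_Md`
-/

set_option autoImplicit false

namespace Pool.Agent.Lib.H90L

open Pool.Agent.H38LS

universe u

variable {K : Type u} [Field K] {v : AbsoluteValue K ℝ}

/-- PROOF. `p = (X, Z)`. If `|X| > d |Z|`: in `(dupS A B p).1` the term `X^4` dominates: `|2 A X² Z²| ≤ d² |Z|² |X|² < |X|^4` (or `= 0 < |X|^4` for
`Z = 0`), `|8 B X Z³| ≤ d³ |Z|³ |X|`, `|A² Z^4| ≤ d^4 |Z|^4`, all `< |X|^4 = N_d(p)^4`. If `|X| ≤ d |Z|`: `N_d p = d |Z|`; `Z = 0` is trivial; otherwise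
`dupS_res` gives `d^6 |Z|^7 ≤ max (|12 X² Z + 16 A Z³| |F|) (|3 X³ - 5 A X Z² - 27 B Z³| |G|) ≤ max (d² |Z|³ |F|) (d³ |Z|³ |G|) = d² |Z|³ max |F| (d |G|)`
with `(F, G) = dupS A B p`, i.e. `d^4 |Z|^4 ≤ N_d (F, G)`. (`|4| = 1`.) -/
theorem dup_Md (hv : IsNonarchimedean v) (h2 : v 2 = 1) {A B : K} {d : ℝ} (hd : 0 < d) (hA : v A ≤ d ^ 2)
    (hB : v B ≤ d ^ 3) (hD : v (4 * A ^ 3 + 27 * B ^ 2) = d ^ 6) (p : K × K) : N2 v d p ^ 4 ≤ N2 v d (dupS A B p) := by
  obtain ⟨X, Z⟩ := p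
  have hx0 : 0 ≤ v X := v.nonneg _
  have hZ0 : 0 ≤ v Z := v.nonneg _
  have hA0 : 0 ≤ v A := v.nonneg _
  have hB0 : 0 ≤ v B := v.nonneg _
  have hF : v (dupS A B (X, Z)).1 ≤ N2 v d (dupS A B (X, Z)) := le_max_left _ _
  have hG : d * v (dupS A B (X, Z)).2 ≤ N2 v d (dupS A B (X, Z)) := le_max_right _ _
  by_cases hcase : d * v Z < v X
  · have hN : N2 v d (X, Z) = v X := by
      unfold N2
      exact max_eq_left hcase.le
    have hz0 : 0 ≤ d * v Z := by positivity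
    have hx : 0 < v X := lt_of_le_of_lt hz0 hcase
    have p2 : (d * v Z) ^ 2 < v X ^ 2 := pow_lt_pow_left₀ hcase hz0 (by norm_num)
    have p3 : (d * v Z) ^ 3 < v X ^ 3 := pow_lt_pow_left₀ hcase hz0 (by norm_num)
    have p4 : (d * v Z) ^ 4 < v X ^ 4 := pow_lt_pow_left₀ hcase hz0 (by norm_num)
    have hFv : v (dupS A B (X, Z)).1 = v X ^ 4 := by
      have e : (dupS A B (X, Z)).1 = X ^ 4 + (-(2 * (A * X ^ 2 * Z ^ 2)) - 8 * (B * X * Z ^ 3) +
          A ^ 2 * Z ^ 4) := by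
        simp only [dupS]
        ring
      rw [e, na_eq hv, map_pow]
      rw [map_pow]
      refine na_add_lt hv (na_sub_lt hv ?_ ?_) ?_
      · rw [v.map_neg]
        refine lt_of_le_of_lt (na_nat_mul hv 2 _) ?_
        rw [map_mul, map_mul, map_pow, map_pow]
        calc v A * v X ^ 2 * v Z ^ 2 ≤ d ^ 2 * v X ^ 2 * v Z ^ 2 := by gcongr
          _ = (d * v Z) ^ 2 * v X ^ 2 := by ring
          _ < v X ^ 2 * v X ^ 2 := mul_lt_mul_of_pos_right p2 (by positivity)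
          _ = v X ^ 4 := by ring
      · refine lt_of_le_of_lt (na_nat_mul hv 8 _) ?_
        rw [map_mul, map_mul, map_pow]
        calc v B * v X * v Z ^ 3 ≤ d ^ 3 * v X * v Z ^ 3 := by gcongr
          _ = (d * v Z) ^ 3 * v X := by ring
          _ < v X ^ 3 * v X := mul_lt_mul_of_pos_right p3 hx
          _ = v X ^ 4 := by ring
      · rw [map_mul, map_pow, map_pow]
        calc v A ^ 2 * v Z ^ 4 ≤ (d ^ 2) ^ 2 * v Z ^ 4 := by gcongr
          _ = (d * v Z) ^ 4 := by ring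
          _ < v X ^ 4 := p4
    rw [hN, ← hFv]
    exact hF
  · push Not at hcase
    have hN : N2 v d (X, Z) = d * v Z := by
      unfold N2
      exact max_eq_right hcase
    rw [hN]
    rcases hZ0.lt_or_eq with hZ | hZ
    · have h4 : v (4 : K) = 1 := by
        have : (4 : K) = 2 * 2 := by norm_num
        rw [this, map_mul, h2, one_mul]
      have hres := dupS_res A B X Z
      have hv7 : v (4 * (4 * A ^ 3 + 27 * B ^ 2) * Z ^ 7) = d ^ 6 * v Z ^ 7 := by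
        rw [map_mul, map_mul, map_pow, hD, h4, one_mul]
      have c1 : v (12 * X ^ 2 * Z + 16 * A * Z ^ 3) ≤ d ^ 2 * v Z ^ 3 := by
        have e : 12 * X ^ 2 * Z + 16 * A * Z ^ 3 = 12 * (X ^ 2 * Z) + 16 * (A * Z ^ 3) := by ring
        rw [e]
        refine na_add hv ((na_nat_mul hv 12 _).trans ?_) ((na_nat_mul hv 16 _).trans ?_)
        · rw [map_mul, map_pow]
          calc v X ^ 2 * v Z ≤ (d * v Z) ^ 2 * v Z := by gcongr
            _ = d ^ 2 * v Z ^ 3 := by ring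
        · rw [map_mul, map_pow]
          gcongr
      have c2 : v (3 * X ^ 3 - 5 * A * X * Z ^ 2 - 27 * B * Z ^ 3) ≤ d ^ 3 * v Z ^ 3 := by
        have e : 3 * X ^ 3 - 5 * A * X * Z ^ 2 - 27 * B * Z ^ 3 =
            3 * X ^ 3 - 5 * (A * X * Z ^ 2) - 27 * (B * Z ^ 3) := by ring
        rw [e]
        refine na_sub hv (na_sub hv ((na_nat_mul hv 3 _).trans ?_) ((na_nat_mul hv 5 _).trans ?_))
          ((na_nat_mul hv 27 _).trans ?_)
        · rw [map_pow]
          calc v X ^ 3 ≤ (d * v Z) ^ 3 := by gcongr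
            _ = d ^ 3 * v Z ^ 3 := by ring
        · rw [map_mul, map_mul, map_pow]
          calc v A * v X * v Z ^ 2 ≤ d ^ 2 * (d * v Z) * v Z ^ 2 := by gcongr
            _ = d ^ 3 * v Z ^ 3 := by ring
        · rw [map_mul, map_pow]
          gcongr
      have hkey : d ^ 6 * v Z ^ 7 ≤ d ^ 2 * v Z ^ 3 * N2 v d (dupS A B (X, Z)) := by
        rw [← hv7, ← hres]
        refine na_sub hv ?_ ?_
        · rw [map_mul]
          exact mul_le_mul c1 hF (v.nonneg _) (by positivity)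
        · rw [map_mul]
          calc v (3 * X ^ 3 - 5 * A * X * Z ^ 2 - 27 * B * Z ^ 3) * v (dupS A B (X, Z)).2
              ≤ d ^ 3 * v Z ^ 3 * v (dupS A B (X, Z)).2 := mul_le_mul_of_nonneg_right c2 (v.nonneg _)
            _ = d ^ 2 * v Z ^ 3 * (d * v (dupS A B (X, Z)).2) := by ring
            _ ≤ d ^ 2 * v Z ^ 3 * N2 v d (dupS A B (X, Z)) :=
                mul_le_mul_of_nonneg_left hG (by positivity)
      have hpos : 0 < d ^ 2 * v Z ^ 3 := by positivity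
      refine le_of_mul_le_mul_left ?_ hpos
      calc d ^ 2 * v Z ^ 3 * (d * v Z) ^ 4 = d ^ 6 * v Z ^ 7 := by ring
        _ ≤ _ := hkey
    · rw [← hZ, mul_zero, zero_pow (by norm_num)]
      exact le_trans (v.nonneg _) hF

end Pool.Agent.Lib.H90L
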