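import Pool.Agent.Lib.H90L.B1a
import Pool.Agent.Lib.H90L.B1b
import Pool.Agent.Lib.H90L.B1c

/-!
# H90L, B1
-/

set_option autoImplicit false

namespace Pool.Agent.Lib.H90L

open Pool.Agent.H38LS

universe u

/-- (B1). PROOF. `iter_LB` with `c = 1` and `dup_Md` (`sh_dup`, `cA_le`, `cB_le`, `disc_abs`). `2 l + log |Δ| / 6 = log (max |x'| d) = log N_d (sh (x, 1))`
because `log |Δ| = 6 log d` and `log (m / d) = log m - log d`. -/
theorem B1 : Spec.B1.{u} := by
  intro K _ v hv h2 h3 W hW hj d hd hd6 x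
  have h2' : (2 : K) ≠ 0 := by
    intro h
    rw [h, map_zero] at h2
    exact zero_ne_one h2
  have h3' : (3 : K) ≠ 0 := by
    intro h
    rw [h, map_zero] at h3
    exact zero_ne_one h3
  have hp : ((x, 1) : K × K) ≠ 0 := by
    intro h
    exact one_ne_zero (congrArg Prod.snd h)
  refine iter_LB v W hd one_pos ?_ hp ?_
  · intro p
    rw [one_mul, sh_dup h2' h3' W p]
    exact dup_Md hv h2 hd (cA_le h2 h3 hj hd hd6) (cB_le hv h2 h3 hj hd hd6)
      (disc_abs h2 h3 hd6) (sh W p)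
  · have e1 : N2 v d (sh W (x, 1)) = max (v (x + W.b₂ / 12)) d := by
      simp only [N2, sh, mul_one, map_one]
    have hm : 0 < max (v (x + W.b₂ / 12)) d := lt_max_of_lt_right hd
    rw [e1, Real.log_div hm.ne' hd.ne', Real.log_one, ← hd6, Real.log_pow]
    push_cast
    linarith

end Pool.Agent.Lib.H90L
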