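import Pool.Agent.Lib.H90L.B0
import Pool.Agent.Lib.H90L.AV

/-!
# H90L, B1a: the iteration lemma (used by B1 and E1)
-/

set_option autoImplicit false

namespace Pool.Agent.Lib.H90L

open Pool.Agent.H38LS

universe u

variable {K : Type u} [Field K] (v : AbsoluteValue K ℝ)

/-- PROOF. `D = max (1 + |b₂ / 12|) d`: `|X + b₂/12 Z| ≤ |X| + |b₂/12| |Z|`. -/
theorem N2_sh_le (W : WeierstrassCurve K) {d : ℝ} (hd : 0 < d) :
    ∃ D : ℝ, 0 < D ∧ ∀ q : K × K, N2 v d (sh W q) ≤ D * N2 v 1 q := by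
  refine ⟨max (1 + v (W.b₂ / 12)) d, lt_max_of_lt_right hd, fun q => ?_⟩
  have hD0 : 0 ≤ max (1 + v (W.b₂ / 12)) d := hd.le.trans (le_max_right _ _)
  have h1 : v q.1 ≤ N2 v 1 q := le_max_left _ _
  have h2 : v q.2 ≤ N2 v 1 q := by
    have h3 := le_max_right (v q.1) (1 * v q.2)
    calc v q.2 = 1 * v q.2 := (one_mul _).symm
      _ ≤ _ := h3
  have h0 : 0 ≤ N2 v 1 q := N2_nonneg v q
  refine max_le ?_ ?_
  · have h3 : v (q.1 + W.b₂ / 12 * q.2) ≤ v q.1 + v (W.b₂ / 12) * v q.2 := by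
      refine (v_add v _ _).trans ?_
      rw [map_mul]
    have h4 : v (W.b₂ / 12) * v q.2 ≤ v (W.b₂ / 12) * N2 v 1 q :=
      mul_le_mul_of_nonneg_left h2 (v.nonneg _)
    have h5 : (1 + v (W.b₂ / 12)) * N2 v 1 q ≤ max (1 + v (W.b₂ / 12)) d * N2 v 1 q :=
      mul_le_mul_of_nonneg_right (le_max_left _ _) h0
    calc v (q.1 + W.b₂ / 12 * q.2) ≤ (1 + v (W.b₂ / 12)) * N2 v 1 q := by linarith
      _ ≤ _ := h5
  · exact mul_le_mul (le_max_right _ _) h2 (v.nonneg _) hD0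

/-- PROOF. Let `p_n = dup^n p`, `u n = log (N_d (sh p_n))`. All `p_n ≠ 0`: if `dup q = 0` with `q ≠ 0`, then `c * N_d (sh q)^4 ≤ 0`, but `sh q ≠ 0`
(`sh_ne`, `N2_pos`). The hypothesis gives `u (n+1) ≥ 4 u n + log c`, so `u n + log c / 3 ≥ 4^n (u 0 + log c / 3) ≥ 4^n (2 l + log |Δ| / 6)`.
Finally `log N_1 p_n ≥ u n - log D` by `N2_sh_le`. The constant is `log D + log c / 3`. -/
theorem iter_LB (W : WeierstrassCurve K) {d c : ℝ} (hd : 0 < d) (hc : 0 < c)
    (h : ∀ p : K × K, c * N2 v d (sh W p) ^ 4 ≤ N2 v d (sh W (dup W p))) {p : K × K} (hp : p ≠ 0) {l : ℝ}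
    (hl : 2 * l + Real.log (v W.Δ) / 6 ≤ Real.log (N2 v d (sh W p)) + Real.log c / 3) : LocLB v W p l := by
  obtain ⟨D, hD, hDq⟩ := N2_sh_le v W hd
  have hne : ∀ n : ℕ, (dup W)^[n] p ≠ 0 := by
    intro n
    induction n with
    | zero => exact hp
    | succ n ih =>
      rw [Function.iterate_succ_apply']
      intro h0
      have h1 := h ((dup W)^[n] p)
      rw [h0] at h1
      have h2 : N2 v d (sh W (0 : K × K)) = 0 := by
        simp [N2, sh]
      rw [h2] at h1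
      have h3 : 0 < N2 v d (sh W ((dup W)^[n] p)) := N2_pos v hd (sh_ne W ih)
      have h4 : 0 < c * N2 v d (sh W ((dup W)^[n] p)) ^ 4 := by positivity
      linarith
  have hpos : ∀ n : ℕ, 0 < N2 v d (sh W ((dup W)^[n] p)) := fun n =>
    N2_pos v hd (sh_ne W (hne n))
  have hstep : ∀ n : ℕ, 4 ^ n * (2 * l + Real.log (v W.Δ) / 6) ≤
      Real.log (N2 v d (sh W ((dup W)^[n] p))) + Real.log c / 3 := by
    intro n
    induction n with
    | zero =>
      rw [pow_zero, one_mul]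
      exact hl
    | succ n ih =>
      rw [Function.iterate_succ_apply']
      have h1 := Real.log_le_log (mul_pos hc (pow_pos (hpos n) 4)) (h ((dup W)^[n] p))
      rw [Real.log_mul hc.ne' (pow_pos (hpos n) 4).ne', Real.log_pow] at h1
      push_cast at h1
      have h2 : (4 : ℝ) ^ (n + 1) * (2 * l + Real.log (v W.Δ) / 6) =
          4 * (4 ^ n * (2 * l + Real.log (v W.Δ) / 6)) := by ring
      rw [h2]
      linarith
  refine ⟨Real.log D + Real.log c / 3, fun n => ?_⟩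
  have h1 := hDq ((dup W)^[n] p)
  have h2 : 0 < N2 v 1 ((dup W)^[n] p) := N2_pos v one_pos (hne n)
  have h3 := Real.log_le_log (hpos n) h1
  rw [Real.log_mul hD.ne' h2.ne'] at h3
  have h4 := hstep n
  linarith

end Pool.Agent.Lib.H90L
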