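import Pool.Agent.Lib.H90L.A2a
import Pool.Agent.Lib.H90L.B1b

/-!
# H90L, B2: the kernel of reduction is closed under sums and differences
-/

set_option autoImplicit false

namespace Pool.Agent.Lib.H90L

open Pool.Agent.H38LS

universe u

variable {K : Type u} [Field K] {v : AbsoluteValue K ℝ}

/-- PROOF. `s = sym r₁ r₂`. By `gauss` (weight `d`) `N_d r₁ N_d r₂ = N3_d s = |s.1| = |X₁| |X₂| > 0`, and `N_d r_i ≥ |X_i|`, so `d |Z_i| ≤ |X_i|`.
If `d |Z₁| = |X₁|`: for `d |Z₂| < |X₂|` we get `d |X₁ Z₂| < |X₁ X₂| = d |Z₁ X₂|`, so `d |s.2.1| = |s.1|`, a contradiction; for `d |Z₂| = |X₂|` we get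
`d² |Z₁ Z₂| = |s.1|`, a contradiction. Symmetric for `r₂` (`sym_comm`). -/
theorem ker_of_sym (hv : IsNonarchimedean v) {d : ℝ} (hd : 0 < d) {r₁ r₂ : K × K} (h1 : d * v (sym r₁ r₂).2.1 < v (sym r₁ r₂).1)
    (h2 : d ^ 2 * v (sym r₁ r₂).2.2 < v (sym r₁ r₂).1) : d * v r₁.2 < v r₁.1 ∧ d * v r₂.2 < v r₂.1 := by
  -- one side is enough, by symmetry
  have key : ∀ r₁ r₂ : K × K, d * v (sym r₁ r₂).2.1 < v (sym r₁ r₂).1 →
      d ^ 2 * v (sym r₁ r₂).2.2 < v (sym r₁ r₂).1 → d * v r₁.2 < v r₁.1 := by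
    intro r₁ r₂ h1 h2
    have hg := gauss (v := v) hv hd r₁ r₂
    have e3 : N3 v d (sym r₁ r₂) = v r₁.1 * v r₂.1 := by
      unfold N3
      rw [max_eq_left (max_le h1.le h2.le)]
      simp only [sym, map_mul]
    rw [e3] at hg
    have hpos : 0 < v r₁.1 * v r₂.1 := by
      have : 0 < v (sym r₁ r₂).1 := lt_of_le_of_lt (mul_nonneg hd.le (v.nonneg _)) h1
      simpa only [sym, map_mul] using this
    have hX1 : 0 < v r₁.1 := by
      rcases (v.nonneg r₁.1).lt_or_eq with h | h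
      · exact h
      · rw [← h, zero_mul] at hpos; exact absurd hpos (lt_irrefl _)
    have hX2 : 0 < v r₂.1 := by
      rcases (v.nonneg r₂.1).lt_or_eq with h | h
      · exact h
      · rw [← h, mul_zero] at hpos; exact absurd hpos (lt_irrefl _)
    have g1 : v r₁.1 ≤ N2 v d r₁ := le_max_left _ _
    have g2 : v r₂.1 ≤ N2 v d r₂ := le_max_left _ _
    have f1 : N2 v d r₁ ≤ v r₁.1 := by
      by_contra hcon
      rw [not_le] at hcon
      have : v r₁.1 * v r₂.1 < N2 v d r₁ * N2 v d r₂ := mul_lt_mul hcon g2 hX2 (hX1.le.trans g1)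
      linarith
    have f2 : N2 v d r₂ ≤ v r₂.1 := by
      by_contra hcon
      rw [not_le] at hcon
      have : v r₁.1 * v r₂.1 < N2 v d r₁ * N2 v d r₂ :=
        mul_lt_mul' g1 hcon hX2.le (hX1.trans_le g1)
      linarith
    have k1 : d * v r₁.2 ≤ v r₁.1 := (le_max_right _ _).trans f1
    have k2 : d * v r₂.2 ≤ v r₂.1 := (le_max_right _ _).trans f2
    refine lt_of_le_of_ne k1 fun heq => ?_
    rcases k2.lt_or_eq with hlt | heq2
    · have h3 : v (r₁.1 * r₂.2) < v (r₂.1 * r₁.2) := by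
        rw [map_mul, map_mul]
        have h4 : d * (v r₁.1 * v r₂.2) < d * (v r₂.1 * v r₁.2) := by
          calc d * (v r₁.1 * v r₂.2) = v r₁.1 * (d * v r₂.2) := by ring
            _ < v r₁.1 * v r₂.1 := mul_lt_mul_of_pos_left hlt hX1
            _ = d * v r₁.2 * v r₂.1 := by rw [heq]
            _ = d * (v r₂.1 * v r₁.2) := by ring
        exact lt_of_mul_lt_mul_left h4 hd.le
      have h5 : v (r₁.1 * r₂.2 + r₂.1 * r₁.2) = v (r₂.1 * r₁.2) := na_eq' hv h3
      have h6 : d * v (sym r₁ r₂).2.1 = v (sym r₁ r₂).1 := by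
        simp only [sym]
        rw [h5, map_mul, map_mul]
        calc d * (v r₂.1 * v r₁.2) = d * v r₁.2 * v r₂.1 := by ring
          _ = v r₁.1 * v r₂.1 := by rw [heq]
      linarith
    · have h6 : d ^ 2 * v (sym r₁ r₂).2.2 = v (sym r₁ r₂).1 := by
        simp only [sym, map_mul]
        calc d ^ 2 * (v r₁.2 * v r₂.2) = d * v r₁.2 * (d * v r₂.2) := by ring
          _ = v r₁.1 * v r₂.1 := by rw [heq, heq2]
      linarith
  refine ⟨key r₁ r₂ h1 h2, ?_⟩
  rw [sym_comm] at h1 h2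
  exact key r₂ r₁ h1 h2

/-- PROOF. `s = (X₁ X₂, X₁ Z₂ + X₂ Z₁, Z₁ Z₂)`; `d |Z_i| < |X_i|` gives `|X_i| > 0` and the two inequalities. -/
theorem sym_of_ker (hv : IsNonarchimedean v) {d : ℝ} (hd : 0 < d) {p q : K × K} (hp : d * v p.2 < v p.1) (hq : d * v q.2 < v q.1) :
    d * v (sym p q).2.1 < v (sym p q).1 ∧ d ^ 2 * v (sym p q).2.2 < v (sym p q).1 := by
  have hX1 : 0 < v p.1 := lt_of_le_of_lt (mul_nonneg hd.le (v.nonneg _)) hp
  have hX2 : 0 < v q.1 := lt_of_le_of_lt (mul_nonneg hd.le (v.nonneg _)) hq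
  have a1 : v p.1 * (d * v q.2) < v p.1 * v q.1 := mul_lt_mul_of_pos_left hq hX1
  have a2 : d * v p.2 * v q.1 < v p.1 * v q.1 := mul_lt_mul_of_pos_right hp hX2
  constructor
  · simp only [sym]
    have h1 : v (p.1 * q.2 + q.1 * p.2) < v p.1 * v q.1 / d := by
      refine na_add_lt hv ?_ ?_
      · rw [map_mul, lt_div_iff₀ hd]
        calc v p.1 * v q.2 * d = v p.1 * (d * v q.2) := by ring
          _ < _ := a1
      · rw [map_mul, lt_div_iff₀ hd]
        calc v q.1 * v p.2 * d = d * v p.2 * v q.1 := by ring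
          _ < _ := a2
    rw [lt_div_iff₀ hd] at h1
    rw [map_mul v p.1 q.1]
    calc d * v (p.1 * q.2 + q.1 * p.2) = v (p.1 * q.2 + q.1 * p.2) * d := mul_comm _ _
      _ < v p.1 * v q.1 := h1
  · simp only [sym, map_mul]
    calc d ^ 2 * (v p.2 * v q.2) = d * v p.2 * (d * v q.2) := by ring
      _ < v p.1 * v q.1 := mul_lt_mul'' hp hq (mul_nonneg hd.le (v.nonneg _))
          (mul_nonneg hd.le (v.nonneg _))

/-- PROOF. `m = |s.1| > 0`, `d |s.2.1| < m`, `d² |s.2.2| < m`. `|asm.1| = m²` (all other terms are `< m²`: `|2 A s₁ s₃| ≤ d² |s₃| m < m²`,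
`|A² s₃²| ≤ (d² |s₃|)² < m²`, `|4 B s₂ s₃| ≤ (d |s₂|) (d² |s₃|) < m²`), `d |asm.2| < m²`, `d² |asm.3| < m²` (the same estimates). Strict products:
`mul_lt_mul''` or `nlinarith`. -/
theorem asmS_ker (hv : IsNonarchimedean v) {A B : K} {d : ℝ} (hd : 0 < d) (hA : v A ≤ d ^ 2)
    (hB : v B ≤ d ^ 3) {s : K × K × K} (h1 : d * v s.2.1 < v s.1) (h2 : d ^ 2 * v s.2.2 < v s.1) :
    d * v (asmS A B s).2.1 < v (asmS A B s).1 ∧ d ^ 2 * v (asmS A B s).2.2 < v (asmS A B s).1 := by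
  obtain ⟨s1, s2, s3⟩ := s
  simp only at h1 h2
  set m := v s1 with hm
  set y := d * v s2 with hy
  set z := d ^ 2 * v s3 with hz
  have hy0 : 0 ≤ y := mul_nonneg hd.le (v.nonneg _)
  have hz0 : 0 ≤ z := mul_nonneg (by positivity) (v.nonneg _)
  have hm0 : 0 < m := lt_of_le_of_lt hy0 h1
  have n2 := na_ofNat hv 2
  have n4 := na_ofNat hv 4
  -- elementary products
  have p1 : z * m < m ^ 2 := by nlinarith
  have p2 : z * z < m ^ 2 := by nlinarith
  have p3 : y * z < m ^ 2 := by nlinarith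
  have p4 : y * m < m ^ 2 := by nlinarith
  have p5 : y * y < m ^ 2 := by nlinarith
  have hAd : v A * v s3 ≤ z := by
    rw [hz]
    exact mul_le_mul_of_nonneg_right hA (v.nonneg _)
  have t1 : v (2 * A * s1 * s3) < m ^ 2 := by
    have : v (2 * A * s1 * s3) = v 2 * (v A * v s3 * m) := by
      rw [map_mul, map_mul, map_mul]; ring
    rw [this]
    calc v 2 * (v A * v s3 * m) ≤ 1 * (z * m) := by
          refine mul_le_mul n2 (mul_le_mul_of_nonneg_right hAd hm0.le) ?_ zero_le_one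
          exact mul_nonneg (mul_nonneg (v.nonneg _) (v.nonneg _)) hm0.le
      _ < m ^ 2 := by rw [one_mul]; exact p1
  have t2 : v (A ^ 2 * s3 ^ 2) < m ^ 2 := by
    have : v (A ^ 2 * s3 ^ 2) = (v A * v s3) * (v A * v s3) := by
      rw [map_mul, map_pow, map_pow]; ring
    rw [this]
    calc (v A * v s3) * (v A * v s3) ≤ z * z :=
          mul_le_mul hAd hAd (mul_nonneg (v.nonneg _) (v.nonneg _)) hz0
      _ < m ^ 2 := p2
  have hBd : v B * (v s2 * v s3) ≤ y * z := by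
    calc v B * (v s2 * v s3) ≤ d ^ 3 * (v s2 * v s3) :=
          mul_le_mul_of_nonneg_right hB (mul_nonneg (v.nonneg _) (v.nonneg _))
      _ = y * z := by rw [hy, hz]; ring
  have t3 : v (4 * B * s2 * s3) < m ^ 2 := by
    have : v (4 * B * s2 * s3) = v 4 * (v B * (v s2 * v s3)) := by
      rw [map_mul, map_mul, map_mul]; ring
    rw [this]
    calc v 4 * (v B * (v s2 * v s3)) ≤ 1 * (y * z) := by
          refine mul_le_mul n4 hBd ?_ zero_le_one
          exact mul_nonneg (v.nonneg _) (mul_nonneg (v.nonneg _) (v.nonneg _))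
      _ < m ^ 2 := by rw [one_mul]; exact p3
  have e1 : v (asmS A B (s1, s2, s3)).1 = m ^ 2 := by
    simp only [asmS]
    have h0 : v (s1 ^ 2) = m ^ 2 := by rw [map_pow]
    have a1 : v (s1 ^ 2 - 2 * A * s1 * s3) = m ^ 2 := by
      rw [na_eq_sub hv (by rw [h0]; exact t1), h0]
    have a2 : v (s1 ^ 2 - 2 * A * s1 * s3 + A ^ 2 * s3 ^ 2) = m ^ 2 := by
      rw [na_eq hv (by rw [a1]; exact t2), a1]
    rw [na_eq_sub hv (by rw [a2]; exact t3), a2]
  have hdv : ∀ x : K, d * v x < m ^ 2 ↔ v x < m ^ 2 / d := fun x => by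
    rw [lt_div_iff₀ hd, mul_comm]
  have hdv2 : ∀ x : K, d ^ 2 * v x < m ^ 2 ↔ v x < m ^ 2 / d ^ 2 := fun x => by
    rw [lt_div_iff₀ (by positivity), mul_comm]
  rw [e1]
  constructor
  · simp only [asmS]
    have b1 : d * v (s2 * (s1 + A * s3)) < m ^ 2 := by
      have c1 : v (s1 + A * s3) ≤ m := by
        refine na_add hv le_rfl ?_
        rw [map_mul]
        exact hAd.trans h2.le
      rw [map_mul]
      calc d * (v s2 * v (s1 + A * s3)) = y * v (s1 + A * s3) := by rw [hy]; ring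
        _ ≤ y * m := mul_le_mul_of_nonneg_left c1 hy0
        _ < m ^ 2 := p4
    have b2 : d * v (2 * B * s3 ^ 2) < m ^ 2 := by
      have : v (2 * B * s3 ^ 2) = v 2 * (v B * (v s3 * v s3)) := by
        rw [map_mul, map_mul, map_pow]; ring
      rw [this]
      calc d * (v 2 * (v B * (v s3 * v s3))) ≤ d * (1 * (d ^ 3 * (v s3 * v s3))) := by
            refine mul_le_mul_of_nonneg_left (mul_le_mul n2 ?_ ?_ zero_le_one) hd.le
            · exact mul_le_mul_of_nonneg_right hB (mul_nonneg (v.nonneg _) (v.nonneg _))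
            · exact mul_nonneg (v.nonneg _) (mul_nonneg (v.nonneg _) (v.nonneg _))
        _ = z * z := by rw [hz]; ring
        _ < m ^ 2 := p2
    have b3 : d * v (s2 * (s1 + A * s3) + 2 * B * s3 ^ 2) < m ^ 2 := by
      rw [hdv] at b1 b2 ⊢
      exact na_add_lt hv b1 b2
    rw [map_mul]
    calc d * (v 2 * v (s2 * (s1 + A * s3) + 2 * B * s3 ^ 2))
        ≤ d * (1 * v (s2 * (s1 + A * s3) + 2 * B * s3 ^ 2)) :=
          mul_le_mul_of_nonneg_left (mul_le_mul_of_nonneg_right n2 (v.nonneg _)) hd.le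
      _ < m ^ 2 := by rw [one_mul]; exact b3
  · simp only [asmS]
    have b1 : d ^ 2 * v (s2 ^ 2) < m ^ 2 := by
      rw [map_pow]
      calc d ^ 2 * v s2 ^ 2 = y * y := by rw [hy]; ring
        _ < m ^ 2 := p5
    have b2 : d ^ 2 * v (4 * s1 * s3) < m ^ 2 := by
      have : v (4 * s1 * s3) = v 4 * (m * v s3) := by
        rw [map_mul, map_mul]; ring
      rw [this]
      calc d ^ 2 * (v 4 * (m * v s3)) ≤ d ^ 2 * (1 * (m * v s3)) := by
            refine mul_le_mul_of_nonneg_left (mul_le_mul_of_nonneg_right n4 ?_) (by positivity)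
            exact mul_nonneg hm0.le (v.nonneg _)
        _ = z * m := by rw [hz]; ring
        _ < m ^ 2 := p1
    rw [hdv2] at b1 b2 ⊢
    exact na_sub_lt hv b1 b2

/-- (B2). PROOF. `Ker v W d p` is `d |(sh p).2| < |(sh p).1|`. From `sym r₁ r₂ = l • asm W (sym p q)` and `sh3_sym`, `sh3_smul`, `sh3_asm`:
`sym (sh r₁) (sh r₂) = l • asmS A B (sym (sh p) (sh q))`; `sym_of_ker`, `asmS_ker`, scale by `l ≠ 0`, `ker_of_sym`. -/
theorem B2 : Spec.B2.{u} := by
  intro K _ v hv h2 h3 W hΔ hj d hd hd6 p q r₁ r₂ hAS hp hq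
  obtain ⟨-, -, -, -, l, hl, he⟩ := hAS
  have n2 : (2 : K) ≠ 0 := by
    intro h
    rw [h, map_zero] at h2
    exact zero_ne_one h2
  have n3 : (3 : K) ≠ 0 := by
    intro h
    rw [h, map_zero] at h3
    exact zero_ne_one h3
  have hA := cA_le h2 h3 hj hd hd6
  have hB := cB_le hv h2 h3 hj hd hd6
  have he2 : sym (sh W r₁) (sh W r₂) = l • asmS (cA W) (cB W) (sym (sh W p) (sh W q)) := by
    rw [← sh3_sym, he, sh3_smul, sh3_asm n2 n3, sh3_sym]
  have hp' : d * v (sh W p).2 < v (sh W p).1 := hp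
  have hq' : d * v (sh W q).2 < v (sh W q).1 := hq
  obtain ⟨a1, a2⟩ := sym_of_ker hv hd hp' hq'
  obtain ⟨b1, b2⟩ := asmS_ker hv hd hA hB a1 a2
  have hl0 : 0 < v l := v.pos hl
  have c1 : d * v (sym (sh W r₁) (sh W r₂)).2.1 < v (sym (sh W r₁) (sh W r₂)).1 := by
    rw [he2]
    simp only [Prod.smul_fst, Prod.smul_snd, smul_eq_mul, map_mul]
    calc d * (v l * v (asmS (cA W) (cB W) (sym (sh W p) (sh W q))).2.1)
        = v l * (d * v (asmS (cA W) (cB W) (sym (sh W p) (sh W q))).2.1) := by ring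
      _ < _ := mul_lt_mul_of_pos_left b1 hl0
  have c2 : d ^ 2 * v (sym (sh W r₁) (sh W r₂)).2.2 < v (sym (sh W r₁) (sh W r₂)).1 := by
    rw [he2]
    simp only [Prod.smul_fst, Prod.smul_snd, smul_eq_mul, map_mul]
    calc d ^ 2 * (v l * v (asmS (cA W) (cB W) (sym (sh W p) (sh W q))).2.2)
        = v l * (d ^ 2 * v (asmS (cA W) (cB W) (sym (sh W p) (sh W q))).2.2) := by ring
      _ < _ := mul_lt_mul_of_pos_left b2 hl0
  exact ker_of_sym hv hd c1 c2

end Pool.Agent.Lib.H90L
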