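import Pool.Agent.Lib.H90L.NA

/-!
# H90L, B3v: the value group
-/

set_option autoImplicit false

namespace Pool.Agent.Lib.H90L

open Pool.Agent.H38LS

universe u

variable {K : Type u} [Field K] {v : AbsoluteValue K ℝ}

/-- The value group. PROOF. `x = rho^m` (`x ≠ 0`, because `d > 0`). (i) `|ξ| = d`: `rho^(6 m) = d^6 = rho^(4 k)` with `|e| = rho^k`, `d³ = |e|²`, so
`3 m = 2 k`, `k = 3 n`, and `d^6 = rho^(12 n)`. (ii) `|A| = d²`: `|A|³ = rho^(3 m) = rho^(4 k)`, so `3 ∣ k` again. (`zpow_right_injective₀` or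
`zpow_right_inj₀` with `0 < rho`, `rho ≠ 1`; then `omega`.) -/
theorem value_group {rho : ℝ} (hrho : 1 < rho) (hval : ∀ a : K, a ≠ 0 → ∃ k : ℤ, v a = rho ^ k) {d : ℝ} (hd : 0 < d)
    (hd12 : ∀ k : ℤ, d ^ 6 ≠ rho ^ (12 * k)) {e : K} (he : v e ^ 2 = d ^ 3) :
    (∀ ξ : K, v ξ ≠ d) ∧ ∀ A : K, v A ≠ d ^ 2 := by
  have hr0 : (0 : ℝ) < rho := lt_trans one_pos hrho
  have hinj : ∀ a b : ℤ, rho ^ a = rho ^ b → a = b := fun a b hab =>
    zpow_right_injective₀ hr0 hrho.ne' hab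
  have he0 : e ≠ 0 := by
    intro h0
    rw [h0, map_zero] at he
    have : 0 < d ^ 3 := by positivity
    rw [← he] at this
    simp at this
  obtain ⟨k, hk⟩ := hval e he0
  have h1 : d ^ 3 = rho ^ (2 * k) := by
    rw [← he, hk, mul_comm 2 k, zpow_mul rho k 2]
    rfl
  have h6 : d ^ 6 = rho ^ (4 * k) := by
    have e1 : d ^ 6 = d ^ 3 * d ^ 3 := by ring
    rw [e1, h1, ← zpow_add₀ hr0.ne']
    congr 1
    ring
  constructor
  · intro ξ hξ
    have hξ0 : ξ ≠ 0 := by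
      intro h0
      rw [h0, map_zero] at hξ
      exact hd.ne hξ
    obtain ⟨m, hm⟩ := hval ξ hξ0
    have h2 : d ^ 3 = rho ^ (m * 3) := by
      rw [← hξ, hm, zpow_mul rho m 3]
      rfl
    have h3 := hinj _ _ (h1.symm.trans h2)
    obtain ⟨n, hn⟩ : ∃ n, k = 3 * n := ⟨k / 3, by omega⟩
    apply hd12 n
    rw [h6, hn]
    congr 1
    ring
  · intro A hA
    have hA0 : A ≠ 0 := by
      intro h0
      rw [h0, map_zero] at hA
      exact (by positivity : d ^ 2 ≠ 0) hA.symm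
    obtain ⟨m, hm⟩ := hval A hA0
    have h2 : d ^ 6 = rho ^ (m * 3) := by
      have e1 : d ^ 6 = (d ^ 2) ^ 3 := by ring
      rw [e1, ← hA, hm, zpow_mul rho m 3]
      rfl
    have h3 := hinj _ _ (h6.symm.trans h2)
    obtain ⟨n, hn⟩ : ∃ n, k = 3 * n := ⟨k / 3, by omega⟩
    apply hd12 n
    rw [h6, hn]
    congr 1
    ring

end Pool.Agent.Lib.H90L
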