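import Pool.Agent.Lib.H90L.B3a
import Pool.Agent.Lib.H90L.B3v
import Pool.Agent.Lib.H90L.B1c

/-!
# H90L, B3
-/

set_option autoImplicit false

namespace Pool.Agent.Lib.H90L

open Pool.Agent.H38LS

universe u

variable {K : Type u} [Field K]

/-- PROOF. `sym r₂ (1, 0) = (r₂.1, r₂.2, 0)` and `asm W (sym (x,1) (x,1)) = (dupX W x 1, dupZ W x 1, 0)` (`ring`). -/
theorem addSub_dup {W : WeierstrassCurve K} {x : K} {r₂ : K × K} (h : AddSub W (x, 1) (x, 1) r₂ (1, 0)) :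
    ∃ l : K, l ≠ 0 ∧ r₂ = l • dup W (x, 1) := by
  obtain ⟨-, -, -, -, l, hl, h⟩ := h
  refine ⟨l, hl, ?_⟩
  have h1 := congrArg Prod.fst h
  have h2 := congrArg (fun s : K × K × K => s.2.1) h
  simp only [sym, asm, Prod.smul_fst, Prod.smul_snd, smul_eq_mul] at h1 h2
  ext
  · simp only [dup, dupX, Prod.smul_fst, smul_eq_mul]
    linear_combination h1
  · simp only [dup, dupZ, Prod.smul_snd, smul_eq_mul]
    linear_combination h2

theorem b3_asmS_smul (A B c : K) (s : K × K × K) : asmS A B (c • s) = c ^ 2 • asmS A B s := by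
  ext
  · simp only [asmS, Prod.smul_fst, Prod.smul_snd, smul_eq_mul]
    ring
  · simp only [asmS, Prod.smul_fst, Prod.smul_snd, smul_eq_mul]
    ring
  · simp only [asmS, Prod.smul_fst, Prod.smul_snd, smul_eq_mul]
    ring

/-- (B3). PROOF. Let `ξ = x + b₂/12`, `A = cA W`, `B = cB W`; suppose `(x, 1)` is not in `Ker`: `|ξ| ≤ d` and `N_d (ξ, 1) = d`. By `addSub_dup` and `sh_dup`,
`sh r₂ = l • (F, G)`, `(F, G) = dupS A B (ξ, 1)`, `G = e²` (`dupZ_eq`).
(I) `|e|² ≠ d³`: `G = 4 (ξ³ + A ξ + B)` has `|G| ≤ d³`, so `|G| < d³`; by `dup_Md` `d^4 ≤ max |F| (d |G|)`, so `|F| ≥ d^4 > d |G|`: `r₂ ∈ Ker`.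
(II) `|e|² = d³`: by `value_group` (`d^6 = |Δ|`) `|ξ| < d`, `|A| < d²`; `|B| = d³` (`cB_eq`, `disc_abs`); `dupS_small`: `|F| < d^4`, `|G| = d³`. With `f = F / G`,
`|f| < d`, `sh r₂ = (l G) • (f, 1)`, `sym (sh r₂) (ξ, 1) = (l G) • (f ξ, f + ξ, 1)`, so (`asmS` is homogeneous of degree 2; `sh3_asm`, `sh3_sym`, `sh3_smul`)
`sym (sh r₃) (ξ, 1) = (l' (l G)²) • asmS A B (f ξ, f + ξ, 1)`; `asmS_small` and `ker_of_sym_one`: `r₃ ∈ Ker`. -/
theorem B3 : Spec.B3.{u} := by
  intro K _ v hv h2 h3 rho hrho hval W hΔ hj h12 d hd hd6 x e he r₂ r₃ hr₂ hr₃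
  have h2K : (2 : K) ≠ 0 := by
    intro h
    rw [h, map_zero] at h2
    exact zero_ne_one h2
  have h3K : (3 : K) ≠ 0 := by
    intro h
    rw [h, map_zero] at h3
    exact zero_ne_one h3
  by_cases hx : Spec.Ker v W d (x, 1)
  · exact Or.inl hx
  right
  have hA := cA_le h2 h3 hj hd hd6
  have hB := cB_le hv h2 h3 hj hd hd6
  have hD := disc_abs h2 h3 hd6
  obtain ⟨ξ, hξ⟩ : ∃ ξ : K, ξ = x + W.b₂ / 12 * 1 := ⟨_, rfl⟩
  have hsx : sh W (x, 1) = (ξ, 1) := by rw [sh, hξ]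
  have hξd : v ξ ≤ d := by
    unfold Spec.Ker at hx
    rw [not_lt] at hx
    rw [hξ]
    refine hx.trans ?_
    simp
  obtain ⟨l, hl, hr⟩ := addSub_dup hr₂
  have hsh : sh W r₂ = l • dupS (cA W) (cB W) (ξ, 1) := by
    rw [hr, sh_smul, sh_dup h2K h3K, hsx]
  have hG : (dupS (cA W) (cB W) (ξ, 1)).2 = e ^ 2 := by
    rw [← hsx, ← sh_dup h2K h3K, dupZ_eq, ← he]
  have hNd : N2 v d (ξ, 1) = d := by
    unfold N2
    rw [map_one, mul_one, max_eq_right hξd]
  have hMd := dup_Md hv h2 hd hA hB hD (ξ, 1)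
  rw [hNd] at hMd
  by_cases hE : v e ^ 2 = d ^ 3
  · -- case II
    right
    have h12' : ∀ k : ℤ, d ^ 6 ≠ rho ^ (12 * k) := by
      intro k
      rw [hd6]
      exact h12 k
    obtain ⟨hvg1, hvg2⟩ := value_group hrho hval hd h12' hE
    have hξlt : v ξ < d := lt_of_le_of_ne hξd (hvg1 ξ)
    have hAlt : v (cA W) < d ^ 2 := lt_of_le_of_ne hA (hvg2 _)
    have hBeq := cB_eq hv h3 hd hAlt hD
    obtain ⟨hF, hG3⟩ := dupS_small hv h2 hd hAlt hBeq hξlt
    obtain ⟨F, hFd⟩ : ∃ F, F = (dupS (cA W) (cB W) (ξ, 1)).1 := ⟨_, rfl⟩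
    obtain ⟨G, hGd⟩ : ∃ G, G = (dupS (cA W) (cB W) (ξ, 1)).2 := ⟨_, rfl⟩
    rw [← hFd] at hF
    rw [← hGd] at hG3
    have hG0 : G ≠ 0 := by
      intro h
      rw [h, map_zero] at hG3
      exact (pow_pos hd 3).ne hG3
    have hf : v (F / G) < d := by
      rw [map_div₀, hG3, div_lt_iff₀ (pow_pos hd 3)]
      calc v F < d ^ 4 := hF
        _ = d * d ^ 3 := by ring
    have hsh2 : sh W r₂ = (l * G) • (F / G, 1) := by
      rw [hsh]
      ext
      · simp only [Prod.smul_fst, smul_eq_mul]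
        rw [← hFd]
        field_simp
      · simp only [Prod.smul_snd, smul_eq_mul]
        rw [← hGd, mul_one]
    obtain ⟨-, -, -, -, m, hm, hr3⟩ := hr₃
    have key : sym (sh W r₃) (ξ, 1) = (m * (l * G) ^ 2) • asmS (cA W) (cB W) (F / G * ξ, F / G + ξ, 1) := by
      have e1 := congrArg (sh3 W) hr3
      rw [sh3_sym, sh3_smul, sh3_asm h2K h3K, sh3_sym, hsx, hsh2] at e1
      rw [e1]
      have e2 : sym ((l * G) • ((F / G, 1) : K × K)) (ξ, 1) = (l * G) • ((F / G * ξ, F / G + ξ, 1) : K × K × K) := by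
        ext
        · simp only [sym, Prod.smul_fst, Prod.smul_snd, smul_eq_mul]
          ring
        · simp only [sym, Prod.smul_fst, Prod.smul_snd, smul_eq_mul]
          ring
        · simp only [sym, Prod.smul_snd, smul_eq_mul]
          ring
      rw [e2, b3_asmS_smul, smul_smul]
    have hs1 : v (F / G * ξ) < d ^ 2 := by
      rw [map_mul, pow_two]
      exact mul_lt_mul'' hf hξlt (v.nonneg _) (v.nonneg _)
    have hs2 : v (F / G + ξ) < d := na_add_lt hv hf hξlt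
    obtain ⟨ha, ha'⟩ := asmS_small hv h2 hd hAlt hBeq hs1 hs2
    have hfin := ker_of_sym_one hv hd (mul_ne_zero hm (pow_ne_zero 2 (mul_ne_zero hl hG0))) hξlt key ha ha'
    exact hfin
  · -- case I
    left
    have hGle : v (e ^ 2) ≤ d ^ 3 := by
      rw [← hG]
      simp only [dupS]
      rw [map_mul]
      have h4 : v (4 : K) ≤ 1 := na_ofNat hv 4
      refine (mul_le_of_le_one_left (v.nonneg _) h4).trans ?_
      refine na_add hv (na_add hv ?_ ?_) ?_
      · rw [mul_one, map_pow]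
        exact pow_le_pow_left₀ (v.nonneg _) hξd 3
      · rw [one_pow, mul_one, map_mul, show d ^ 3 = d ^ 2 * d by ring]
        exact mul_le_mul hA hξd (v.nonneg _) (pow_pos hd 2).le
      · rw [one_pow, mul_one]
        exact hB
    have hGlt : v (e ^ 2) < d ^ 3 := by
      refine lt_of_le_of_ne hGle ?_
      rw [map_pow]
      exact hE
    have hFge : d ^ 4 ≤ v (dupS (cA W) (cB W) (ξ, 1)).1 := by
      unfold N2 at hMd
      rcases le_max_iff.1 hMd with h | h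
      · exact h
      · exfalso
        rw [hG] at h
        have : d * v (e ^ 2) < d * d ^ 3 := mul_lt_mul_of_pos_left hGlt hd
        have h5 : d * d ^ 3 = d ^ 4 := by ring
        linarith
    have hlt : d * v (dupS (cA W) (cB W) (ξ, 1)).2 < v (dupS (cA W) (cB W) (ξ, 1)).1 := by
      rw [hG]
      have : d * v (e ^ 2) < d * d ^ 3 := mul_lt_mul_of_pos_left hGlt hd
      have h5 : d * d ^ 3 = d ^ 4 := by ring
      linarith
    have hk : d * v (sh W r₂).2 < v (sh W r₂).1 := by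
      rw [hsh]
      simp only [Prod.smul_fst, Prod.smul_snd, smul_eq_mul, map_mul]
      rw [mul_left_comm]
      exact mul_lt_mul_of_pos_left hlt (v.pos hl)
    exact hk

end Pool.Agent.Lib.H90L
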