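import Pool.Agent.Lib.H90L.B1b

/-!
# H90L, B3a: estimates for B3
-/

set_option autoImplicit false

namespace Pool.Agent.Lib.H90L

open Pool.Agent.H38LS

universe u

variable {K : Type u} [Field K] {v : AbsoluteValue K ℝ}

/-- PROOF. `27 B² = (4 A³ + 27 B²) - 4 A³`, `|4 A³| < d^6`, so `|27 B²| = d^6` (`na_eq_sub`), `|27| = 1`, `|B|² = (d³)²`. -/
theorem cB_eq (hv : IsNonarchimedean v) (h3 : v 3 = 1) {A B : K} {d : ℝ} (hd : 0 < d) (hA : v A < d ^ 2)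
    (hD : v (4 * A ^ 3 + 27 * B ^ 2) = d ^ 6) : v B = d ^ 3 := by
  have h4 : v (4 * A ^ 3) < d ^ 6 := by
    calc v (4 * A ^ 3) ≤ v (A ^ 3) := na_nat_mul hv 4 _
      _ = v A ^ 3 := map_pow v A 3
      _ < (d ^ 2) ^ 3 := pow_lt_pow_left₀ hA (v.nonneg _) three_ne_zero
      _ = d ^ 6 := by ring
  have h5 : v (27 * B ^ 2) = d ^ 6 := by
    have e : 27 * B ^ 2 = (4 * A ^ 3 + 27 * B ^ 2) - 4 * A ^ 3 := by ring
    rw [e, na_eq_sub hv (by rw [hD]; exact h4), hD]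
  have h27 : v 27 = 1 := by
    have e : (27 : K) = 3 ^ 3 := by norm_num
    rw [e, map_pow, h3, one_pow]
  rw [map_mul, h27, one_mul, map_pow] at h5
  have h6 : v B ^ 2 = (d ^ 3) ^ 2 := by rw [h5]; ring
  exact (pow_left_inj₀ (v.nonneg _) (by positivity) two_ne_zero).mp h6

/-- PROOF. `F = ξ^4 - 2 A ξ² - 8 B ξ + A²`: every term is `< d^4`. `G = 4 (ξ³ + A ξ + B)`: `|ξ³|, |A ξ| < d³ = |B|`, `|4| = 1`. -/
theorem dupS_small (hv : IsNonarchimedean v) (h2 : v 2 = 1) {A B : K} {d : ℝ} (hd : 0 < d) (hA : v A < d ^ 2)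
    (hB : v B = d ^ 3) {ξ : K} (hξ : v ξ < d) : v (dupS A B (ξ, 1)).1 < d ^ 4 ∧ v (dupS A B (ξ, 1)).2 = d ^ 3 := by
  have hξ0 := v.nonneg ξ
  have hA0 := v.nonneg A
  have h4 : v 4 = 1 := by
    have e : (4 : K) = 2 ^ 2 := by norm_num
    rw [e, map_pow, h2, one_pow]
  have q1 : v (ξ ^ 4) < d ^ 4 := by
    rw [map_pow]
    exact pow_lt_pow_left₀ hξ hξ0 four_ne_zero
  have q2 : v (2 * A * ξ ^ 2 * 1 ^ 2) < d ^ 4 := by
    rw [one_pow, mul_one, mul_assoc]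
    calc v (2 * (A * ξ ^ 2)) ≤ v (A * ξ ^ 2) := na_nat_mul hv 2 _
      _ = v A * v ξ ^ 2 := by rw [map_mul, map_pow]
      _ ≤ v A * d ^ 2 := mul_le_mul_of_nonneg_left (pow_le_pow_left₀ hξ0 hξ.le 2) hA0
      _ < d ^ 2 * d ^ 2 := mul_lt_mul_of_pos_right hA (by positivity)
      _ = d ^ 4 := by ring
  have q3 : v (8 * B * ξ * 1 ^ 3) < d ^ 4 := by
    rw [one_pow, mul_one, mul_assoc]
    calc v (8 * (B * ξ)) ≤ v (B * ξ) := na_nat_mul hv 8 _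
      _ = d ^ 3 * v ξ := by rw [map_mul, hB]
      _ < d ^ 3 * d := mul_lt_mul_of_pos_left hξ (by positivity)
      _ = d ^ 4 := by ring
  have q4 : v (A ^ 2 * 1 ^ 4) < d ^ 4 := by
    rw [one_pow, mul_one, map_pow]
    calc v A ^ 2 < (d ^ 2) ^ 2 := pow_lt_pow_left₀ hA hA0 two_ne_zero
      _ = d ^ 4 := by ring
  constructor
  · exact na_add_lt hv (na_sub_lt hv (na_sub_lt hv q1 q2) q3) q4
  · show v (4 * (ξ ^ 3 * 1 + A * ξ * 1 ^ 3 + B * 1 ^ 4)) = d ^ 3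
    rw [map_mul, h4, one_mul]
    have r1 : v (ξ ^ 3 * 1) < d ^ 3 := by
      rw [mul_one, map_pow]
      exact pow_lt_pow_left₀ hξ hξ0 three_ne_zero
    have r2 : v (A * ξ * 1 ^ 3) < d ^ 3 := by
      rw [one_pow, mul_one, map_mul]
      calc v A * v ξ ≤ v A * d := mul_le_mul_of_nonneg_left hξ.le hA0
        _ < d ^ 2 * d := mul_lt_mul_of_pos_right hA hd
        _ = d ^ 3 := by ring
    have r3 : v (B * 1 ^ 4) = d ^ 3 := by rw [one_pow, mul_one, hB]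
    rw [na_eq' hv (by rw [r3]; exact na_add_lt hv r1 r2), r3]

/-- PROOF. `asm₂ = 2 (s₂ (s₁ + A) + 2 B)`: `|s₂ (s₁ + A)| < d³ = |2 B|`. `asm₃ = s₂² - 4 s₁`. -/
theorem asmS_small (hv : IsNonarchimedean v) (h2 : v 2 = 1) {A B : K} {d : ℝ} (hd : 0 < d) (hA : v A < d ^ 2)
    (hB : v B = d ^ 3) {s₁ s₂ : K} (h1 : v s₁ < d ^ 2) (hs : v s₂ < d) :
    v (asmS A B (s₁, s₂, 1)).2.1 = d ^ 3 ∧ v (asmS A B (s₁, s₂, 1)).2.2 < d ^ 2 := by
  have h4 : v (s₂ * (s₁ + A * 1)) < d ^ 3 := by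
    rw [mul_one, map_mul]
    calc v s₂ * v (s₁ + A) ≤ d * v (s₁ + A) := mul_le_mul_of_nonneg_right hs.le (v.nonneg _)
      _ < d * d ^ 2 := mul_lt_mul_of_pos_left (na_add_lt hv h1 hA) hd
      _ = d ^ 3 := by ring
  have h5 : v (2 * B * 1 ^ 2) = d ^ 3 := by
    rw [one_pow, mul_one, map_mul, h2, one_mul, hB]
  constructor
  · show v (2 * (s₂ * (s₁ + A * 1) + 2 * B * 1 ^ 2)) = d ^ 3
    rw [map_mul, h2, one_mul, na_eq' hv (by rw [h5]; exact h4), h5]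
  · show v (s₂ ^ 2 - 4 * s₁ * 1) < d ^ 2
    have q1 : v (s₂ ^ 2) < d ^ 2 := by
      rw [map_pow]
      exact pow_lt_pow_left₀ hs (v.nonneg _) two_ne_zero
    have q2 : v (4 * s₁ * 1) < d ^ 2 := by
      rw [mul_one]
      exact (na_nat_mul hv 4 _).trans_lt h1
    exact na_sub_lt hv q1 q2

/-- PROOF. `sym r (ξ, 1) = (r.1 ξ, r.1 + ξ r.2, r.2)`: `|r.2| = |m| |a.2.2| < |m| d²` and `|r.1 + ξ r.2| = |m| d³`, `|ξ r.2| < |m| d³`, so
`|r.1| = |m| d³ > d |r.2|`. -/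
theorem ker_of_sym_one (hv : IsNonarchimedean v) {d : ℝ} (hd : 0 < d) {ξ m : K} (hm : m ≠ 0) (hξ : v ξ < d) {r : K × K} {a : K × K × K}
    (h : sym r (ξ, 1) = m • a) (ha : v a.2.1 = d ^ 3) (ha' : v a.2.2 < d ^ 2) : d * v r.2 < v r.1 := by
  have e2 : r.1 * 1 + ξ * r.2 = m * a.2.1 := congrArg (fun t => t.2.1) h
  have e3 : r.2 * 1 = m * a.2.2 := congrArg (fun t => t.2.2) h
  have hm0 : 0 < v m := v.pos hm
  have q3 : v r.2 < v m * d ^ 2 := by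
    rw [mul_one] at e3
    rw [e3, map_mul]
    exact mul_lt_mul_of_pos_left ha' hm0
  have q2 : v (r.1 + ξ * r.2) = v m * d ^ 3 := by
    rw [mul_one] at e2
    rw [e2, map_mul, ha]
  have q4 : v (ξ * r.2) < v (r.1 + ξ * r.2) := by
    rw [q2, map_mul]
    calc v ξ * v r.2 ≤ v ξ * (v m * d ^ 2) := mul_le_mul_of_nonneg_left q3.le (v.nonneg _)
      _ < d * (v m * d ^ 2) := mul_lt_mul_of_pos_right hξ (by positivity)
      _ = v m * d ^ 3 := by ring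
  have q5 : v r.1 = v m * d ^ 3 := by
    have e : r.1 = (r.1 + ξ * r.2) - ξ * r.2 := by ring
    rw [e, na_eq_sub hv q4, q2]
  rw [q5]
  calc d * v r.2 < d * (v m * d ^ 2) := mul_lt_mul_of_pos_left q3 hd
    _ = v m * d ^ 3 := by ring

end Pool.Agent.Lib.H90L
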