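import Pool.Agent.Lib.H38LS.LocalSpec

/-!
# H90L, Base: elementary facts on `N2`, `N3`, `al`, `dup`, `asm`
-/

set_option autoImplicit false

namespace Pool.Agent.Lib.H90L

open Pool.Agent.H38LS

universe u

variable {K : Type u} [Field K] (v : AbsoluteValue K ℝ)

theorem N2_nonneg {w : ℝ} (p : K × K) : 0 ≤ N2 v w p := le_max_of_le_left (v.nonneg _)

theorem N2_pos {w : ℝ} (hw : 0 < w) {p : K × K} (hp : p ≠ 0) : 0 < N2 v w p := by
  unfold N2
  by_cases h : p.1 = 0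
  · have h2 : p.2 ≠ 0 := fun h2 => hp (Prod.ext h h2)
    exact lt_max_of_lt_right (mul_pos hw (v.pos h2))
  · exact lt_max_of_lt_left (v.pos h)

theorem N2_smul {w : ℝ} (c : K) (p : K × K) : N2 v w (c • p) = v c * N2 v w p := by
  unfold N2
  rw [mul_max_of_nonneg _ _ (v.nonneg c)]
  simp only [Prod.smul_fst, Prod.smul_snd, smul_eq_mul, map_mul]
  rw [mul_left_comm]

theorem N3_smul {w : ℝ} (c : K) (s : K × K × K) : N3 v w (c • s) = v c * N3 v w s := by
  unfold N3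
  rw [mul_max_of_nonneg _ _ (v.nonneg c), mul_max_of_nonneg _ _ (v.nonneg c)]
  simp only [Prod.smul_fst, Prod.smul_snd, smul_eq_mul, map_mul]
  rw [mul_left_comm w, mul_left_comm (w ^ 2)]

theorem al_smul {L : ℝ} {c : K} (hc : c ≠ 0) (p : K × K) : al v L (c • p) = al v L p := by
  unfold al
  rw [N2_smul, N2_smul, mul_div_mul_left _ _ (v.pos hc).ne']

theorem dup_smul (W : WeierstrassCurve K) (c : K) (p : K × K) : dup W (c • p) = c ^ 4 • dup W p := by
  ext
  · simp only [dup, dupX, Prod.smul_fst, Prod.smul_snd, smul_eq_mul]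
    ring
  · simp only [dup, dupZ, Prod.smul_fst, Prod.smul_snd, smul_eq_mul]
    ring

theorem sym_smul (c e : K) (p q : K × K) : sym (c • p) (e • q) = (c * e) • sym p q := by
  ext
  · simp only [sym, Prod.smul_fst, Prod.smul_snd, smul_eq_mul]
    ring
  · simp only [sym, Prod.smul_fst, Prod.smul_snd, smul_eq_mul]
    ring
  · simp only [sym, Prod.smul_fst, Prod.smul_snd, smul_eq_mul]
    ring

theorem asm_smul (W : WeierstrassCurve K) (c : K) (s : K × K × K) : asm W (c • s) = c ^ 2 • asm W s := by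
  ext
  · simp only [asm, Prod.smul_fst, Prod.smul_snd, smul_eq_mul]
    ring
  · simp only [asm, Prod.smul_fst, Prod.smul_snd, smul_eq_mul]
    ring
  · simp only [asm, Prod.smul_fst, Prod.smul_snd, smul_eq_mul]
    ring

theorem sym_comm (p q : K × K) : sym p q = sym q p := by
  ext
  · simp only [sym]
    ring
  · simp only [sym]
    ring
  · simp only [sym]
    ring

/-- A vector can be scaled to norm one. -/
theorem exists_norm {p : K × K} (hp : p ≠ 0) : ∃ c : K, c ≠ 0 ∧ N2 v 1 (c • p) = 1 := by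
  by_cases h : v p.2 ≤ v p.1
  · have h1 : p.1 ≠ 0 := by
      intro h1
      rw [h1, map_zero] at h
      exact hp (Prod.ext h1 ((v.eq_zero).1 (le_antisymm h (v.nonneg _))))
    refine ⟨p.1⁻¹, inv_ne_zero h1, ?_⟩
    rw [N2_smul, N2, one_mul, max_eq_left h, ← map_mul, inv_mul_cancel₀ h1, map_one]
  · rw [not_le] at h
    have h1 : p.2 ≠ 0 := by
      intro h1
      rw [h1, map_zero] at h
      exact absurd (v.nonneg p.1) (not_le.2 h)
    refine ⟨p.2⁻¹, inv_ne_zero h1, ?_⟩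
    rw [N2_smul, N2, one_mul, max_eq_right h.le, ← map_mul, inv_mul_cancel₀ h1, map_one]

theorem a0_exp_pos (L : ℝ) : 0 < Real.exp (-(L / 2)) := Real.exp_pos _

theorem a0_exp_le {L : ℝ} (hL : 0 ≤ L) : Real.exp (-(L / 2)) ≤ 1 := by
  rw [Real.exp_le_one_iff]
  linarith

/-- `N_w` is monotone in `w`. -/
theorem N2_mono {w w' : ℝ} (h : w ≤ w') (p : K × K) : N2 v w p ≤ N2 v w' p :=
  max_le_max le_rfl (mul_le_mul_of_nonneg_right h (v.nonneg _))

/-- `w N_1 ≤ N_w` for `w ≤ 1`. -/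
theorem mul_N2_le {w : ℝ} (hw : 0 ≤ w) (hw1 : w ≤ 1) (p : K × K) : w * N2 v 1 p ≤ N2 v w p := by
  unfold N2
  rw [mul_max_of_nonneg _ _ hw, one_mul]
  exact max_le_max (mul_le_of_le_one_left (v.nonneg _) hw1) le_rfl

theorem al_nonneg {L : ℝ} (hL : 0 ≤ L) {p : K × K} (hp : p ≠ 0) : 0 ≤ al v L p := by
  unfold al
  apply Real.log_nonneg
  rw [one_le_div (N2_pos v (a0_exp_pos L) hp)]
  exact N2_mono v (a0_exp_le hL) p

theorem al_le {L : ℝ} (hL : 0 ≤ L) {p : K × K} (hp : p ≠ 0) : al v L p ≤ L / 2 := by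
  unfold al
  have h1 := N2_pos v (a0_exp_pos L) hp
  have h2 := N2_pos v one_pos hp
  rw [Real.log_le_iff_le_exp (div_pos h2 h1), div_le_iff₀ h1]
  have h3 := mul_N2_le v (a0_exp_pos L).le (a0_exp_le hL) p
  have h4 : Real.exp (L / 2) * Real.exp (-(L / 2)) = 1 := by
    rw [← Real.exp_add, add_neg_cancel, Real.exp_zero]
  calc N2 v 1 p = Real.exp (L / 2) * (Real.exp (-(L / 2)) * N2 v 1 p) := by
        rw [← mul_assoc, h4, one_mul]
    _ ≤ Real.exp (L / 2) * N2 v (Real.exp (-(L / 2))) p :=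
        mul_le_mul_of_nonneg_left h3 (Real.exp_pos _).le

/-- (A0) -/
theorem A0 : Spec.A0.{u} := fun K _ v L p hL hp => ⟨al_nonneg v hL hp, al_le v hL hp⟩

/-- `N_w / N_1 = exp (- al)` for `w = exp (-L/2)`. -/
theorem N2_eq_exp_al (L : ℝ) {p : K × K} (hp : p ≠ 0) :
    N2 v (Real.exp (-(L / 2))) p = N2 v 1 p * Real.exp (-al v L p) := by
  have h1 := N2_pos v (a0_exp_pos L) hp
  have h2 := N2_pos v one_pos hp
  have h3 : Real.exp (-al v L p) = (N2 v 1 p / N2 v (Real.exp (-(L / 2))) p)⁻¹ := by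
    rw [Real.exp_neg, al, Real.exp_log (div_pos h2 h1)]
  rw [h3, inv_div, mul_div_cancel₀ _ h2.ne']

/-- `N_w = max (N_ω) (w N_1)` for `ω ≤ w ≤ 1`. -/
theorem N2_eq_max {w w' : ℝ} (hw : 0 ≤ w) (hww : w ≤ w') (hw1 : w' ≤ 1) (p : K × K) :
    N2 v w' p = max (N2 v w p) (w' * N2 v 1 p) := by
  apply le_antisymm
  · refine max_le ?_ ?_
    · exact (le_max_left _ _).trans (le_max_left _ _)
    · refine le_max_of_le_right (mul_le_mul_of_nonneg_left ?_ (hw.trans hww))
      unfold N2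
      rw [one_mul]
      exact le_max_right _ _
  · exact max_le (N2_mono v hww p) (mul_N2_le v (hw.trans hww) hw1 p)

/-- For `0 ≤ o ≤ L / 2`: `N_w = N_1 exp (- min al o)`, `w = exp (-o)`. -/
theorem N2_eq_exp_min {L o : ℝ} (ho : 0 ≤ o) (hoL : o ≤ L / 2) {p : K × K} (hp : p ≠ 0) :
    N2 v (Real.exp (-o)) p = N2 v 1 p * Real.exp (-min (al v L p) o) := by
  have h2 := N2_pos v one_pos hp
  have h3 : Real.exp (-(L / 2)) ≤ Real.exp (-o) := Real.exp_le_exp.2 (neg_le_neg hoL)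
  rw [N2_eq_max v (a0_exp_pos L).le h3 (Real.exp_le_one_iff.2 (neg_nonpos.2 ho)) p, N2_eq_exp_al v L hp,
    mul_comm (Real.exp (-o)), ← mul_max_of_nonneg _ _ h2.le]
  congr 1
  rcases le_total (al v L p) o with h | h
  · rw [min_eq_left h, max_eq_left (Real.exp_le_exp.2 (neg_le_neg h))]
  · rw [min_eq_right h, max_eq_right (Real.exp_le_exp.2 (neg_le_neg h))]

end Pool.Agent.Lib.H90L
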