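import Pool.Agent.Lib.H90L.NA

/-!
# H90L, G1: duplication on `E_t`, nonarchimedean, `|t| < 1` (exact)
-/

set_option autoImplicit false

namespace Pool.Agent.Lib.H90L

open Pool.Agent.H38LS

universe u

variable {K : Type u} [Field K] {v : AbsoluteValue K ℝ}

/-- `exp (-L/2)^2 = |t|`. -/
theorem sq_exp {t : K} (ht : 0 < v t) {L : ℝ} (hL : L = -Real.log (v t)) : Real.exp (-(L / 2)) ^ 2 = v t := by
  rw [← Real.exp_nat_mul]
  rw [hL]
  have : ((2 : ℕ) : ℝ) * -(-Real.log (v t) / 2) = Real.log (v t) := by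
    push_cast
    ring
  rw [this, Real.exp_log ht]

/-- The coordinates of `dup (Et t) (X, Z)`. -/
theorem dupX_Et (t X Z : K) : dupX (Et t) X Z = X ^ 4 + 72 * t * X ^ 2 * Z ^ 2 + 8 * t * X * Z ^ 3 + (t + 1296 * t ^ 2) * Z ^ 4 := by
  simp only [dupX, Et, WeierstrassCurve.b₄, WeierstrassCurve.b₆, WeierstrassCurve.b₈]
  ring

theorem dupZ_Et (t X Z : K) : dupZ (Et t) X Z = 4 * X ^ 3 * Z + X ^ 2 * Z ^ 2 - 144 * t * X * Z ^ 3 - 4 * t * Z ^ 4 := by
  simp only [dupZ, Et, WeierstrassCurve.b₂, WeierstrassCurve.b₄, WeierstrassCurve.b₆]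
  ring

private theorem g1_le4 {n s x y : ℝ} (_hn : 0 ≤ n) (hn1 : n ≤ 1) (hs : 0 ≤ s) (hx : 0 ≤ x)
    (hx1 : x ≤ 1) (hy : 0 ≤ y) (hy1 : y ≤ 1) : n * s * x * y ≤ s := by
  calc n * s * x * y ≤ 1 * s * 1 * 1 := by gcongr
    _ = s := by ring

private theorem g1_norm (hv : IsNonarchimedean v) {t : K} (ht : 0 < v t) (ht1 : v t < 1) {w : ℝ}
    (hw0 : 0 < w) (hw1 : w < 1) (hw : w ^ 2 = v t) {X Z : K} (hN : max (v X) (1 * v Z) = 1) :
    max (v (dupX (Et t) X Z)) (1 * v (dupZ (Et t) X Z)) = (max (v X) (w * v Z)) ^ 2 := by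
  rw [one_mul] at hN ⊢
  have ha0 : 0 ≤ v X := v.nonneg _
  have hb0 : 0 ≤ v Z := v.nonneg _
  have ha1 : v X ≤ 1 := by rw [← hN]; exact le_max_left _ _
  have hb1 : v Z ≤ 1 := by rw [← hN]; exact le_max_right _ _
  have n72 : v (72 : K) ≤ 1 := na_ofNat hv 72
  have n8 : v (8 : K) ≤ 1 := na_ofNat hv 8
  have n1296 : v (1296 : K) ≤ 1 := na_ofNat hv 1296
  have n4 : v (4 : K) ≤ 1 := na_ofNat hv 4
  have n144 : v (144 : K) ≤ 1 := na_ofNat hv 144
  have p72 : 0 ≤ v (72 : K) := v.nonneg _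
  have p8 : 0 ≤ v (8 : K) := v.nonneg _
  have p1296 : 0 ≤ v (1296 : K) := v.nonneg _
  have p4 : 0 ≤ v (4 : K) := v.nonneg _
  have p144 : 0 ≤ v (144 : K) := v.nonneg _
  -- bounds of all terms with a factor t
  have e1 : v (72 * t * X ^ 2 * Z ^ 2) ≤ v t := by
    simp only [map_mul, map_pow]
    exact g1_le4 p72 n72 ht.le (by positivity) (pow_le_one₀ ha0 ha1) (by positivity)
      (pow_le_one₀ hb0 hb1)
  have e2 : v (8 * t * X * Z ^ 3) ≤ v t := by
    simp only [map_mul, map_pow]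
    exact g1_le4 p8 n8 ht.le ha0 ha1 (by positivity) (pow_le_one₀ hb0 hb1)
  have e3 : v ((t + 1296 * t ^ 2) * Z ^ 4) ≤ v t := by
    have h1 : v (t + 1296 * t ^ 2) ≤ v t := by
      refine na_add hv le_rfl ?_
      simp only [map_mul, map_pow]
      calc v 1296 * v t ^ 2 ≤ 1 * v t ^ 2 := by gcongr
        _ = v t * v t := by ring
        _ ≤ v t * 1 := by gcongr
        _ = v t := by ring
    simp only [map_mul, map_pow] at h1 ⊢
    calc v (t + 1296 * t ^ 2) * v Z ^ 4 ≤ v t * 1 := by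
          have : v Z ^ 4 ≤ 1 := pow_le_one₀ hb0 hb1
          gcongr
      _ = v t := by ring
  have f3 : v (144 * t * X * Z ^ 3) ≤ v t := by
    simp only [map_mul, map_pow]
    exact g1_le4 p144 n144 ht.le ha0 ha1 (by positivity) (pow_le_one₀ hb0 hb1)
  have f4 : v (4 * t * Z ^ 4) ≤ v t := by
    simp only [map_mul, map_pow]
    calc v 4 * v t * v Z ^ 4 ≤ 1 * v t * 1 := by
          have : v Z ^ 4 ≤ 1 := pow_le_one₀ hb0 hb1
          gcongr
      _ = v t := by ring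
  have f1 : v (4 * X ^ 3 * Z) ≤ v X ^ 3 := by
    simp only [map_mul, map_pow]
    calc v 4 * v X ^ 3 * v Z ≤ 1 * v X ^ 3 * 1 := by gcongr
      _ = v X ^ 3 := by ring
  have f2 : v (X ^ 2 * Z ^ 2) ≤ v X ^ 2 := by
    simp only [map_mul, map_pow]
    calc v X ^ 2 * v Z ^ 2 ≤ v X ^ 2 * 1 := by
          have : v Z ^ 2 ≤ 1 := pow_le_one₀ hb0 hb1
          gcongr
      _ = v X ^ 2 := by ring
  have hX32 : v X ^ 3 ≤ v X ^ 2 := pow_le_pow_of_le_one ha0 ha1 (by norm_num)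
  have hX42 : v X ^ 4 ≤ v X ^ 2 := pow_le_pow_of_le_one ha0 ha1 (by norm_num)
  rw [dupX_Et, dupZ_Et]
  rcases lt_or_eq_of_le ha1 with hX | hX
  · -- |X| < 1, |Z| = 1
    have hZ : v Z = 1 := by
      rcases max_choice (v X) (v Z) with h | h
      · rw [h] at hN
        exact absurd hN hX.ne
      · rw [h] at hN
        exact hN
    rw [hZ, mul_one]
    rcases lt_or_ge w (v X) with hwX | hwX
    · -- w < |X|
      have htX : v t < v X ^ 2 := by
        rw [← hw]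
        exact pow_lt_pow_left₀ hwX hw0.le (by norm_num)
      have hXpos : 0 < v X := hw0.trans hwX
      have hX3 : v X ^ 3 < v X ^ 2 := pow_lt_pow_right_of_lt_one₀ hXpos hX (by norm_num)
      have g2 : v (X ^ 2 * Z ^ 2) = v X ^ 2 := by
        simp only [map_mul, map_pow, hZ]
        ring
      have hz : v (4 * X ^ 3 * Z + X ^ 2 * Z ^ 2 - 144 * t * X * Z ^ 3 - 4 * t * Z ^ 4) = v X ^ 2 := by
        have s1 : v (4 * X ^ 3 * Z + X ^ 2 * Z ^ 2) = v X ^ 2 := by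
          rw [na_eq' hv (by rw [g2]; exact f1.trans_lt hX3), g2]
        have s2 : v (4 * X ^ 3 * Z + X ^ 2 * Z ^ 2 - 144 * t * X * Z ^ 3) = v X ^ 2 := by
          rw [na_eq_sub hv (by rw [s1]; exact f3.trans_lt htX), s1]
        rw [na_eq_sub hv (by rw [s2]; exact f4.trans_lt htX), s2]
      have hx : v (X ^ 4 + 72 * t * X ^ 2 * Z ^ 2 + 8 * t * X * Z ^ 3 + (t + 1296 * t ^ 2) * Z ^ 4)
          ≤ v X ^ 2 := by
        refine na_add hv (na_add hv (na_add hv ?_ (e1.trans htX.le)) (e2.trans htX.le))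
          (e3.trans htX.le)
        rw [map_pow]
        exact hX42
      rw [hz, max_eq_right hx, max_eq_left hwX.le]
    · -- |X| ≤ w
      have hXt : v X ^ 2 ≤ v t := by
        rw [← hw]
        exact pow_le_pow_left₀ ha0 hwX 2
      have htt : v t * v t < v t := by
        calc v t * v t < v t * 1 := by gcongr
          _ = v t := by ring
      have hz : v (4 * X ^ 3 * Z + X ^ 2 * Z ^ 2 - 144 * t * X * Z ^ 3 - 4 * t * Z ^ 4) ≤ v t :=
        na_sub hv (na_sub hv (na_add hv (f1.trans (hX32.trans hXt)) (f2.trans hXt)) f3) f4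
      have k0 : v (X ^ 4) < v t := by
        rw [map_pow]
        calc v X ^ 4 = v X ^ 2 * v X ^ 2 := by ring
          _ ≤ v t * v t := by gcongr
          _ < v t := htt
      have k1 : v (72 * t * X ^ 2 * Z ^ 2) < v t := by
        simp only [map_mul, map_pow, hZ]
        calc v 72 * v t * v X ^ 2 * 1 ^ 2 ≤ 1 * v t * v t * 1 ^ 2 := by gcongr
          _ = v t * v t := by ring
          _ < v t := htt
      have k2 : v (8 * t * X * Z ^ 3) < v t := by
        simp only [map_mul, map_pow, hZ]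
        calc v 8 * v t * v X * 1 ^ 3 ≤ 1 * v t * w * 1 ^ 3 := by gcongr
          _ = v t * w := by ring
          _ < v t * 1 := by gcongr
          _ = v t := by ring
      have k3 : v ((t + 1296 * t ^ 2) * Z ^ 4) = v t := by
        rw [map_mul, map_pow, hZ, one_pow, mul_one]
        refine na_eq hv ?_
        rw [map_mul, map_pow]
        calc v 1296 * v t ^ 2 ≤ 1 * v t ^ 2 := by gcongr
          _ = v t * v t := by ring
          _ < v t := htt
      have hx : v (X ^ 4 + 72 * t * X ^ 2 * Z ^ 2 + 8 * t * X * Z ^ 3 + (t + 1296 * t ^ 2) * Z ^ 4)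
          = v t := by
        rw [na_eq' hv (by rw [k3]; exact na_add_lt hv (na_add_lt hv k0 k1) k2), k3]
      rw [hx, max_eq_left hz, max_eq_right hwX, hw]
  · -- |X| = 1
    have hR : max (v X) (w * v Z) = 1 := by
      rw [hX]
      refine max_eq_left ?_
      calc w * v Z ≤ 1 * 1 := by gcongr
        _ = 1 := by ring
    rw [hR, one_pow]
    have k0 : v (X ^ 4) = 1 := by rw [map_pow, hX, one_pow]
    have s1 : v (X ^ 4 + 72 * t * X ^ 2 * Z ^ 2) = 1 := by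
      rw [na_eq hv (by rw [k0]; exact e1.trans_lt ht1), k0]
    have s2 : v (X ^ 4 + 72 * t * X ^ 2 * Z ^ 2 + 8 * t * X * Z ^ 3) = 1 := by
      rw [na_eq hv (by rw [s1]; exact e2.trans_lt ht1), s1]
    have s3 : v (X ^ 4 + 72 * t * X ^ 2 * Z ^ 2 + 8 * t * X * Z ^ 3 + (t + 1296 * t ^ 2) * Z ^ 4)
        = 1 := by
      rw [na_eq hv (by rw [s2]; exact e3.trans_lt ht1), s2]
    rw [s3]
    refine max_eq_left ?_
    have q1 : v X ^ 3 ≤ 1 := pow_le_one₀ ha0 ha1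
    have q2 : v X ^ 2 ≤ 1 := pow_le_one₀ ha0 ha1
    exact na_sub hv (na_sub hv (na_add hv (f1.trans q1) (f2.trans q2)) (f3.trans ht1.le))
      (f4.trans ht1.le)

/-- PROOF. Both sides are homogeneous of degree 4 (`dup_smul`, `N2_smul`), so let `N_1 p = 1` (`exists_norm`), `p = (X, Z)`,
`ω = e^(-L/2)`, `ω² = |t|` (`sq_exp`). If `|X| = 1`: `N_ω p = 1`, `|dupX| = 1` (`X^4` dominates, the other terms have absolute value
`≤ |t| < 1`), `|dupZ| ≤ 1`. If `|X| < 1`: `|Z| = 1`, `N_ω p = max |X| ω`. If `|X| > ω`: `|dupZ| = |X|^2` (`X^2 Z^2` dominates: `|4 X^3 Z| ≤ |X|^3`,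
the rest `≤ |t| < |X|^2`), and `|dupX| ≤ max (|X|^4) |t| ≤ |X|^2`. If `|X| ≤ ω`: `|dupX| = |t|` (`t Z^4` dominates: `|X|^4 ≤ |t|^2`,
`|72 t X^2| ≤ |t|^2`, `|8 t X| ≤ |t| ω < |t|`, `|1296 t^2| ≤ |t|^2`), `|dupZ| ≤ max (|X|^2) |t| = |t|`. -/
theorem dup_N1 (hv : IsNonarchimedean v) {t : K} (ht : 0 < v t) (ht1 : v t < 1) {L : ℝ} (hL : L = -Real.log (v t))
    {p : K × K} (hp : p ≠ 0) :
    N2 v 1 (dup (Et t) p) = N2 v 1 p ^ 2 * N2 v (Real.exp (-(L / 2))) p ^ 2 := by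
  obtain ⟨c, hc, hN⟩ := exists_norm v hp
  have hLpos : 0 < L := by
    rw [hL]
    exact neg_pos.mpr (Real.log_neg ht ht1)
  have hw1 : Real.exp (-(L / 2)) < 1 := by
    rw [Real.exp_lt_one_iff]
    linarith
  have key : N2 v 1 (dup (Et t) (c • p)) = N2 v (Real.exp (-(L / 2))) (c • p) ^ 2 :=
    g1_norm hv ht ht1 (Real.exp_pos _) hw1 (sq_exp ht hL) hN
  rw [dup_smul, N2_smul, N2_smul, map_pow] at key
  rw [N2_smul] at hN
  have hc0 : 0 < v c := v.pos hc
  have hc4 : v c ^ 4 ≠ 0 := (pow_pos hc0 4).ne'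
  apply mul_left_cancel₀ hc4
  rw [key]
  calc (v c * N2 v (Real.exp (-(L / 2))) p) ^ 2
      = 1 ^ 2 * (v c * N2 v (Real.exp (-(L / 2))) p) ^ 2 := by ring
    _ = (v c * N2 v 1 p) ^ 2 * (v c * N2 v (Real.exp (-(L / 2))) p) ^ 2 := by rw [hN]
    _ = v c ^ 4 * (N2 v 1 p ^ 2 * N2 v (Real.exp (-(L / 2))) p ^ 2) := by ring

end Pool.Agent.Lib.H90L
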