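import Pool.Agent.Lib.H90L.AV
import Pool.Agent.Lib.H90L.G1

/-!
# H90L, D0: duplication on `E_t`, any absolute value, `|t|` small (approximate)

Notation: `p = (X, Z)`, `N_1 p = 1`, `A = N_ω p ∈ [ω, 1]`, `ω² = |t|`. The coordinates are in `G1` (`dupX_Et`, `dupZ_Et`). All integers `n` satisfy `|n| ≤ n` (`v_ofNat`).
-/

set_option autoImplicit false

namespace Pool.Agent.Lib.H90L

open Pool.Agent.H38LS

universe u

variable {K : Type u} [Field K] (v : AbsoluteValue K ℝ)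


private theorem D0_term (n : ℕ) [n.AtLeastTwo] (y : K) {r : ℝ} (hr : v y = r) : v (OfNat.ofNat n * y) ≤ OfNat.ofNat n * r := by
  rw [← hr]
  exact v_ofNat_mul v n y

private theorem D0_dupX_le (t X Z : K) : v (dupX (Et t) X Z - X ^ 4 - t * Z ^ 4) ≤
    72 * (v t * v X ^ 2 * v Z ^ 2) + 8 * (v t * v X * v Z ^ 3) + 1296 * (v t ^ 2 * v Z ^ 4) := by
  have e : dupX (Et t) X Z - X ^ 4 - t * Z ^ 4 =
      72 * (t * X ^ 2 * Z ^ 2) + 8 * (t * X * Z ^ 3) + 1296 * (t ^ 2 * Z ^ 4) := by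
    rw [dupX_Et]
    ring
  rw [e]
  refine (v_add v _ _).trans (add_le_add ((v_add v _ _).trans (add_le_add ?_ ?_)) ?_)
  · exact D0_term v 72 _ (by simp only [map_mul, map_pow])
  · exact D0_term v 8 _ (by simp only [map_mul, map_pow])
  · exact D0_term v 1296 _ (by simp only [map_mul, map_pow])

private theorem D0_dupZ_le (t X Z : K) : v (dupZ (Et t) X Z - X ^ 2 * Z ^ 2) ≤
    4 * (v X ^ 3 * v Z) + 144 * (v t * v X * v Z ^ 3) + 4 * (v t * v Z ^ 4) := by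
  have e : dupZ (Et t) X Z - X ^ 2 * Z ^ 2 =
      4 * (X ^ 3 * Z) - 144 * (t * X * Z ^ 3) - 4 * (t * Z ^ 4) := by
    rw [dupZ_Et]
    ring
  rw [e]
  refine (v_sub v _ _).trans (add_le_add ((v_sub v _ _).trans (add_le_add ?_ ?_)) ?_)
  · exact D0_term v 4 _ (by simp only [map_mul, map_pow])
  · exact D0_term v 144 _ (by simp only [map_mul, map_pow])
  · exact D0_term v 4 _ (by simp only [map_mul, map_pow])

/-- The data in real numbers. -/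
private theorem D0_data {t : K} {ω : ℝ} (hω : 0 < ω) (hωt : ω ^ 2 = v t) (ht1 : v t ≤ 1) {p : K × K} (hp : N2 v 1 p = 1) :
    v p.1 ≤ 1 ∧ v p.2 ≤ 1 ∧ (v p.1 = 1 ∨ v p.2 = 1) ∧ v p.1 ≤ N2 v ω p ∧ ω ≤ N2 v ω p ∧ N2 v ω p ≤ 1 ∧ ω ≤ 1 ∧
    (N2 v ω p = v p.1 ∨ N2 v ω p ≤ ω) := by
  have hω1 : ω ≤ 1 := by
    by_contra h
    rw [not_le] at h
    nlinarith
  have h1 : v p.1 ≤ 1 := by
    rw [← hp]
    exact le_max_left _ _
  have h2 : v p.2 ≤ 1 := by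
    rw [← hp, N2, one_mul]
    exact le_max_right _ _
  have h3 : v p.1 = 1 ∨ v p.2 = 1 := by
    rw [N2, one_mul] at hp
    rcases max_choice (v p.1) (v p.2) with h | h
    · left
      rw [← h]
      exact hp
    · right
      rw [← h]
      exact hp
  have h4 : ω ≤ N2 v ω p := by
    have := mul_N2_le v hω.le hω1 p
    rwa [hp, mul_one] at this
  refine ⟨h1, h2, h3, le_max_left _ _, h4, ?_, hω1, ?_⟩
  · exact max_le h1 (by nlinarith [v.nonneg p.2])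
  · rcases max_choice (v p.1) (ω * v p.2) with h | h
    · left
      exact h
    · right
      rw [N2, h]
      nlinarith [v.nonneg p.2]

/-- PROOF. `|X| ≤ A`, `|X|, |Z| ≤ 1`, `|t| = ω² ≤ A²` (`ω = ω N_1 p ≤ N_ω p`, `mul_N2_le`). `|dupX| ≤ |X|^4 + |t| (72 + 8 + 1 + 1296) ≤ 1378 A²`,
`|dupZ| ≤ 4 |X|³ + |X|² + 148 |t| ≤ 153 A²`. -/
theorem dup_le {t : K} (ht1 : v t ≤ 1) {ω : ℝ} (hω : 0 < ω) (hωt : ω ^ 2 = v t) {p : K × K} (hp : N2 v 1 p = 1) :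
    N2 v 1 (dup (Et t) p) ≤ 2000 * N2 v ω p ^ 2 := by
  obtain ⟨ha1, hb1, -, haA, hωA, hA1, hω1, -⟩ := D0_data v hω hωt ht1 hp
  have hX := D0_dupX_le v t p.1 p.2
  have hZ := D0_dupZ_le v t p.1 p.2
  set A := N2 v ω p with hA
  have ha0 : 0 ≤ v p.1 := v.nonneg _
  have hb0 : 0 ≤ v p.2 := v.nonneg _
  have hT0 : 0 ≤ v t := v.nonneg _
  have hTA : v t ≤ A ^ 2 := by
    rw [← hωt]
    exact pow_le_pow_left₀ hω.le hωA 2
  have haA2 : v p.1 ^ 2 ≤ A ^ 2 := pow_le_pow_left₀ ha0 haA 2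
  set a := v p.1 with ha
  set b := v p.2 with hb
  set T := v t with hT
  have hb2 : b ^ 2 ≤ 1 := pow_le_one₀ hb0 hb1
  have hb3 : b ^ 3 ≤ 1 := pow_le_one₀ hb0 hb1
  have hb4 : b ^ 4 ≤ 1 := pow_le_one₀ hb0 hb1
  have ha2 : a ^ 2 ≤ 1 := pow_le_one₀ ha0 ha1
  have k1 : T * a ^ 2 * b ^ 2 ≤ T := by
    calc T * a ^ 2 * b ^ 2 ≤ T * 1 * 1 := by gcongr
      _ = T := by ring
  have k2 : T * a * b ^ 3 ≤ T := by
    calc T * a * b ^ 3 ≤ T * 1 * 1 := by gcongr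
      _ = T := by ring
  have k3 : T ^ 2 * b ^ 4 ≤ T := by
    calc T ^ 2 * b ^ 4 ≤ T ^ 2 * 1 := by gcongr
      _ ≤ T := by nlinarith
  have k4 : T * b ^ 4 ≤ T := by
    calc T * b ^ 4 ≤ T * 1 := by gcongr
      _ = T := by ring
  have k5 : a ^ 3 * b ≤ a ^ 2 := by
    calc a ^ 3 * b ≤ a ^ 3 * 1 := by gcongr
      _ = a ^ 2 * a := by ring
      _ ≤ a ^ 2 * 1 := by gcongr
      _ = a ^ 2 := by ring
  have k6 : a ^ 4 ≤ a ^ 2 := by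
    calc a ^ 4 = a ^ 2 * a ^ 2 := by ring
      _ ≤ a ^ 2 * 1 := by gcongr
      _ = a ^ 2 := by ring
  have k7 : a ^ 2 * b ^ 2 ≤ a ^ 2 := by
    calc a ^ 2 * b ^ 2 ≤ a ^ 2 * 1 := by gcongr
      _ = a ^ 2 := by ring
  have eX : v (dupX (Et t) p.1 p.2) ≤ v (dupX (Et t) p.1 p.2 - p.1 ^ 4 - t * p.2 ^ 4) + (a ^ 4 + T * b ^ 4) := by
    have e : dupX (Et t) p.1 p.2 = (dupX (Et t) p.1 p.2 - p.1 ^ 4 - t * p.2 ^ 4) + (p.1 ^ 4 + t * p.2 ^ 4) := by ring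
    have e1 : v (p.1 ^ 4 + t * p.2 ^ 4) ≤ a ^ 4 + T * b ^ 4 := by
      refine (v_add v _ _).trans (le_of_eq ?_)
      simp only [map_mul, map_pow, ← ha, ← hb, ← hT]
    calc v (dupX (Et t) p.1 p.2) = v ((dupX (Et t) p.1 p.2 - p.1 ^ 4 - t * p.2 ^ 4) + (p.1 ^ 4 + t * p.2 ^ 4)) := by rw [← e]
      _ ≤ _ := (v_add v _ _).trans (add_le_add le_rfl e1)
  have eZ : v (dupZ (Et t) p.1 p.2) ≤ v (dupZ (Et t) p.1 p.2 - p.1 ^ 2 * p.2 ^ 2) + a ^ 2 * b ^ 2 := by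
    have e : dupZ (Et t) p.1 p.2 = (dupZ (Et t) p.1 p.2 - p.1 ^ 2 * p.2 ^ 2) + p.1 ^ 2 * p.2 ^ 2 := by ring
    have e1 : v (p.1 ^ 2 * p.2 ^ 2) ≤ a ^ 2 * b ^ 2 := by
      simp only [map_mul, map_pow, ← ha, ← hb, le_refl]
    calc v (dupZ (Et t) p.1 p.2) = v ((dupZ (Et t) p.1 p.2 - p.1 ^ 2 * p.2 ^ 2) + p.1 ^ 2 * p.2 ^ 2) := by rw [← e]
      _ ≤ _ := (v_add v _ _).trans (add_le_add le_rfl e1)
  have hA2 : 0 ≤ A ^ 2 := by positivity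
  refine max_le ?_ ?_
  · show v (dupX (Et t) p.1 p.2) ≤ 2000 * A ^ 2
    linarith
  · show 1 * v (dupZ (Et t) p.1 p.2) ≤ 2000 * A ^ 2
    linarith

/-- PROOF. (i) `|X| ≥ 1/8`: `|dupX| ≥ |X|^4 - 1377 |t| ≥ 1/8192`, and `A ≤ 1`. (ii) `|X| < 1/8`: `|Z| = 1`, `A² = max (|X|²) |t|` and
`|dupZ| ≥ |X|² (1 - 4 |X|) - 148 |t| ≥ |X|²/2 - 148 |t|`. If `|X|² ≥ 592 |t|`: `A² = |X|²`, `|dupZ| ≥ |X|²/4`. If `|X|² < 592 |t|`: `A² ≤ 592 |t|` and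
`|dupX| ≥ |t| - |X|^4 - |t| (72 |X|² + 8 |X| + 1296 |t|) ≥ |t|/2`, because `|X|^4 ≤ 592² |t|²` and `592² |t| ≤ 1/8`, `72 * 592 |t| ≤ 1/8`, `|X| ≤ 1/64` (`|X|² ≤ 592 |t| ≤ 1/4096`),
`1296 |t| ≤ 1/8`. So `A² ≤ 1184 |dupX|`. -/
theorem le_dup {t : K} (ht1 : v t ≤ 1 / 1000000000000) {ω : ℝ} (hω : 0 < ω) (hωt : ω ^ 2 = v t) {p : K × K} (hp : N2 v 1 p = 1) :
    N2 v ω p ^ 2 ≤ 8192 * N2 v 1 (dup (Et t) p) := by
  have ht1' : v t ≤ 1 := ht1.trans (by norm_num)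
  obtain ⟨ha1, hb1, hab, haA, hωA, hA1, hω1, hAc⟩ := D0_data v hω hωt ht1' hp
  have hX := D0_dupX_le v t p.1 p.2
  have hZ := D0_dupZ_le v t p.1 p.2
  have hN1 : v (dupX (Et t) p.1 p.2) ≤ N2 v 1 (dup (Et t) p) := le_max_left _ _
  have hN2 : v (dupZ (Et t) p.1 p.2) ≤ N2 v 1 (dup (Et t) p) := by
    rw [N2, one_mul]
    exact le_max_right _ _
  have hA0 : 0 ≤ N2 v ω p := N2_nonneg v p
  have ha0 : 0 ≤ v p.1 := v.nonneg _
  have hb0 : 0 ≤ v p.2 := v.nonneg _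
  have hT0 : 0 ≤ v t := v.nonneg _
  have lX : v p.1 ^ 4 - v t * v p.2 ^ 4 ≤ v (dupX (Et t) p.1 p.2) +
      v (dupX (Et t) p.1 p.2 - p.1 ^ 4 - t * p.2 ^ 4) := by
    have e : p.1 ^ 4 + t * p.2 ^ 4 = dupX (Et t) p.1 p.2 - (dupX (Et t) p.1 p.2 - p.1 ^ 4 - t * p.2 ^ 4) := by ring
    have e1 := v_sub_le v (p.1 ^ 4) (t * p.2 ^ 4)
    rw [e] at e1
    simp only [map_mul, map_pow] at e1
    exact e1.trans (v_sub v _ _)
  have lX' : v t * v p.2 ^ 4 - v p.1 ^ 4 ≤ v (dupX (Et t) p.1 p.2) +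
      v (dupX (Et t) p.1 p.2 - p.1 ^ 4 - t * p.2 ^ 4) := by
    have e : t * p.2 ^ 4 + p.1 ^ 4 = dupX (Et t) p.1 p.2 - (dupX (Et t) p.1 p.2 - p.1 ^ 4 - t * p.2 ^ 4) := by ring
    have e1 := v_sub_le v (t * p.2 ^ 4) (p.1 ^ 4)
    rw [e] at e1
    simp only [map_mul, map_pow] at e1
    exact e1.trans (v_sub v _ _)
  have lZ : v p.1 ^ 2 * v p.2 ^ 2 ≤ v (dupZ (Et t) p.1 p.2) + v (dupZ (Et t) p.1 p.2 - p.1 ^ 2 * p.2 ^ 2) := by
    have e : p.1 ^ 2 * p.2 ^ 2 = dupZ (Et t) p.1 p.2 - (dupZ (Et t) p.1 p.2 - p.1 ^ 2 * p.2 ^ 2) := by ring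
    have e1 := v_sub v (dupZ (Et t) p.1 p.2) (dupZ (Et t) p.1 p.2 - p.1 ^ 2 * p.2 ^ 2)
    rw [← e] at e1
    simp only [map_mul, map_pow] at e1
    exact e1
  set N := N2 v 1 (dup (Et t) p) with hN
  set A := N2 v ω p with hA
  set a := v p.1 with ha
  set b := v p.2 with hb
  set T := v t with hT
  have hb2 : b ^ 2 ≤ 1 := pow_le_one₀ hb0 hb1
  have hb3 : b ^ 3 ≤ 1 := pow_le_one₀ hb0 hb1
  have hb4 : b ^ 4 ≤ 1 := pow_le_one₀ hb0 hb1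
  have ha2 : a ^ 2 ≤ 1 := pow_le_one₀ ha0 ha1
  have k1 : T * a ^ 2 * b ^ 2 ≤ T := by
    calc T * a ^ 2 * b ^ 2 ≤ T * 1 * 1 := by gcongr
      _ = T := by ring
  have k2 : T * a * b ^ 3 ≤ T := by
    calc T * a * b ^ 3 ≤ T * 1 * 1 := by gcongr
      _ = T := by ring
  have k3 : T ^ 2 * b ^ 4 ≤ T := by
    calc T ^ 2 * b ^ 4 ≤ T ^ 2 * 1 := by gcongr
      _ ≤ T := by nlinarith
  have k4 : T * b ^ 4 ≤ T := by
    calc T * b ^ 4 ≤ T * 1 := by gcongr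
      _ = T := by ring
  have hA2 : A ^ 2 ≤ 1 := pow_le_one₀ hA0 hA1
  rcases le_or_gt (1 / 8) a with h8 | h8
  · have h84 : (1 / 8 : ℝ) ^ 4 ≤ a ^ 4 := pow_le_pow_left₀ (by norm_num) h8 4
    have h84' : (1 / 8 : ℝ) ^ 4 = 1 / 4096 := by norm_num
    rw [h84'] at h84
    linarith
  · have hb' : b = 1 := by
      rcases hab with h | h
      · linarith
      · exact h
    rw [hb'] at hX hZ lX lX' lZ
    simp only [one_pow, mul_one] at hX hZ lX lX' lZ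
    have j1 : T * a ≤ T * 1 := by gcongr
    have j3 : a ^ 3 ≤ a ^ 2 * (1 / 8) := by
      calc a ^ 3 = a ^ 2 * a := by ring
        _ ≤ a ^ 2 * (1 / 8) := by gcongr
    rcases le_or_gt (592 * T) (a ^ 2) with h5 | h5
    · have hAa : A ^ 2 ≤ a ^ 2 := by
        rcases hAc with h | h
        · rw [h]
        · have : A ^ 2 ≤ ω ^ 2 := pow_le_pow_left₀ hA0 h 2
          rw [hωt] at this
          linarith
      linarith
    · have hAT : A ^ 2 ≤ 592 * T := by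
        rcases hAc with h | h
        · rw [h]
          exact h5.le
        · have : A ^ 2 ≤ ω ^ 2 := pow_le_pow_left₀ hA0 h 2
          rw [hωt] at this
          linarith
      have ha64 : a ≤ 1 / 64 := by
        by_contra h
        rw [not_le] at h
        nlinarith
      have j4 : T * a ≤ T * (1 / 64) := by gcongr
      have j5 : a ^ 4 ≤ T * (1 / 8) := by
        calc a ^ 4 = a ^ 2 * a ^ 2 := by ring
          _ ≤ (592 * T) * (592 * T) := by gcongr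
          _ = T * (592 ^ 2 * T) := by ring
          _ ≤ T * (1 / 8) := by
            gcongr
            linarith
      have j6 : T * a ^ 2 ≤ T * (1 / 1024) := by
        gcongr
        linarith
      have j7 : T ^ 2 ≤ T * (1 / 100000) := by
        rw [sq]
        gcongr
        linarith
      linarith

end Pool.Agent.Lib.H90L
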