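import Pool.Agent.Lib.H90L.AV
import Pool.Agent.Lib.H90L.G1

/-!
# H90L, D0b: lower bound of `N_ω (dup p)`, any absolute value (notation of D0)
-/

set_option autoImplicit false

namespace Pool.Agent.Lib.H90L

open Pool.Agent.H38LS

universe u

variable {K : Type u} [Field K] (v : AbsoluteValue K ℝ)

/-- PROOF. (i) `|X| ≥ 1/8`: `|dupX| ≥ 1/8192` as in `le_dup`, and `A ≤ 1`, `|t| ≤ 1`. (ii) `|X| < 1/8`: `|Z| = 1`; `A^4 = max (|X|^4) (|t|²)`, so the left side is
`max (|X|^4) |t|`. If `|X|^4 ≥ 10 |t|`: `|dupX| ≥ |X|^4 - |t| (1 + 72/64 + 1 + 1) ≥ |X|^4/2`. If `|X|^4 < |t|/16` (so `|X| ≤ 1/1000`, as `|t| ≤ 10^(-12)`):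
`|dupX| ≥ |t| - |X|^4 - |t| (72 |X|² + 8 |X| + 1296 |t|) ≥ |t|/2`. If `|t|/16 ≤ |X|^4 < 10 |t|`: `|X|² ≥ ω/4`, `|dupZ| ≥ |X|²/2 - 148 |t| ≥ ω/8 - 148 ω² ≥ ω/16`, so
`ω |dupZ| ≥ |t|/16`, and the left side is `≤ 10 |t|`. -/
theorem le_dup' {t : K} (ht1 : v t ≤ 1 / 1000000000000) {ω : ℝ} (hω : 0 < ω) (hωt : ω ^ 2 = v t) {p : K × K} (hp : N2 v 1 p = 1) :
    max (N2 v ω p ^ 4) (v t) ≤ 8192 * N2 v ω (dup (Et t) p) := by
  obtain ⟨X, Z⟩ := p
  set T := v t with hT
  set x := v X with hx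
  set z := v Z with hz
  set N := N2 v ω (dup (Et t) (X, Z)) with hN
  have hT0 : 0 ≤ T := v.nonneg _
  have hTpos : 0 < T := by rw [← hωt]; positivity
  have hx0 : 0 ≤ x := v.nonneg _
  have hz0 : 0 ≤ z := v.nonneg _
  have hω1 : ω ≤ 1 / 1000000 := by
    have h1 : ω ^ 2 ≤ (1 / 1000000) ^ 2 := by rw [hωt]; norm_num; linarith
    exact (pow_le_pow_iff_left₀ hω.le (by norm_num) two_ne_zero).1 h1
  have hp' : max x z = 1 := by
    have := hp
    unfold N2 at this
    simpa only [one_mul] using this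
  have hx1 : x ≤ 1 := by rw [← hp']; exact le_max_left _ _
  have hz1 : z ≤ 1 := by rw [← hp']; exact le_max_right _ _
  have hN1 : v (dupX (Et t) X Z) ≤ N := le_max_left _ _
  have hN2 : ω * v (dupZ (Et t) X Z) ≤ N := le_max_right _ _
  have hN0 : 0 ≤ N := (v.nonneg _).trans hN1
  -- the size of the small terms
  have r1 : v (72 * t * X ^ 2 * Z ^ 2) ≤ 72 * T * x ^ 2 * z ^ 2 := by
    rw [map_mul, map_mul, map_mul, map_pow, map_pow]
    have := v_ofNat v 72
    gcongr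
  have r2 : v (8 * t * X * Z ^ 3) ≤ 8 * T * x * z ^ 3 := by
    rw [map_mul, map_mul, map_mul, map_pow]
    have := v_ofNat v 8
    gcongr
  have r3 : v (1296 * t ^ 2 * Z ^ 4) ≤ 1296 * T ^ 2 * z ^ 4 := by
    rw [map_mul, map_mul, map_pow, map_pow]
    have := v_ofNat v 1296
    gcongr
  have r4 : v (4 * X ^ 3 * Z) ≤ 4 * x ^ 3 * z := by
    rw [map_mul, map_mul, map_pow]
    have := v_ofNat v 4
    gcongr
  have r5 : v (144 * t * X * Z ^ 3) ≤ 144 * T * x * z ^ 3 := by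
    rw [map_mul, map_mul, map_mul, map_pow]
    have := v_ofNat v 144
    gcongr
  have r6 : v (4 * t * Z ^ 4) ≤ 4 * T * z ^ 4 := by
    rw [map_mul, map_mul, map_pow]
    have := v_ofNat v 4
    gcongr
  have r7 : v (t * Z ^ 4) = T * z ^ 4 := by rw [map_mul, map_pow]
  have r8 : v (X ^ 4) = x ^ 4 := by rw [map_pow]
  -- `dupX` from below, in two ways
  have e1 : dupX (Et t) X Z = X ^ 4 + (72 * t * X ^ 2 * Z ^ 2 + (8 * t * X * Z ^ 3 + (t * Z ^ 4 +
      1296 * t ^ 2 * Z ^ 4))) := by rw [dupX_Et]; ring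
  have e2 : dupX (Et t) X Z = t * Z ^ 4 + (72 * t * X ^ 2 * Z ^ 2 + (8 * t * X * Z ^ 3 + (X ^ 4 +
      1296 * t ^ 2 * Z ^ 4))) := by rw [dupX_Et]; ring
  have d1 : x ^ 4 - (72 * T * x ^ 2 * z ^ 2 + (8 * T * x * z ^ 3 + (T * z ^ 4 +
      1296 * T ^ 2 * z ^ 4))) ≤ N := by
    have a1 := v_sub_le v (X ^ 4) (72 * t * X ^ 2 * Z ^ 2 + (8 * t * X * Z ^ 3 + (t * Z ^ 4 +
      1296 * t ^ 2 * Z ^ 4)))
    rw [← e1, r8] at a1
    have a2 := v_add v (72 * t * X ^ 2 * Z ^ 2) (8 * t * X * Z ^ 3 + (t * Z ^ 4 +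
      1296 * t ^ 2 * Z ^ 4))
    have a3 := v_add v (8 * t * X * Z ^ 3) (t * Z ^ 4 + 1296 * t ^ 2 * Z ^ 4)
    have a4 := v_add v (t * Z ^ 4) (1296 * t ^ 2 * Z ^ 4)
    rw [r7] at a4
    linarith
  have d2 : T * z ^ 4 - (72 * T * x ^ 2 * z ^ 2 + (8 * T * x * z ^ 3 + (x ^ 4 +
      1296 * T ^ 2 * z ^ 4))) ≤ N := by
    have a1 := v_sub_le v (t * Z ^ 4) (72 * t * X ^ 2 * Z ^ 2 + (8 * t * X * Z ^ 3 + (X ^ 4 +
      1296 * t ^ 2 * Z ^ 4)))
    rw [← e2, r7] at a1
    have a2 := v_add v (72 * t * X ^ 2 * Z ^ 2) (8 * t * X * Z ^ 3 + (X ^ 4 +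
      1296 * t ^ 2 * Z ^ 4))
    have a3 := v_add v (8 * t * X * Z ^ 3) (X ^ 4 + 1296 * t ^ 2 * Z ^ 4)
    have a4 := v_add v (X ^ 4) (1296 * t ^ 2 * Z ^ 4)
    rw [r8] at a4
    linarith
  have hA1 : N2 v ω (X, Z) ≤ 1 := by
    unfold N2
    refine max_le hx1 ?_
    calc ω * z ≤ 1 * 1 := mul_le_mul (by linarith) hz1 hz0 zero_le_one
      _ = 1 := one_mul 1
  have hA0 : 0 ≤ N2 v ω (X, Z) := N2_nonneg v _
  rcases le_or_gt (1 / 8) x with hbig | hsmall
  · -- (i)
    have hx4 : (1 / 8 : ℝ) ^ 4 ≤ x ^ 4 := pow_le_pow_left₀ (by norm_num) hbig 4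
    have b1 : 72 * T * x ^ 2 * z ^ 2 ≤ 72 * T := by
      have : x ^ 2 * z ^ 2 ≤ 1 := mul_le_one₀ (pow_le_one₀ hx0 hx1) (by positivity)
        (pow_le_one₀ hz0 hz1)
      calc 72 * T * x ^ 2 * z ^ 2 = 72 * T * (x ^ 2 * z ^ 2) := by ring
        _ ≤ 72 * T * 1 := mul_le_mul_of_nonneg_left this (by positivity)
        _ = 72 * T := by ring
    have b2 : 8 * T * x * z ^ 3 ≤ 8 * T := by
      have : x * z ^ 3 ≤ 1 := mul_le_one₀ hx1 (by positivity) (pow_le_one₀ hz0 hz1)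
      calc 8 * T * x * z ^ 3 = 8 * T * (x * z ^ 3) := by ring
        _ ≤ 8 * T * 1 := mul_le_mul_of_nonneg_left this (by positivity)
        _ = 8 * T := by ring
    have b3 : T * z ^ 4 ≤ T := mul_le_of_le_one_right hT0 (pow_le_one₀ hz0 hz1)
    have b4 : 1296 * T ^ 2 * z ^ 4 ≤ 1296 * T := by
      have h1 : z ^ 4 ≤ 1 := pow_le_one₀ hz0 hz1
      have h2 : T ^ 2 ≤ T := by nlinarith
      calc 1296 * T ^ 2 * z ^ 4 ≤ 1296 * T ^ 2 * 1 :=
            mul_le_mul_of_nonneg_left h1 (by positivity)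
        _ ≤ 1296 * T := by linarith
    have hNN : 1 / 8192 ≤ N := by
      norm_num at hx4 ⊢
      linarith
    have c1 : N2 v ω (X, Z) ^ 4 ≤ 1 := pow_le_one₀ hA0 hA1
    refine max_le ?_ ?_
    · linarith
    · linarith
  · -- (ii)
    have hz' : z = 1 := by
      rcases le_total x z with h | h
      · rw [max_eq_right h] at hp'; exact hp'
      · rw [max_eq_left h] at hp'; linarith
    rw [hz'] at d1 d2
    have hA : N2 v ω (X, Z) ^ 4 ≤ max (x ^ 4) T := by
      unfold N2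
      simp only
      rw [← hx, ← hz, hz', mul_one]
      rcases le_total x ω with h | h
      · rw [max_eq_right h]
        refine le_max_of_le_right ?_
        calc ω ^ 4 = ω ^ 2 * ω ^ 2 := by ring
          _ = T * T := by rw [hωt]
          _ ≤ T * 1 := mul_le_mul_of_nonneg_left (by linarith) hT0
          _ = T := mul_one T
      · rw [max_eq_left h]
        exact le_max_left _ _
    have hx2 : x ^ 2 ≤ 1 / 64 := by nlinarith
    have k1 : 72 * T * x ^ 2 ≤ 72 / 64 * T := by nlinarith [mul_nonneg hT0 (sq_nonneg x)]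
    have k2 : 8 * T * x ≤ T := by nlinarith
    have k3 : 1296 * T ^ 2 ≤ T / 8 := by nlinarith
    have hmain : max (x ^ 4) T ≤ 8192 * N := by
      rcases le_or_gt (10 * T) (x ^ 4) with ha | ha
      · have h1 : x ^ 4 / 2 ≤ N := by nlinarith
        exact max_le (by linarith) (by linarith)
      · rcases lt_or_ge (x ^ 4) (T / 16) with hb | hb
        · have hxs : x < 1 / 1000 := by
            by_contra hcon
            rw [not_lt] at hcon
            have : (1 / 1000 : ℝ) ^ 4 ≤ x ^ 4 := pow_le_pow_left₀ (by norm_num) hcon 4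
            norm_num at this
            linarith
          have k4 : 72 * T * x ^ 2 ≤ T / 16 := by nlinarith [mul_nonneg hT0 (sq_nonneg x)]
          have k5 : 8 * T * x ≤ T / 16 := by nlinarith
          have h1 : T / 2 ≤ N := by nlinarith
          exact max_le (by linarith) (by linarith)
        · have e3 : dupZ (Et t) X Z = X ^ 2 * Z ^ 2 + (4 * X ^ 3 * Z - (144 * t * X * Z ^ 3 +
              4 * t * Z ^ 4)) := by rw [dupZ_Et]; ring
          have r9 : v (X ^ 2 * Z ^ 2) = x ^ 2 * z ^ 2 := by rw [map_mul, map_pow, map_pow]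
          have d3 : x ^ 2 - (4 * x ^ 3 + (144 * T * x + 4 * T)) ≤ v (dupZ (Et t) X Z) := by
            have a1 := v_sub_le v (X ^ 2 * Z ^ 2) (4 * X ^ 3 * Z - (144 * t * X * Z ^ 3 +
              4 * t * Z ^ 4))
            rw [← e3, r9] at a1
            have a2 := v_sub v (4 * X ^ 3 * Z) (144 * t * X * Z ^ 3 + 4 * t * Z ^ 4)
            have a3 := v_add v (144 * t * X * Z ^ 3) (4 * t * Z ^ 4)
            rw [hz'] at r4 r5 r6 a1
            linarith
          have hxω : ω / 4 ≤ x ^ 2 := by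
            have h1 : (ω / 4) ^ 2 ≤ (x ^ 2) ^ 2 := by
              have : (ω / 4) ^ 2 = T / 16 := by rw [← hωt]; ring
              rw [this]
              calc T / 16 ≤ x ^ 4 := hb
                _ = (x ^ 2) ^ 2 := by ring
            exact (pow_le_pow_iff_left₀ (by positivity) (by positivity) two_ne_zero).1 h1
          have h2 : 4 * x ^ 3 ≤ x ^ 2 / 2 := by nlinarith [sq_nonneg x]
          have h3 : 144 * T * x ≤ 144 * T := by nlinarith
          have h4 : ω / 16 ≤ v (dupZ (Et t) X Z) := by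
            have h5 : 148 * T ≤ ω / 16 := by
              rw [← hωt]
              nlinarith
            linarith
          have h6 : T / 16 ≤ N := by
            calc T / 16 = ω * (ω / 16) := by rw [← hωt]; ring
              _ ≤ ω * v (dupZ (Et t) X Z) := mul_le_mul_of_nonneg_left h4 hω.le
              _ ≤ N := hN2
          exact max_le (by linarith) (by linarith)
    exact max_le (hA.trans hmain) ((le_max_right _ _).trans hmain)

end Pool.Agent.Lib.H90L
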