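import Pool.Agent.Lib.H90L.D0
import Pool.Agent.Lib.H90L.D0b
import Pool.Agent.Lib.H90L.R0

/-!
# H90L, D1
-/

set_option autoImplicit false

namespace Pool.Agent.Lib.H90L

open Pool.Agent.H38LS

universe u

variable {K : Type u} [Field K] (v : AbsoluteValue K ℝ)

/-- PROOF. Scale `p` to norm one (`exists_norm`, `al_smul`, `dup_smul`, `N2_smul`); `le_dup` with `ω = exp (-L/2)` (`sq_exp`), `N_ω p = exp (-al p)` (`N2_eq_exp_al`);
logarithm. In particular `dup p ≠ 0`. -/
theorem log_dup_ge {t : K} (ht : 0 < v t) (ht1 : v t ≤ 1 / 1000000000000) {L : ℝ} (hL : L = -Real.log (v t))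
    {p : K × K} (hp : p ≠ 0) : dup (Et t) p ≠ 0 ∧
    4 * Real.log (N2 v 1 p) - 2 * al v L p - Real.log 8192 ≤ Real.log (N2 v 1 (dup (Et t) p)) := by
  obtain ⟨c, hc, h1⟩ := exists_norm v hp
  have hω := a0_exp_pos L
  have hωt : Real.exp (-(L / 2)) ^ 2 = v t := sq_exp ht hL
  have hq : c • p ≠ 0 := smul_ne_zero hc hp
  have h2 := le_dup v ht1 hω hωt h1
  have h3 := N2_eq_exp_al v L hq
  rw [h1, one_mul, al_smul v hc] at h3
  rw [h3, dup_smul, N2_smul, map_pow] at h2
  have hN := N2_pos v one_pos hp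
  have hvc : v c * N2 v 1 p = 1 := by
    rw [← N2_smul]
    exact h1
  have hvc0 : 0 < v c := v.pos hc
  have hD : 0 < N2 v 1 (dup (Et t) p) := by
    have h4 : 0 < Real.exp (-al v L p) ^ 2 := by positivity
    by_contra hcon
    rw [not_lt] at hcon
    have h5 : 8192 * (v c ^ 4 * N2 v 1 (dup (Et t) p)) ≤ 0 := by
      have h6 : 0 ≤ 8192 * v c ^ 4 := by positivity
      have h7 := mul_nonpos_of_nonneg_of_nonpos h6 hcon
      linarith
    linarith
  refine ⟨?_, ?_⟩
  · intro h0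
    rw [h0] at hD
    have h8 : N2 v 1 (0 : K × K) = 0 := by
      unfold N2
      simp
    rw [h8] at hD
    exact lt_irrefl _ hD
  · have h9 : Real.log (v c) + Real.log (N2 v 1 p) = 0 := by
      rw [← Real.log_mul hvc0.ne' hN.ne', hvc, Real.log_one]
    have h10 := Real.log_le_log (by positivity) h2
    rw [Real.log_mul (by norm_num) (by positivity), Real.log_mul (by positivity) hD.ne',
      Real.log_pow, Real.log_pow, Real.log_exp] at h10
    push_cast at h10
    linarith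

/-- PROOF. Scale to norm one, `A = e^(-a)`, `a = al p`, `|t| = e^(-L)`: `al (dup p) = log (N_1 (dup p) / N_ω (dup p)) ≤ log (2000 A² * 8192 / max (A^4) |t|)`
(`dup_le`, `le_dup'`), and `log (A² / max (A^4) |t|) = min (2 a) (L - 2 a)`. -/
theorem al_dup_le' {t : K} (ht : 0 < v t) (ht1 : v t ≤ 1 / 1000000000000) {L : ℝ} (hL : L = -Real.log (v t))
    {p : K × K} (hp : p ≠ 0) : al v L (dup (Et t) p) ≤ fold L (2 * al v L p) + Real.log (2000 * 8192) := by
  obtain ⟨c, hc, h1⟩ := exists_norm v hp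
  have hω := a0_exp_pos L
  have hωt : Real.exp (-(L / 2)) ^ 2 = v t := sq_exp ht hL
  have hq : c • p ≠ 0 := smul_ne_zero hc hp
  have ht1' : v t ≤ 1 := ht1.trans (by norm_num)
  have h2 := dup_le v ht1' hω hωt h1
  have h2' := le_dup' v ht1 hω hωt h1
  have h3 := N2_eq_exp_al v L hq
  rw [h1, one_mul, al_smul v hc] at h3
  rw [h3] at h2 h2'
  have hdq : dup (Et t) (c • p) ≠ 0 := (log_dup_ge v ht ht1 hL hq).1
  have hal : al v L (dup (Et t) p) = al v L (dup (Et t) (c • p)) := by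
    rw [dup_smul, al_smul v (pow_ne_zero 4 hc)]
  have hN1 := N2_pos v one_pos hdq
  have hNω := N2_pos v hω hdq
  have e4 : Real.exp (-al v L p) ^ 2 = Real.exp (2 * al v L p) * Real.exp (-al v L p) ^ 4 := by
    rw [← Real.exp_nat_mul, ← Real.exp_nat_mul, ← Real.exp_add]
    congr 1
    push_cast
    ring
  have e5 : Real.exp (-al v L p) ^ 2 = Real.exp (L - 2 * al v L p) * v t := by
    rw [← Real.exp_nat_mul]
    have : v t = Real.exp (-L) := by
      rw [hL, neg_neg, Real.exp_log ht]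
    rw [this, ← Real.exp_add]
    congr 1
    push_cast
    ring
  have hC : Real.exp (Real.log (2000 * 8192)) = 2000 * 8192 := Real.exp_log (by norm_num)
  have hm1 := (le_max_left (Real.exp (-al v L p) ^ 4) (v t)).trans h2'
  have hm2 := (le_max_right (Real.exp (-al v L p) ^ 4) (v t)).trans h2'
  rw [hal]
  unfold fold
  rw [← min_add_add_right]
  apply le_min
  · unfold al
    change Real.log (N2 v 1 (dup (Et t) (c • p)) / N2 v (Real.exp (-(L / 2))) (dup (Et t) (c • p))) ≤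
      2 * al v L p + Real.log (2000 * 8192)
    rw [Real.log_le_iff_le_exp (div_pos hN1 hNω), div_le_iff₀ hNω, Real.exp_add, hC]
    calc N2 v 1 (dup (Et t) (c • p)) ≤ 2000 * Real.exp (-al v L p) ^ 2 := h2
      _ = 2000 * Real.exp (2 * al v L p) * Real.exp (-al v L p) ^ 4 := by
          rw [e4]
          ring
      _ ≤ 2000 * Real.exp (2 * al v L p) *
          (8192 * N2 v (Real.exp (-(L / 2))) (dup (Et t) (c • p))) :=
          mul_le_mul_of_nonneg_left hm1 (by positivity)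
      _ = _ := by ring
  · unfold al
    change Real.log (N2 v 1 (dup (Et t) (c • p)) / N2 v (Real.exp (-(L / 2))) (dup (Et t) (c • p))) ≤
      L - 2 * al v L p + Real.log (2000 * 8192)
    rw [Real.log_le_iff_le_exp (div_pos hN1 hNω), div_le_iff₀ hNω, Real.exp_add, hC]
    calc N2 v 1 (dup (Et t) (c • p)) ≤ 2000 * Real.exp (-al v L p) ^ 2 := h2
      _ = 2000 * Real.exp (L - 2 * al v L p) * v t := by
          rw [e5]
          ring
      _ ≤ 2000 * Real.exp (L - 2 * al v L p) *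
          (8192 * N2 v (Real.exp (-(L / 2))) (dup (Et t) (c • p))) :=
          mul_le_mul_of_nonneg_left hm2 (by positivity)
      _ = _ := by ring

/-- (D1). PROOF. `t₀ = 10^(-12)`. `p_n = dup^n (x, 1)`, `u n = log N_1 p_n`, `a n = al p_n ∈ [0, L/2]`, `w n = u n - hh L (a n)`, `c₁ = log 8192`, `c₂ = log (2000 * 8192)`.
Let `b = min (fold (2 a n) + c₂) (L/2)`: `a (n+1) ≤ b ≤ L/2` and `b - fold (2 a n) ∈ [0, c₂]`, so `hh (a (n+1)) ≤ hh b ≤ hh (fold (2 a n)) + c₂` (`hh_mono`, `hh_add_le`,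
`fold_le`, `fold_nonneg`). Hence `w (n+1) ≥ 4 u n - 2 a n - c₁ - hh (fold (2 a n)) - c₂ = 4 w n - (c₁ + c₂)` (`hh_fold`), so
`u n ≥ w n ≥ 4^n (w 0 - (c₁ + c₂)/3)` and `w 0 ≥ - hh (a 0)`. With `l = L/12 - hh (a 0)/2 - C`: `2 l + log |Δ|/6 = - hh (a 0) - 2 C + log |1 + 1728 t|/3` (`Δ_Et`) and
`log |1 + 1728 t| ≤ log 2 ≤ 1`; so `C = (c₁ + c₂)/6 + 1/6` works. -/
theorem D1 : Spec.D1.{u} := by
  intro K _ v _ _
  obtain ⟨c1, hc1e⟩ : ∃ c1 : ℝ, Real.log 8192 = c1 := ⟨_, rfl⟩
  obtain ⟨c2, hc2e⟩ : ∃ c2 : ℝ, Real.log (2000 * 8192) = c2 := ⟨_, rfl⟩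
  have hc1 : 0 ≤ c1 := by
    rw [← hc1e]
    exact Real.log_nonneg (by norm_num)
  have hc2 : 0 ≤ c2 := by
    rw [← hc2e]
    exact Real.log_nonneg (by norm_num)
  refine ⟨(c1 + c2) / 6 + 1 / 6, 1 / 1000000000000, by norm_num,
    by norm_num, ?_⟩
  intro t ht ht1 x
  have hlt : Real.log (v t) < 0 := Real.log_neg ht (lt_of_le_of_lt ht1 (by norm_num))
  obtain ⟨L, hL⟩ : ∃ L : ℝ, L = -Real.log (v t) := ⟨_, rfl⟩
  rw [← hL]
  have hL0 : 0 < L := by
    rw [hL]
    linarith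
  have hp0 : ((x, 1) : K × K) ≠ 0 := by
    intro h
    have := congrArg Prod.snd h
    exact one_ne_zero this
  have hpn : ∀ n : ℕ, (dup (Et t))^[n] (x, 1) ≠ 0 := by
    intro n
    induction n with
    | zero => exact hp0
    | succ n ih =>
      rw [Function.iterate_succ_apply']
      exact (log_dup_ge v ht ht1 hL ih).1
  have ha0 : ∀ n : ℕ, 0 ≤ al v L ((dup (Et t))^[n] (x, 1)) := fun n => al_nonneg v hL0.le (hpn n)
  have ha1 : ∀ n : ℕ, al v L ((dup (Et t))^[n] (x, 1)) ≤ L / 2 := fun n => al_le v hL0.le (hpn n)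
  have hstep : ∀ n : ℕ, 4 * (Real.log (N2 v 1 ((dup (Et t))^[n] (x, 1))) -
      hh L (al v L ((dup (Et t))^[n] (x, 1)))) - (c1 + c2) ≤
      Real.log (N2 v 1 ((dup (Et t))^[n + 1] (x, 1))) -
        hh L (al v L ((dup (Et t))^[n + 1] (x, 1))) := by
    intro n
    have h1 := (log_dup_ge v ht ht1 hL (hpn n)).2
    have h2 := al_dup_le' v ht ht1 hL (hpn n)
    have e0 : (dup (Et t))^[n + 1] (x, 1) = dup (Et t) ((dup (Et t))^[n] (x, 1)) :=
      Function.iterate_succ_apply' _ _ _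
    rw [← e0] at h1 h2
    rw [hc1e] at h1
    rw [hc2e] at h2
    have h3 := ha1 (n + 1)
    have h4 := ha0 n
    have h5 := ha1 n
    have hf0 : 0 ≤ fold L (2 * al v L ((dup (Et t))^[n] (x, 1))) :=
      fold_nonneg (by linarith) (by linarith)
    have hf1 : fold L (2 * al v L ((dup (Et t))^[n] (x, 1))) ≤ L / 2 := fold_le
    have h6 := hh_fold (L := L) (a := al v L ((dup (Et t))^[n] (x, 1))) hL0
    generalize fold L (2 * al v L ((dup (Et t))^[n] (x, 1))) = f at *
    have hb1 : al v L ((dup (Et t))^[n + 1] (x, 1)) ≤ min (f + c2) (L / 2) :=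
      le_min h2 h3
    have hb2 : f ≤ min (f + c2) (L / 2) := le_min (by linarith) hf1
    have hb3 := min_le_left (f + c2) (L / 2)
    have h7 := hh_mono hL0 hb1 (min_le_right _ _)
    have h8 := hh_add_le (L := L) (a := f)
      (c := min (f + c2) (L / 2) - f) hL0 hf0 (by linarith)
    rw [add_sub_cancel] at h8
    linarith
  obtain ⟨c3, hc3⟩ : ∃ c3 : ℝ, 3 * c3 = c1 + c2 :=
    ⟨(c1 + c2) / 3, by ring⟩
  have hall : ∀ n : ℕ, 4 ^ n * (Real.log (N2 v 1 ((x, 1) : K × K)) - hh L (al v L (x, 1)) -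
      c3) + c3 ≤
      Real.log (N2 v 1 ((dup (Et t))^[n] (x, 1))) - hh L (al v L ((dup (Et t))^[n] (x, 1))) := by
    intro n
    induction n with
    | zero =>
      simp only [pow_zero, one_mul, Function.iterate_zero, id_eq]
      linarith
    | succ n ih =>
      have h1 := hstep n
      rw [pow_succ, mul_comm ((4 : ℝ) ^ n) 4, mul_assoc]
      linarith
  have hu0 : 0 ≤ Real.log (N2 v 1 ((x, 1) : K × K)) := by
    apply Real.log_nonneg
    unfold N2
    refine le_max_of_le_right ?_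
    simp
  have hΔ : Real.log (v (Et t).Δ) = -L + 2 * Real.log (v (1 + 1728 * t)) := by
    have h1 : 0 < v (1 + 1728 * t) := by
      have h2 := v_sub_le v (1 : K) (1728 * t)
      have h3 := v_ofNat_mul v 1728 t
      rw [map_one] at h2
      norm_num at ht1
      linarith
    rw [Δ_Et, map_mul, map_pow, Real.log_mul ht.ne' (pow_ne_zero 2 h1.ne'), Real.log_pow, hL]
    push_cast
    ring
  have hlog : Real.log (v (1 + 1728 * t)) ≤ 1 := by
    have h2 := v_add v (1 : K) (1728 * t)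
    have h3 := v_ofNat_mul v 1728 t
    rw [map_one] at h2
    have h4 := v.nonneg (1 + 1728 * t)
    have h5 := Real.log_le_sub_one_of_pos (x := v (1 + 1728 * t)) (by
      have h6 := v_sub_le v (1 : K) (1728 * t)
      rw [map_one] at h6
      norm_num at ht1
      linarith)
    norm_num at ht1
    linarith
  refine ⟨0, ?_⟩
  intro n
  have h1 := hall n
  have h2 : 0 ≤ hh L (al v L ((dup (Et t))^[n] (x, 1))) := by
    have := ha1 n
    exact hh_nonneg hL0 (ha0 n) (by linarith)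
  have h3 : 2 * (L / 12 - hh L (al v L (x, 1)) / 2 -
      ((c1 + c2) / 6 + 1 / 6)) + Real.log (v (Et t).Δ) / 6 ≤
      Real.log (N2 v 1 ((x, 1) : K × K)) - hh L (al v L (x, 1)) - c3 := by
    rw [hΔ]
    linarith
  have h4 := mul_le_mul_of_nonneg_left h3 (show (0 : ℝ) ≤ 4 ^ n by positivity)
  have h5 : 0 ≤ c3 := by linarith
  rw [sub_zero]
  refine h4.trans ?_
  linarith

end Pool.Agent.Lib.H90L
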