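import Pool.Agent.Lib.H90L.AV
import Pool.Agent.Lib.H90L.A2b

/-!
# H90L, D2b: the norm of `asm (sym p q)` on `E_t`, any absolute value, `|t|` small: upper bound, and lower bound for `A ≥ 1/64`

Notation: `p = (X₁, Z₁)`, `q = (X₂, Z₂)`, `N_1 p = N_1 q = 1`, `A = N_ω p ≥ B = N_ω q`, `ω ≤ w ≤ 1`, `ω² = |t|`; `s = sym p q`, `asm` from `asm_Et`. `|n| ≤ n` for integers.
-/

set_option autoImplicit false

namespace Pool.Agent.Lib.H90L

open Pool.Agent.H38LS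

universe u

variable {K : Type u} [Field K] (v : AbsoluteValue K ℝ)

private theorem D2b_asm1 (t s1 s2 s3 : K) :
    v (s1 ^ 2 + 72 * t * s1 * s3 + 4 * t * s2 * s3 + (t + 1296 * t ^ 2) * s3 ^ 2) ≤
      v s1 ^ 2 + 72 * (v t * v s1 * v s3) + 4 * (v t * v s2 * v s3) +
        (v t + 1296 * v t ^ 2) * v s3 ^ 2 := by
  have h1 : v (72 * t * s1 * s3) ≤ 72 * (v t * v s1 * v s3) := by
    have h := v_ofNat_mul v 72 (t * s1 * s3)
    have h' : v (t * s1 * s3) = v t * v s1 * v s3 := by rw [v.map_mul, v.map_mul]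
    rw [h'] at h
    have e : (72 : K) * t * s1 * s3 = 72 * (t * s1 * s3) := by ring
    rw [e]
    exact h
  have h2 : v (4 * t * s2 * s3) ≤ 4 * (v t * v s2 * v s3) := by
    have h := v_ofNat_mul v 4 (t * s2 * s3)
    have h' : v (t * s2 * s3) = v t * v s2 * v s3 := by rw [v.map_mul, v.map_mul]
    rw [h'] at h
    have e : (4 : K) * t * s2 * s3 = 4 * (t * s2 * s3) := by ring
    rw [e]
    exact h
  have h3 : v (t + 1296 * t ^ 2) ≤ v t + 1296 * v t ^ 2 := by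
    refine (v_add v _ _).trans ?_
    have h := v_ofNat_mul v 1296 (t ^ 2)
    rw [v.map_pow] at h
    linarith
  have h4 : v ((t + 1296 * t ^ 2) * s3 ^ 2) ≤ (v t + 1296 * v t ^ 2) * v s3 ^ 2 := by
    rw [v.map_mul, v.map_pow]
    exact mul_le_mul_of_nonneg_right h3 (by positivity)
  have h5 := v_add v (s1 ^ 2 + 72 * t * s1 * s3 + 4 * t * s2 * s3) ((t + 1296 * t ^ 2) * s3 ^ 2)
  have h6 := v_add v (s1 ^ 2 + 72 * t * s1 * s3) (4 * t * s2 * s3)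
  have h7 := v_add v (s1 ^ 2) (72 * t * s1 * s3)
  rw [v.map_pow] at h7
  linarith

private theorem D2b_asm2 (t s1 s2 s3 : K) :
    v (s1 * (2 * s2 + s3) - 72 * t * s2 * s3 - 4 * t * s3 ^ 2) ≤
      v s1 * (2 * v s2 + v s3) + 72 * (v t * v s2 * v s3) + 4 * (v t * v s3 ^ 2) := by
  have h1 : v (72 * t * s2 * s3) ≤ 72 * (v t * v s2 * v s3) := by
    have h := v_ofNat_mul v 72 (t * s2 * s3)
    have h' : v (t * s2 * s3) = v t * v s2 * v s3 := by rw [v.map_mul, v.map_mul]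
    rw [h'] at h
    have e : (72 : K) * t * s2 * s3 = 72 * (t * s2 * s3) := by ring
    rw [e]
    exact h
  have h2 : v (4 * t * s3 ^ 2) ≤ 4 * (v t * v s3 ^ 2) := by
    have h := v_ofNat_mul v 4 (t * s3 ^ 2)
    have h' : v (t * s3 ^ 2) = v t * v s3 ^ 2 := by rw [v.map_mul, v.map_pow]
    rw [h'] at h
    have e : (4 : K) * t * s3 ^ 2 = 4 * (t * s3 ^ 2) := by ring
    rw [e]
    exact h
  have h3 : v (2 * s2 + s3) ≤ 2 * v s2 + v s3 := by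
    refine (v_add v _ _).trans ?_
    have h := v_ofNat_mul v 2 s2
    linarith
  have h4 : v (s1 * (2 * s2 + s3)) ≤ v s1 * (2 * v s2 + v s3) := by
    rw [v.map_mul]
    exact mul_le_mul_of_nonneg_left h3 (v.nonneg _)
  have h5 := v_sub v (s1 * (2 * s2 + s3) - 72 * t * s2 * s3) (4 * t * s3 ^ 2)
  have h6 := v_sub v (s1 * (2 * s2 + s3)) (72 * t * s2 * s3)
  linarith

private theorem D2b_asm3 (s1 s2 s3 : K) :
    v (s2 ^ 2 - 4 * s1 * s3) ≤ v s2 ^ 2 + 4 * (v s1 * v s3) := by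
  have h2 : v (4 * s1 * s3) ≤ 4 * (v s1 * v s3) := by
    have h := v_ofNat_mul v 4 (s1 * s3)
    rw [v.map_mul s1 s3] at h
    rw [mul_assoc]
    exact h
  have h5 := v_sub v (s2 ^ 2) (4 * s1 * s3)
  rw [v.map_pow] at h5
  linarith

private theorem D2b_real {T A B a1 a2 a3 : ℝ} (hT0 : 0 ≤ T) (hT1 : T ≤ 1) (hTA : T ≤ A ^ 2)
    (hA1 : A ≤ 1) (hB0 : 0 ≤ B) (hBA : B ≤ A) (h10 : 0 ≤ a1) (h20 : 0 ≤ a2) (h30 : 0 ≤ a3)
    (h1 : a1 ≤ A * B) (h2 : a2 ≤ 2 * A) (h3 : a3 ≤ 1) :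
    a1 ^ 2 + 72 * (T * a1 * a3) + 4 * (T * a2 * a3) + (T + 1296 * T ^ 2) * a3 ^ 2 ≤
        2000 * A ^ 2 ∧
      a1 * (2 * a2 + a3) + 72 * (T * a2 * a3) + 4 * (T * a3 ^ 2) ≤ 2000 * A ^ 2 ∧
      a2 ^ 2 + 4 * (a1 * a3) ≤ 2000 * A ^ 2 := by
  have hA0 : 0 ≤ A := hB0.trans hBA
  have hA2 : 0 ≤ A ^ 2 := by positivity
  have hAB : A * B ≤ A ^ 2 := by
    rw [sq]
    exact mul_le_mul_of_nonneg_left hBA hA0
  have hA21 : A ^ 2 ≤ 1 := pow_le_one₀ hA0 hA1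
  have h1A : a1 ≤ A ^ 2 := h1.trans hAB
  have h11 : a1 ≤ 1 := h1A.trans hA21
  have h22 : a2 ≤ 2 := by linarith
  have c1 : a1 ^ 2 ≤ A ^ 2 := by
    rw [sq]
    calc a1 * a1 ≤ 1 * a1 := mul_le_mul_of_nonneg_right h11 h10
      _ ≤ A ^ 2 := by linarith
  have c2 : T * a1 * a3 ≤ A ^ 2 := by
    calc T * a1 * a3 ≤ A ^ 2 * 1 * 1 :=
          mul_le_mul (mul_le_mul hTA h11 h10 hA2) h3 h30 (by positivity)
      _ = A ^ 2 := by ring
  have c3 : T * a2 * a3 ≤ 2 * A ^ 2 := by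
    calc T * a2 * a3 ≤ A ^ 2 * 2 * 1 :=
          mul_le_mul (mul_le_mul hTA h22 h20 hA2) h3 h30 (by positivity)
      _ = 2 * A ^ 2 := by ring
  have c4 : a3 ^ 2 ≤ 1 := pow_le_one₀ h30 h3
  have c5 : T ^ 2 ≤ A ^ 2 := by
    rw [sq]
    calc T * T ≤ 1 * T := mul_le_mul_of_nonneg_right hT1 hT0
      _ ≤ A ^ 2 := by linarith
  have c6 : (T + 1296 * T ^ 2) * a3 ^ 2 ≤ 1297 * A ^ 2 := by
    calc (T + 1296 * T ^ 2) * a3 ^ 2 ≤ (T + 1296 * T ^ 2) * 1 :=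
          mul_le_mul_of_nonneg_left c4 (by positivity)
      _ ≤ 1297 * A ^ 2 := by linarith
  have c7 : T * a3 ^ 2 ≤ A ^ 2 := by
    calc T * a3 ^ 2 ≤ A ^ 2 * 1 := mul_le_mul hTA c4 (by positivity) hA2
      _ = A ^ 2 := by ring
  have c8 : a1 * (2 * a2 + a3) ≤ A ^ 2 * 5 :=
    mul_le_mul h1A (by linarith) (by positivity) hA2
  have c9 : a2 ^ 2 ≤ (2 * A) ^ 2 := pow_le_pow_left₀ h20 h2 2
  have c10 : a1 * a3 ≤ A ^ 2 * 1 := mul_le_mul h1A h3 h30 hA2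
  refine ⟨by linarith, by linarith, ?_⟩
  have c11 : (2 * A) ^ 2 = 4 * A ^ 2 := by ring
  linarith

/-- PROOF. `|s₁| ≤ A B ≤ 1`, `|s₂| ≤ A + B ≤ 2 A ≤ 2`, `|s₃| ≤ 1`, `|t| ≤ A²` and `B ≤ A ≤ 1`. `|asm₁| ≤ A² B² + |t| (72 + 8 + 1 + 1296) ≤ 1378 A²`,
`|asm₂| ≤ 5 A B + 148 |t| ≤ 153 A²`, `|asm₃| = |X₁ Z₂ - Z₁ X₂|² ≤ (2 A)²`. -/
theorem asm_le {t : K} (ht1 : v t ≤ 1) {ω A B : ℝ} (hω : 0 < ω) (hωt : ω ^ 2 = v t) {p q : K × K}
    (hp : N2 v 1 p = 1) (hq : N2 v 1 q = 1) (hA : A = N2 v ω p) (hB : B = N2 v ω q) (hBA : B ≤ A) :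
    N3 v 1 (asm (Et t) (sym p q)) ≤ 2000 * A ^ 2 := by
  have hx1 : v p.1 ≤ 1 := by
    rw [← hp]
    exact le_max_left _ _
  have hz1 : v p.2 ≤ 1 := by
    have h : 1 * v p.2 ≤ N2 v 1 p := le_max_right _ _
    rw [hp] at h
    linarith
  have hx2 : v q.1 ≤ 1 := by
    rw [← hq]
    exact le_max_left _ _
  have hz2 : v q.2 ≤ 1 := by
    have h : 1 * v q.2 ≤ N2 v 1 q := le_max_right _ _
    rw [hq] at h
    linarith
  have hω1 : ω ≤ 1 := by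
    have h : ω ^ 2 ≤ 1 ^ 2 := by
      rw [hωt]
      linarith
    exact le_of_sq_le_sq h zero_le_one
  have hxA : v p.1 ≤ A := by
    rw [hA]
    exact le_max_left _ _
  have hzA : ω * v p.2 ≤ A := by
    rw [hA]
    exact le_max_right _ _
  have hxB : v q.1 ≤ B := by
    rw [hB]
    exact le_max_left _ _
  have hB0 : 0 ≤ B := (v.nonneg _).trans hxB
  have hA0 : 0 ≤ A := hB0.trans hBA
  have hA1 : A ≤ 1 := by
    rw [hA]
    refine max_le hx1 ?_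
    calc ω * v p.2 ≤ 1 * 1 := mul_le_mul hω1 hz1 (v.nonneg _) zero_le_one
      _ = 1 := one_mul 1
  have hωA : ω ≤ A := by
    have h : N2 v 1 p = max (v p.1) (1 * v p.2) := rfl
    rw [h, one_mul] at hp
    rcases max_choice (v p.1) (v p.2) with h1 | h1
    · rw [h1] at hp
      rw [hp] at hxA
      exact hω1.trans hxA
    · rw [h1] at hp
      rw [hp, mul_one] at hzA
      exact hzA
  have hTA : v t ≤ A ^ 2 := by
    rw [← hωt]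
    exact pow_le_pow_left₀ hω.le hωA 2
  have hs1 : v (p.1 * q.1) ≤ A * B := by
    rw [v.map_mul]
    exact mul_le_mul hxA hxB (v.nonneg _) hA0
  have hs2 : v (p.1 * q.2 + q.1 * p.2) ≤ 2 * A := by
    refine (v_add v _ _).trans ?_
    rw [v.map_mul, v.map_mul]
    have h1 : v p.1 * v q.2 ≤ A * 1 := mul_le_mul hxA hz2 (v.nonneg _) hA0
    have h2 : v q.1 * v p.2 ≤ B * 1 := mul_le_mul hxB hz1 (v.nonneg _) hB0
    linarith
  have hs3 : v (p.2 * q.2) ≤ 1 := by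
    rw [v.map_mul]
    calc v p.2 * v q.2 ≤ 1 * 1 := mul_le_mul hz1 hz2 (v.nonneg _) zero_le_one
      _ = 1 := one_mul 1
  obtain ⟨r1, r2, r3⟩ := D2b_real (v.nonneg t) ht1 hTA hA1 hB0 hBA (v.nonneg (p.1 * q.1))
    (v.nonneg (p.1 * q.2 + q.1 * p.2)) (v.nonneg (p.2 * q.2)) hs1 hs2 hs3
  rw [asm_Et]
  unfold N3
  refine max_le ?_ (max_le ?_ ?_)
  · exact (D2b_asm1 v _ _ _ _).trans r1
  · rw [one_mul]
    exact (D2b_asm2 v _ _ _ _).trans r2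
  · rw [one_pow, one_mul]
    exact (D2b_asm3 v _ _ _).trans r3

end Pool.Agent.Lib.H90L
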