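import Pool.Agent.Lib.H90L.AV

/-!
# H90L, D2f: real lemmas for D2c
-/

set_option autoImplicit false

namespace Pool.Agent.Lib.H90L

open Pool.Agent.H38LS

universe u



/-- Real lemma: the first two terms. `N` is the norm, `s = |s₁|`, `T = |t| = ω²`. PROOF. If `s² ≥ 10 ω²`: `N ≥ s²/2`. Else if `s ≥ ω/4`: `N ≥ w (s/2 - 22 ω²) ≥ ω (ω/8 - 22 ω²) ≥ ω²/16`
(`ω ≤ 10^(-6)`). Else `s < ω/4`: `N ≥ ω² (1 - 1/16 - 18 ω - 1/4) ≥ ω²/2`. So `ω² ≤ 16 N` and `s² ≤ 160 N`. -/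
theorem real_T {s ω w N : ℝ} (hs : 0 ≤ s) (hω : 0 < ω) (hω1 : ω ≤ 1 / 1000000) (hw : ω ≤ w) (hw1 : w ≤ 1)
    (h1 : s ^ 2 - 5 * ω ^ 2 ≤ N) (h2 : ω ^ 2 - s ^ 2 - ω ^ 2 * (72 * s + 1 / 4) ≤ N) (h3 : w * (s / 2 - 22 * ω ^ 2) ≤ N) :
    ω ^ 2 ≤ 16 * N ∧ s ^ 2 ≤ 160 * N := by
  have hω2 : 0 < ω ^ 2 := by positivity
  rcases le_or_gt (10 * ω ^ 2) (s ^ 2) with h | h
  · exact ⟨by linarith, by linarith⟩
  · have key : ω ^ 2 ≤ 16 * N := by
      rcases le_or_gt (ω / 4) s with h4 | h4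
      · have h5 : ω / 16 ≤ s / 2 - 22 * ω ^ 2 := by
          have h6 : ω ^ 2 ≤ 1 / 1000000 * ω := by
            rw [sq]
            exact mul_le_mul_of_nonneg_right hω1 hω.le
          linarith
        have h7 : ω * (ω / 16) ≤ w * (s / 2 - 22 * ω ^ 2) :=
          mul_le_mul hw h5 (by positivity) (by linarith)
        have h8 : ω * (ω / 16) = ω ^ 2 / 16 := by ring
        rw [h8] at h7
        linarith
      · have h5 : s ^ 2 ≤ ω ^ 2 / 16 := by
          have h6 : s ^ 2 ≤ (ω / 4) ^ 2 := pow_le_pow_left₀ hs h4.le 2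
          have h7 : (ω / 4) ^ 2 = ω ^ 2 / 16 := by ring
          linarith
        have h8 : ω ^ 2 * (72 * s + 1 / 4) ≤ ω ^ 2 * (1 / 2) := by
          apply mul_le_mul_of_nonneg_left _ hω2.le
          linarith
        linarith
    exact ⟨key, by linarith⟩

/-- Real lemma. `x = |X₁|`, `y = |X₂|`, `A = max x ω`, `B = max y ω`, `B ≤ A`. PROOF. `real_T` with `s = x y` gives `ω² ≤ 16 N`, `(x y)² ≤ 160 N`.
`A² B² ≤ max (x y)² (ω²)`: `A B = max (x y) (ω x) (ω y) (ω²)` and `x, y, ω ≤ 1`.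
`w A B ≤ 1408 N`, in the case `ω ≤ x`, `ω ≤ y`: `A B = x y`; if `x y ≥ 88 ω²` then `N ≥ w (x y/2 - x y/4)`; else `w A B ≤ 88 ω² ≤ 1408 N`.
If `y < ω` (`B = ω`) and `A ≤ 2 B`: `w A B ≤ 2 ω² ≤ 32 N`. If `x < ω`: `A = B = ω`, `w A B ≤ ω² ≤ 16 N`.
If `2 B < A`: `A = x`, `x - y ≥ A/2`, so `w² A² ≤ 4 N`; if moreover `y < ω`: `w A ω ≤ (w² A² + ω²)/2 ≤ 10 N`.
`w² A²` for `A ≤ 2 B`: `w² A² ≤ 2 w A B`. -/
theorem real_small {x y ω w A B N : ℝ} (hx : 0 ≤ x) (hy : 0 ≤ y) (hx1 : x ≤ 1) (hy1 : y ≤ 1) (hω : 0 < ω) (hω1 : ω ≤ 1 / 1000000)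
    (hw : ω ≤ w) (hw1 : w ≤ 1) (hA : A = max x ω) (hB : B = max y ω) (hBA : B ≤ A)
    (h1 : (x * y) ^ 2 - 5 * ω ^ 2 ≤ N) (h2 : ω ^ 2 - (x * y) ^ 2 - ω ^ 2 * (72 * (x * y) + 1 / 4) ≤ N)
    (h3 : w * (x * y / 2 - 22 * ω ^ 2) ≤ N) (h4 : w ^ 2 * (x - y) ^ 2 ≤ N) :
    max (max (w ^ 2 * A ^ 2) (w * (A * B))) (max (A ^ 2 * B ^ 2) (ω ^ 2)) ≤ 3000 * N := by
  obtain ⟨hT1, hT2⟩ := real_T (mul_nonneg hx hy) hω hω1 hw hw1 h1 h2 h3
  have hω2 : 0 < ω ^ 2 := by positivity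
  have hN : 0 ≤ N := by linarith
  have hw0 : 0 < w := lt_of_lt_of_le hω hw
  have hωB : ω ≤ B := by rw [hB]; exact le_max_right _ _
  have hB0 : 0 < B := lt_of_lt_of_le hω hωB
  have hA0 : 0 < A := lt_of_lt_of_le hB0 hBA
  have hyB : y ≤ B := by rw [hB]; exact le_max_left _ _
  have hbig : 2 * B < A → w ^ 2 * A ^ 2 ≤ 4 * N := by
    intro h
    have hAx : A = x := by
      rcases le_total ω x with h5 | h5
      · rw [hA, max_eq_left h5]
      · rw [hA, max_eq_right h5] at h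
        exfalso
        linarith
    have h5 : A / 2 ≤ x - y := by
      rw [← hAx]
      linarith
    have h6 : (A / 2) ^ 2 ≤ (x - y) ^ 2 := pow_le_pow_left₀ (by positivity) h5 2
    have h7 : w ^ 2 * (A / 2) ^ 2 ≤ w ^ 2 * (x - y) ^ 2 :=
      mul_le_mul_of_nonneg_left h6 (by positivity)
    have h8 : w ^ 2 * (A / 2) ^ 2 = w ^ 2 * A ^ 2 / 4 := by ring
    linarith
  have h_ii : w * (A * B) ≤ 1408 * N ∧ A ^ 2 * B ^ 2 ≤ 160 * N := by
    rcases le_total x ω with hx3 | hx3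
    · have hAω : A = ω := by rw [hA, max_eq_right hx3]
      have hBω : B = ω := le_antisymm (by rw [← hAω]; exact hBA) hωB
      rw [hAω, hBω]
      have h5 : w * (ω * ω) ≤ ω * ω := mul_le_of_le_one_left (by positivity) hw1
      have h6 : ω ^ 2 * ω ^ 2 ≤ ω ^ 2 := mul_le_of_le_one_left hω2.le (pow_le_one₀ hω.le (by linarith))
      have h7 : ω * ω = ω ^ 2 := by ring
      exact ⟨by linarith, by linarith⟩
    · have hAx : A = x := by rw [hA, max_eq_left hx3]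
      rcases le_total ω y with hy3 | hy3
      · have hBy : B = y := by rw [hB, max_eq_left hy3]
        rw [hAx, hBy, ← mul_pow]
        refine ⟨?_, hT2⟩
        rcases le_or_gt (88 * ω ^ 2) (x * y) with h5 | h5
        · have h6 : w * (x * y / 4) ≤ w * (x * y / 2 - 22 * ω ^ 2) := by
            apply mul_le_mul_of_nonneg_left _ hw0.le
            linarith
          have h7 : w * (x * y / 4) = w * (x * y) / 4 := by ring
          linarith
        · have h6 : w * (x * y) ≤ x * y := mul_le_of_le_one_left (mul_nonneg hx hy) hw1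
          linarith
      · have hBω : B = ω := by rw [hB, max_eq_right hy3]
        constructor
        · rcases le_or_gt A (2 * B) with h5 | h5
          · have h6 : w * (A * B) ≤ A * B := mul_le_of_le_one_left (by positivity) hw1
            have h7 : A * B ≤ 2 * B * B := mul_le_mul_of_nonneg_right h5 hB0.le
            rw [hBω] at h6 h7 ⊢
            have h8 : 2 * ω * ω = 2 * ω ^ 2 := by ring
            linarith
          · have h6 := hbig h5
            rw [hBω]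
            have h7 : 0 ≤ (w * A - ω) ^ 2 := sq_nonneg _
            have h8 : (w * A - ω) ^ 2 = w ^ 2 * A ^ 2 - 2 * (w * (A * ω)) + ω ^ 2 := by ring
            linarith
        · rw [hBω, hAx]
          have h6 : x ^ 2 * ω ^ 2 ≤ ω ^ 2 := mul_le_of_le_one_left hω2.le (pow_le_one₀ hx hx1)
          linarith
  refine max_le (max_le ?_ ?_) (max_le ?_ ?_)
  · rcases le_or_gt A (2 * B) with h5 | h5
    · have h6 : A * A ≤ A * (2 * B) := mul_le_mul_of_nonneg_left h5 hA0.le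
      have h7 : w ^ 2 * A ^ 2 ≤ w * (A * A) := by
        have h8 : w ^ 2 * A ^ 2 = w * (w * (A * A)) := by ring
        rw [h8]
        exact mul_le_of_le_one_left (by positivity) hw1
      have h9 : w * (A * A) ≤ w * (A * (2 * B)) := mul_le_mul_of_nonneg_left h6 hw0.le
      have h10 : w * (A * (2 * B)) = 2 * (w * (A * B)) := by ring
      linarith [h_ii.1]
    · linarith [hbig h5]
  · linarith [h_ii.1]
  · linarith [h_ii.2]
  · linarith

end Pool.Agent.Lib.H90L
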