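import Pool.Agent.Lib.H90L.D2e
import Pool.Agent.Lib.H90L.D2f

/-!
# H90L, D2c: lower bound of the norm of `asm (sym p q)` on `E_t`, any absolute value, `|t|` small, `A < 1/64`

Notation as in D2b. Here `|X₁|, |X₂| ≤ A < 1/64`, so `|Z₁| = |Z₂| = 1 = |s₃|`, `A = max |X₁| ω`, `B = max |X₂| ω`, `|s₁| = |X₁| |X₂|`, `|s₂| ≤ 2 A ≤ 1/32`.
-/

set_option autoImplicit false

namespace Pool.Agent.Lib.H90L

open Pool.Agent.H38LS

universe u

variable {K : Type u} [Field K] (v : AbsoluteValue K ℝ)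

/-- PROOF. `asm_coord`, `real_small` with `N = N3_w (asm (sym p q))`. -/
theorem le_asm_small {t : K} (ht : 0 < v t) (ht1 : v t ≤ 1 / 1000000000000) {ω w A B : ℝ} (hω : 0 < ω) (hωt : ω ^ 2 = v t)
    (hw : ω ≤ w) (hw1 : w ≤ 1) {p q : K × K}
    (hp : N2 v 1 p = 1) (hq : N2 v 1 q = 1) (hA : A = N2 v ω p) (hB : B = N2 v ω q) (hBA : B ≤ A) (hA64 : A < 1 / 64) :
    max (max (w ^ 2 * A ^ 2) (w * (A * B))) (max (A ^ 2 * B ^ 2) (v t)) ≤ 3000 * N3 v w (asm (Et t) (sym p q)) := by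
  have hω1 : ω ≤ 1 / 1000000 := by
    have h1 : ω ^ 2 ≤ (1 / 1000000) ^ 2 := by rw [hωt]; norm_num; linarith
    exact (pow_le_pow_iff_left₀ hω.le (by norm_num) two_ne_zero).1 h1
  have hpX : v p.1 < 1 / 64 := lt_of_le_of_lt (by rw [hA]; exact le_max_left _ _) hA64
  have hqX : v q.1 < 1 / 64 := lt_of_le_of_lt ((le_max_left _ _).trans_eq hB.symm |>.trans hBA) hA64
  have hZ : ∀ r : K × K, N2 v 1 r = 1 → v r.1 < 1 / 64 → v r.2 = 1 := by
    intro r hr hr1
    unfold N2 at hr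
    rw [one_mul] at hr
    rcases le_total (v r.1) (v r.2) with h | h
    · rw [max_eq_right h] at hr; exact hr
    · rw [max_eq_left h] at hr; linarith
  have hp2 := hZ p hp hpX
  have hq2 := hZ q hq hqX
  obtain ⟨c1, c2, c3, c4⟩ := asm_coord v ht1 hpX hqX hp2 hq2
  set N := N3 v w (asm (Et t) (sym p q)) with hN
  have hw0 : 0 < w := lt_of_lt_of_le hω hw
  have hN1 : v (asm (Et t) (sym p q)).1 ≤ N := le_max_left _ _
  have hN2 : w * v (asm (Et t) (sym p q)).2.1 ≤ N := (le_max_left _ _).trans (le_max_right _ _)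
  have hN3 : w ^ 2 * v (asm (Et t) (sym p q)).2.2 ≤ N := (le_max_right _ _).trans (le_max_right _ _)
  have hA' : A = max (v p.1) ω := by rw [hA, N2, hp2, mul_one]
  have hB' : B = max (v q.1) ω := by rw [hB, N2, hq2, mul_one]
  rw [← hωt] at c1 c2 c3 ⊢
  refine real_small (v.nonneg _) (v.nonneg _) (by linarith) (by linarith) hω hω1 hw hw1 hA' hB' hBA
    (c1.trans hN1) (c2.trans hN1) ?_ ?_
  · exact (mul_le_mul_of_nonneg_left c3 hw0.le).trans hN2
  · exact (mul_le_mul_of_nonneg_left c4 (by positivity)).trans hN3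

end Pool.Agent.Lib.H90L
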