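import Pool.Agent.Lib.H90L.AV
import Pool.Agent.Lib.H90L.A2b

/-!
# H90L, D2d: lower bound of the norm of `asm (sym p q)` for `A ≥ 1/64` (notation of D2b)
-/

set_option autoImplicit false

namespace Pool.Agent.Lib.H90L

open Pool.Agent.H38LS

universe u

variable {K : Type u} [Field K] (v : AbsoluteValue K ℝ)

private theorem D2d_rest {t s1 s2 s3 : K} (ht1 : v t ≤ 1) (h1 : v s1 ≤ 1) (h2 : v s2 ≤ 2)
    (h3 : v s3 ≤ 1) :
    v (72 * t * s1 * s3 + 4 * t * s2 * s3 + (t + 1296 * t ^ 2) * s3 ^ 2) ≤ 1377 * v t := by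
  have t0 := v.nonneg t
  have n1 := v.nonneg s1
  have n2 := v.nonneg s2
  have n3 := v.nonneg s3
  have e1 : v (72 * t * s1 * s3) ≤ 72 * v t := by
    rw [map_mul, map_mul, map_mul]
    have h : v (72 : K) * v t ≤ 72 * v t := mul_le_mul_of_nonneg_right (v_ofNat v 72) t0
    calc v (72 : K) * v t * v s1 * v s3 ≤ (72 * v t) * 1 * 1 := by
          refine mul_le_mul (mul_le_mul h h1 n1 (by positivity)) h3 n3 (by positivity)
      _ = 72 * v t := by ring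
  have e2 : v (4 * t * s2 * s3) ≤ 8 * v t := by
    rw [map_mul, map_mul, map_mul]
    have h : v (4 : K) * v t ≤ 4 * v t := mul_le_mul_of_nonneg_right (v_ofNat v 4) t0
    calc v (4 : K) * v t * v s2 * v s3 ≤ (4 * v t) * 2 * 1 := by
          refine mul_le_mul (mul_le_mul h h2 n2 (by positivity)) h3 n3 (by positivity)
      _ = 8 * v t := by ring
  have e3 : v ((t + 1296 * t ^ 2) * s3 ^ 2) ≤ 1297 * v t := by
    rw [map_mul, map_pow]
    have h : v (t + 1296 * t ^ 2) ≤ 1297 * v t := by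
      refine (v_add v _ _).trans ?_
      have h4 : v (1296 * t ^ 2) ≤ 1296 * v t := by
        refine (v_ofNat_mul v 1296 _).trans ?_
        rw [map_pow]
        have : v t ^ 2 ≤ v t := by
          rw [pow_two]
          exact mul_le_of_le_one_left t0 ht1
        linarith
      linarith
    have h5 : v s3 ^ 2 ≤ 1 := pow_le_one₀ n3 h3
    calc v (t + 1296 * t ^ 2) * v s3 ^ 2 ≤ (1297 * v t) * 1 :=
          mul_le_mul h h5 (by positivity) (by positivity)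
      _ = 1297 * v t := by ring
  refine (v_add v _ _).trans ?_
  have e4 := v_add v (72 * t * s1 * s3) (4 * t * s2 * s3)
  linarith

private theorem D2d_one {t s1 s2 s3 : K} (ht1 : v t ≤ 1) (h1 : v s1 ≤ 1) (h2 : v s2 ≤ 2)
    (h3 : v s3 ≤ 1) :
    v s1 ^ 2 - 1377 * v t ≤
      v (s1 ^ 2 + 72 * t * s1 * s3 + 4 * t * s2 * s3 + (t + 1296 * t ^ 2) * s3 ^ 2) := by
  have h := v_sub_le v (s1 ^ 2)
    (72 * t * s1 * s3 + 4 * t * s2 * s3 + (t + 1296 * t ^ 2) * s3 ^ 2)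
  have h4 := D2d_rest v ht1 h1 h2 h3
  rw [map_pow] at h
  have e : s1 ^ 2 + 72 * t * s1 * s3 + 4 * t * s2 * s3 + (t + 1296 * t ^ 2) * s3 ^ 2 =
      s1 ^ 2 + (72 * t * s1 * s3 + 4 * t * s2 * s3 + (t + 1296 * t ^ 2) * s3 ^ 2) := by ring
  rw [e]
  linarith

private theorem D2d_three (X1 Z1 X2 Z2 : K) (h1 : 1 / 64 ≤ v X1) (h2 : v Z1 ≤ 1)
    (h3 : v X2 ≤ 1 / 128) (h4 : v Z2 = 1) :
    1 / 16384 ≤ v ((X1 * Z2 + X2 * Z1) ^ 2 - 4 * (X1 * X2) * (Z1 * Z2)) := by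
  have e : (X1 * Z2 + X2 * Z1) ^ 2 - 4 * (X1 * X2) * (Z1 * Z2) = (X1 * Z2 - X2 * Z1) ^ 2 := by
    ring
  rw [e, map_pow]
  have h5 := v_sub_le' v (X1 * Z2) (X2 * Z1)
  rw [map_mul, map_mul, h4, mul_one] at h5
  have h6 : v X2 * v Z1 ≤ 1 / 128 * 1 :=
    mul_le_mul h3 h2 (v.nonneg _) (by norm_num)
  have h7 : 1 / 128 ≤ v (X1 * Z2 - X2 * Z1) := by linarith
  calc (1 : ℝ) / 16384 = (1 / 128) ^ 2 := by norm_num
    _ ≤ v (X1 * Z2 - X2 * Z1) ^ 2 := pow_le_pow_left₀ (by norm_num) h7 2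

private theorem D2d_real {a b ω T : ℝ} (ha : 1 / 64 ≤ a) (hω : 0 < ω) (hT : ω ^ 2 = T)
    (hb : 3400 * ω ≤ b) : b ^ 2 ≤ 8192 * ((a * b) ^ 2 - 1377 * T) := by
  have hb0 : 0 < b := by linarith
  have h1 : (b / 64) ^ 2 ≤ (a * b) ^ 2 := by
    refine pow_le_pow_left₀ (by positivity) ?_ 2
    have := mul_le_mul_of_nonneg_right ha hb0.le
    linarith
  have h2 : (3400 * ω) ^ 2 ≤ b ^ 2 := pow_le_pow_left₀ (by positivity) hb 2
  have h3 : 11560000 * T ≤ b ^ 2 := by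
    rw [← hT]
    calc 11560000 * ω ^ 2 = (3400 * ω) ^ 2 := by ring
      _ ≤ b ^ 2 := h2
  have h4 : (b / 64) ^ 2 = b ^ 2 / 4096 := by ring
  rw [h4] at h1
  have h5 : 0 ≤ T := by
    rw [← hT]
    positivity
  linarith

/-- PROOF. `ω ≤ 10^(-6)`. `A = |X₁| ≥ 1/64` (as `ω < 1/64`). (a) `|X₂| ≥ 3400 ω`: `B = |X₂|`, `|s₁| = A B ≥ B/64`, and
`|asm₁| ≥ |s₁|² - 1377 |t| ≥ B²/4096 - 1377 B²/3400² ≥ B²/8192`. If `B ≥ 1/128` this also bounds `w² ≤ 1 ≤ 128² B²`. If `B < 1/128`: `|Z₂| = 1` and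
`|X₁ Z₂ - Z₁ X₂| ≥ 1/64 - 1/128`, `|asm₃| ≥ 1/16384`. (b) `|X₂| < 3400 ω ≤ 1/128`: `|Z₂| = 1`, `|asm₃| ≥ 1/16384`, `B ≤ 3400 ω ≤ 3400 w`, so
`B² ≤ 3400² w² ≤ 3400² * 16384 * w² |asm₃|`. -/
theorem le_asm_big {t : K} (ht : 0 < v t) (ht1 : v t ≤ 1 / 1000000000000) {ω w A B : ℝ} (hω : 0 < ω) (hωt : ω ^ 2 = v t)
    (hw : ω ≤ w) (hw1 : w ≤ 1) {p q : K × K}
    (hp : N2 v 1 p = 1) (hq : N2 v 1 q = 1) (hA : A = N2 v ω p) (hB : B = N2 v ω q) (hBA : B ≤ A) (hA64 : 1 / 64 ≤ A) :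
    max (w ^ 2) (B ^ 2) ≤ 1000000000000 * N3 v w (asm (Et t) (sym p q)) := by
  obtain ⟨X1, Z1⟩ := p
  obtain ⟨X2, Z2⟩ := q
  unfold N2 at hp hq hA hB
  simp only [one_mul] at hp hq hA hB
  have hω6 : ω ≤ 1 / 1000000 := by
    apply le_of_sq_le_sq _ (by norm_num)
    rw [hωt]
    calc v t ≤ 1 / 1000000000000 := ht1
      _ = (1 / 1000000) ^ 2 := by norm_num
  have hX1 : v X1 ≤ 1 := by rw [← hp]; exact le_max_left _ _
  have hZ1 : v Z1 ≤ 1 := by rw [← hp]; exact le_max_right _ _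
  have hX2 : v X2 ≤ 1 := by rw [← hq]; exact le_max_left _ _
  have hZ2 : v Z2 ≤ 1 := by rw [← hq]; exact le_max_right _ _
  have hωZ1 : ω * v Z1 ≤ ω := mul_le_of_le_one_right hω.le hZ1
  have hωZ2 : ω * v Z2 ≤ ω := mul_le_of_le_one_right hω.le hZ2
  have hA1 : 1 / 64 ≤ v X1 := by
    rw [hA, le_max_iff] at hA64
    rcases hA64 with h | h
    · exact h
    · exfalso
      linarith
  have hw0 : 0 < w := lt_of_lt_of_le hω hw
  rw [asm_Et]
  unfold N3 sym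
  simp only
  set M1 := v ((X1 * X2) ^ 2 + 72 * t * (X1 * X2) * (Z1 * Z2) + 4 * t * (X1 * Z2 + X2 * Z1) * (Z1 * Z2) +
      (t + 1296 * t ^ 2) * (Z1 * Z2) ^ 2) with hM1
  set M2 := v ((X1 * X2) * (2 * (X1 * Z2 + X2 * Z1) + Z1 * Z2) - 72 * t * (X1 * Z2 + X2 * Z1) * (Z1 * Z2) -
      4 * t * (Z1 * Z2) ^ 2) with hM2
  set M3 := v ((X1 * Z2 + X2 * Z1) ^ 2 - 4 * (X1 * X2) * (Z1 * Z2)) with hM3
  have hN1 : M1 ≤ max M1 (max (w * M2) (w ^ 2 * M3)) := le_max_left _ _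
  have hN3 : w ^ 2 * M3 ≤ max M1 (max (w * M2) (w ^ 2 * M3)) :=
    (le_max_right _ _).trans (le_max_right _ _)
  generalize max M1 (max (w * M2) (w ^ 2 * M3)) = N at hN1 hN3
  have hw2 : 0 < w ^ 2 := by positivity
  have hw21 : w ^ 2 ≤ 1 := pow_le_one₀ hw0.le hw1
  have key1 : v X2 ≤ 1 / 128 → w ^ 2 ≤ 16384 * N := by
    intro h
    have hz : v Z2 = 1 := by
      rcases le_total (v X2) (v Z2) with h5 | h5
      · rw [max_eq_right h5] at hq
        exact hq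
      · rw [max_eq_left h5] at hq
        linarith
    have h6 : 1 / 16384 ≤ M3 := D2d_three v X1 Z1 X2 Z2 hA1 hZ1 h hz
    have h7 : w ^ 2 * (1 / 16384) ≤ w ^ 2 * M3 := mul_le_mul_of_nonneg_left h6 hw2.le
    linarith
  have hv1 : v (X1 * X2) ≤ 1 := by
    rw [map_mul]
    exact mul_le_one₀ hX1 (v.nonneg _) hX2
  have hv2 : v (X1 * Z2 + X2 * Z1) ≤ 2 := by
    refine (v_add v _ _).trans ?_
    rw [map_mul, map_mul]
    have e1 := mul_le_one₀ hX1 (v.nonneg _) hZ2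
    have e2 := mul_le_one₀ hX2 (v.nonneg _) hZ1
    linarith
  have hv3 : v (Z1 * Z2) ≤ 1 := by
    rw [map_mul]
    exact mul_le_one₀ hZ1 (v.nonneg _) hZ2
  have hone := D2d_one v (ht1.trans (by norm_num)) hv1 hv2 hv3
  rw [map_mul] at hone
  have h0X2 : 0 ≤ v X2 := v.nonneg _
  rcases le_total (3400 * ω) (v X2) with hc | hc
  · have hBX : B = v X2 := by
      rw [hB, max_eq_left]
      linarith
    have h8 := D2d_real hA1 hω hωt hc
    have h9 : v X2 ^ 2 ≤ 8192 * N := by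
      calc v X2 ^ 2 ≤ 8192 * ((v X1 * v X2) ^ 2 - 1377 * v t) := h8
        _ ≤ 8192 * M1 := mul_le_mul_of_nonneg_left hone (by norm_num)
        _ ≤ 8192 * N := mul_le_mul_of_nonneg_left hN1 (by norm_num)
    have hN0 : 0 ≤ N := by
      have := sq_nonneg (v X2)
      linarith
    rw [hBX]
    refine max_le ?_ (by linarith)
    rcases le_total (v X2) (1 / 128) with h10 | h10
    · have := key1 h10
      linarith
    · have h11 : (1 / 128 : ℝ) ^ 2 ≤ v X2 ^ 2 := pow_le_pow_left₀ (by norm_num) h10 2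
      norm_num at h11
      linarith
  · have h12 := key1 (by linarith)
    have hN0 : 0 ≤ N := by linarith
    have hB3 : B ≤ 3400 * w := by
      rw [hB]
      refine max_le (by linarith) (by linarith)
    have hB0 : 0 ≤ B := by
      rw [hB]
      exact le_max_of_le_left h0X2
    have h13 : B ^ 2 ≤ (3400 * w) ^ 2 := pow_le_pow_left₀ hB0 hB3 2
    have h14 : (3400 * w) ^ 2 = 11560000 * w ^ 2 := by ring
    rw [h14] at h13
    refine max_le (by linarith) (by linarith)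

end Pool.Agent.Lib.H90L
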