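import Pool.Agent.Lib.H90L.D2a
import Pool.Agent.Lib.H90L.D2b
import Pool.Agent.Lib.H90L.D2c
import Pool.Agent.Lib.H90L.D2d
import Pool.Agent.Lib.H90L.R1

/-!
# H90L, D2
-/

set_option autoImplicit false

namespace Pool.Agent.Lib.H90L

open Pool.Agent.H38LS

universe u

variable {K : Type u} [Field K] (v : AbsoluteValue K ℝ)

private theorem D2_N3_nonneg {w : ℝ} (s : K × K × K) : 0 ≤ N3 v w s :=
  le_max_of_le_left (v.nonneg _)

/-- Both cases. PROOF. `A < 1/64`: `le_asm_small`. `A ≥ 1/64`: `le_asm_big` and `max (w² A²) (w A B) (A² B²) |t| ≤ max (w²) (B²)` (`A ≤ 1`,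
`w B ≤ max (w²) (B²)`, `|t| = ω² ≤ w²`). -/
theorem le_asm {t : K} (ht : 0 < v t) (ht1 : v t ≤ 1 / 1000000000000) {ω w A B : ℝ} (hω : 0 < ω) (hωt : ω ^ 2 = v t)
    (hw : ω ≤ w) (hw1 : w ≤ 1) {p q : K × K}
    (hp : N2 v 1 p = 1) (hq : N2 v 1 q = 1) (hA : A = N2 v ω p) (hB : B = N2 v ω q) (hBA : B ≤ A) :
    max (max (w ^ 2 * A ^ 2) (w * (A * B))) (max (A ^ 2 * B ^ 2) (v t)) ≤
      1000000000000 * N3 v w (asm (Et t) (sym p q)) := by
  have hN : 0 ≤ N3 v w (asm (Et t) (sym p q)) := D2_N3_nonneg v _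
  rcases lt_or_ge A (1 / 64) with hA64 | hA64
  · refine (le_asm_small v ht ht1 hω hωt hw hw1 hp hq hA hB hBA hA64).trans ?_
    linarith
  · refine le_trans ?_ (le_asm_big v ht ht1 hω hωt hw hw1 hp hq hA hB hBA hA64)
    have hA1 : A ≤ 1 := by
      rw [hA, ← hp]
      exact N2_mono v (hw.trans hw1) p
    have hB0 : 0 ≤ B := by
      rw [hB]
      exact N2_nonneg v q
    have hA0 : 0 ≤ A := hB0.trans hBA
    have hw0 : 0 ≤ w := hω.le.trans hw
    have hA2 : A ^ 2 ≤ 1 := pow_le_one₀ hA0 hA1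
    refine max_le (max_le ?_ ?_) (max_le ?_ ?_)
    · refine le_max_of_le_left ?_
      calc w ^ 2 * A ^ 2 ≤ w ^ 2 * 1 := mul_le_mul_of_nonneg_left hA2 (by positivity)
        _ = w ^ 2 := mul_one _
    · have h1 : w * (A * B) ≤ w * B := by
        refine mul_le_mul_of_nonneg_left ?_ hw0
        calc A * B ≤ 1 * B := mul_le_mul_of_nonneg_right hA1 hB0
          _ = B := one_mul _
      refine h1.trans ?_
      rcases le_total w B with h | h
      · refine le_max_of_le_right ?_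
        rw [sq]
        exact mul_le_mul_of_nonneg_right h hB0
      · refine le_max_of_le_left ?_
        rw [sq]
        exact mul_le_mul_of_nonneg_left h hw0
    · refine le_max_of_le_right ?_
      calc A ^ 2 * B ^ 2 ≤ 1 * B ^ 2 := mul_le_mul_of_nonneg_right hA2 (by positivity)
        _ = B ^ 2 := one_mul _
    · refine le_max_of_le_left ?_
      rw [← hωt]
      exact pow_le_pow_left₀ hω.le hw 2

private theorem D2_aux {t : K} (ht : 0 < v t) (ht1 : v t ≤ 1 / 1000000000000) {L : ℝ} (hL : L = -Real.log (v t))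
    {p q : K × K} (hp : p ≠ 0) (hq : q ≠ 0) {o : ℝ} (ho : 0 ≤ o) (hoL : o ≤ L / 2)
    (hab : al v L p ≤ al v L q) :
    N3 v 1 (asm (Et t) (sym p q)) ≤ 2000 * 1000000000000 * N3 v (Real.exp (-o)) (asm (Et t) (sym p q)) *
      Real.exp (min |al v L p - al v L q| o + min (fold L (al v L p + al v L q)) o) := by
  have ht1' : v t ≤ 1 := ht1.trans (by norm_num)
  have hL0 : 0 ≤ L := by
    rw [hL]
    have := Real.log_nonpos ht.le ht1'
    linarith
  obtain ⟨c, hc, hcp⟩ := exists_norm v hp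
  obtain ⟨e, he, heq⟩ := exists_norm v hq
  have hp' : c • p ≠ 0 := smul_ne_zero hc hp
  have hq' : e • q ≠ 0 := smul_ne_zero he hq
  have hsc : asm (Et t) (sym (c • p) (e • q)) = (c * e) ^ 2 • asm (Et t) (sym p q) := by
    rw [sym_smul, asm_smul]
  have hce : 0 < v ((c * e) ^ 2) := v.pos (pow_ne_zero _ (mul_ne_zero hc he))
  have hwω : Real.exp (-(L / 2)) ≤ Real.exp (-o) := Real.exp_le_exp.2 (neg_le_neg hoL)
  have hw1 : Real.exp (-o) ≤ 1 := Real.exp_le_one_iff.2 (by linarith)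
  have hA : Real.exp (-al v L p) = N2 v (Real.exp (-(L / 2))) (c • p) := by
    rw [N2_eq_exp_al v L hp', hcp, one_mul, al_smul v hc]
  have hB : Real.exp (-al v L q) = N2 v (Real.exp (-(L / 2))) (e • q) := by
    rw [N2_eq_exp_al v L hq', heq, one_mul, al_smul v he]
  have hBA : Real.exp (-al v L q) ≤ Real.exp (-al v L p) := Real.exp_le_exp.2 (neg_le_neg hab)
  have h1 := asm_le v ht1' (Real.exp_pos _) (sq_exp ht hL) hcp heq hA hB hBA
  have h2 := le_asm v ht ht1 (Real.exp_pos _) (sq_exp ht hL) hwω hw1 hcp heq hA hB hBA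
  have h3 := trop (al_nonneg v hL0 hp) hab (al_le v hL0 hq) ho hoL
  have h4 : Real.exp (-L) = v t := by
    rw [hL, neg_neg, Real.exp_log ht]
  rw [h4] at h3
  rw [← h3, hsc, N3_smul] at h2
  rw [hsc, N3_smul] at h1
  have h5 : |al v L p - al v L q| = al v L q - al v L p := by
    rw [abs_sub_comm, abs_of_nonneg (sub_nonneg.2 hab)]
  rw [h5]
  set a := al v L p with ha
  set b := al v L q with hb
  set m := min (b - a) o + min (fold L (a + b)) o with hm
  have h6 : Real.exp (-a) ^ 2 = Real.exp (-(2 * a + min (b - a) o + min (fold L (a + b)) o)) * Real.exp m := by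
    rw [← Real.exp_nat_mul, ← Real.exp_add, hm]
    congr 1
    push_cast
    ring
  rw [h6] at h1
  have h7 : v ((c * e) ^ 2) * N3 v 1 (asm (Et t) (sym p q)) ≤
      v ((c * e) ^ 2) * (2000 * 1000000000000 * N3 v (Real.exp (-o)) (asm (Et t) (sym p q)) * Real.exp m) := by
    refine h1.trans ?_
    have h8 := mul_le_mul_of_nonneg_right h2 (Real.exp_pos m).le
    calc 2000 * (Real.exp (-(2 * a + min (b - a) o + min (fold L (a + b)) o)) * Real.exp m)
        ≤ 2000 * (1000000000000 * (v ((c * e) ^ 2) * N3 v (Real.exp (-o)) (asm (Et t) (sym p q))) * Real.exp m) :=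
          mul_le_mul_of_nonneg_left h8 (by norm_num)
      _ = _ := by ring
  exact le_of_mul_le_mul_left h7 hce

/-- PROOF. By symmetry (`sym_comm`, `abs_sub_comm`, `add_comm`) `al p ≤ al q`. Scale to norm one (both norms are multiplied by the same factor). With `ω = e^(-L/2)`, `A = e^(-al p)`,
`B = e^(-al q)`, `w = e^(-o)`: `N3_1 ≤ 2000 A²` (`asm_le`), `10^12 N3_w ≥ max ... = exp (-(2 al p + min (al q - al p) o + min (fold (al p + al q)) o))` (`le_asm`, `trop`), and `A² = e^(-2 al p)`. -/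
theorem asm_ratio {t : K} (ht : 0 < v t) (ht1 : v t ≤ 1 / 1000000000000) {L : ℝ} (hL : L = -Real.log (v t))
    {p q : K × K} (hp : p ≠ 0) (hq : q ≠ 0) {o : ℝ} (ho : 0 ≤ o) (hoL : o ≤ L / 2) :
    N3 v 1 (asm (Et t) (sym p q)) ≤ 2000 * 1000000000000 * N3 v (Real.exp (-o)) (asm (Et t) (sym p q)) *
      Real.exp (min |al v L p - al v L q| o + min (fold L (al v L p + al v L q)) o) := by
  rcases le_total (al v L p) (al v L q) with h | h
  · exact D2_aux v ht ht1 hL hp hq ho hoL h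
  · have h1 := D2_aux v ht ht1 hL hq hp ho hoL h
    rw [sym_comm q p, abs_sub_comm, add_comm (al v L q)] at h1
    exact h1

/-- (D2). PROOF. `w = e^(-o)`. `N_w r = N_1 r e^(-min (al r) o)` (`N2_eq_exp_min`), so `exp (min (al r₁) o + min (al r₂) o) = N_1 r₁ N_1 r₂ / (N_w r₁ N_w r₂)
≤ 4 N3_1 (sym r₁ r₂) / N3_w (sym r₁ r₂)` (`le_sym`, `sym_le`) `= 4 N3_1 (asm ..) / N3_w (asm ..)` (`N3_smul`), and `asm_ratio`. `C = log (8000 * 10^12)`, `t₀ = 10^(-12)`. -/
theorem D2 : Spec.D2.{u} := by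
  intro K _ v _ _
  refine ⟨Real.log (8000 * 1000000000000), 1 / 1000000000000, by norm_num, by norm_num, ?_⟩
  intro t ht ht1 L hL p q r₁ r₂ hpq o ho hoL
  obtain ⟨hp, hq, hr₁, hr₂, l, hl, hs⟩ := hpq
  set M := min |al v L p - al v L q| o + min (fold L (al v L p + al v L q)) o with hM
  have h1 := le_sym v (zero_le_one) r₁ r₂
  have h2 := sym_le v (Real.exp_pos (-o)).le r₁ r₂
  have h3 := asm_ratio v ht ht1 hL hp hq ho hoL
  rw [← hM] at h3
  have hvl : 0 < v l := v.pos hl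
  have h4 : N3 v 1 (sym r₁ r₂) ≤ 2000 * 1000000000000 * N3 v (Real.exp (-o)) (sym r₁ r₂) * Real.exp M := by
    rw [hs, N3_smul, N3_smul]
    calc v l * N3 v 1 (asm (Et t) (sym p q)) ≤
        v l * (2000 * 1000000000000 * N3 v (Real.exp (-o)) (asm (Et t) (sym p q)) * Real.exp M) :=
          mul_le_mul_of_nonneg_left h3 hvl.le
      _ = _ := by ring
  rw [N2_eq_exp_min v ho hoL hr₁, N2_eq_exp_min v ho hoL hr₂] at h2
  have hn1 := N2_pos v one_pos hr₁
  have hn2 := N2_pos v one_pos hr₂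
  set n₁ := N2 v 1 r₁
  set n₂ := N2 v 1 r₂
  set m₁ := min (al v L r₁) o
  set m₂ := min (al v L r₂) o
  have h5 : n₁ * n₂ ≤ (n₁ * n₂) * (8000 * 1000000000000 * Real.exp (M - (m₁ + m₂))) := by
    have h6 : Real.exp (M - (m₁ + m₂)) = Real.exp M * (Real.exp (-m₁) * Real.exp (-m₂)) := by
      rw [← Real.exp_add, ← Real.exp_add]
      congr 1
      ring
    have h7 : N3 v (Real.exp (-o)) (sym r₁ r₂) * Real.exp M ≤
        2 * (n₁ * Real.exp (-m₁) * (n₂ * Real.exp (-m₂))) * Real.exp M :=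
      mul_le_mul_of_nonneg_right h2 (Real.exp_pos M).le
    calc n₁ * n₂ ≤ 2 * N3 v 1 (sym r₁ r₂) := h1
      _ ≤ 2 * (2000 * 1000000000000 * N3 v (Real.exp (-o)) (sym r₁ r₂) * Real.exp M) :=
          mul_le_mul_of_nonneg_left h4 (by norm_num)
      _ = 4000 * 1000000000000 * (N3 v (Real.exp (-o)) (sym r₁ r₂) * Real.exp M) := by ring
      _ ≤ 4000 * 1000000000000 * (2 * (n₁ * Real.exp (-m₁) * (n₂ * Real.exp (-m₂))) * Real.exp M) :=
          mul_le_mul_of_nonneg_left h7 (by norm_num)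
      _ = (n₁ * n₂) * (8000 * 1000000000000 * Real.exp (M - (m₁ + m₂))) := by
          rw [h6]
          ring
  have h8 : 1 ≤ 8000 * 1000000000000 * Real.exp (M - (m₁ + m₂)) := by
    have h9 : (n₁ * n₂) * 1 ≤ (n₁ * n₂) * (8000 * 1000000000000 * Real.exp (M - (m₁ + m₂))) := by
      rw [mul_one]
      exact h5
    exact le_of_mul_le_mul_left h9 (mul_pos hn1 hn2)
  have h10 := Real.log_le_log one_pos h8
  rw [Real.log_one, Real.log_mul (by norm_num) (Real.exp_pos _).ne', Real.log_exp] at h10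
  linarith

end Pool.Agent.Lib.H90L
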