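import Pool.Agent.Lib.H90L.AV

/-!
# H90L, D2a: Gauss's lemma up to the factor 2, any absolute value
-/

set_option autoImplicit false

namespace Pool.Agent.Lib.H90L

open Pool.Agent.H38LS

universe u

variable {K : Type u} [Field K] (v : AbsoluteValue K ℝ)

private theorem D2a_real {x1 z1 x2 z2 N : ℝ} (hx1 : 0 ≤ x1) (hz1 : 0 ≤ z1) (hx2 : 0 ≤ x2)
    (hz2 : 0 ≤ z2) (h1 : x1 * x2 ≤ N) (h3 : z1 * z2 ≤ N) (h2 : x1 * z2 - x2 * z1 ≤ N) :
    x1 * z2 ≤ 2 * N := by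
  have hN : 0 ≤ N := (mul_nonneg hx1 hx2).trans h1
  by_contra hc
  rw [not_le] at hc
  have hpos : 0 < x1 * z2 := lt_of_le_of_lt (by linarith) hc
  have hx1p : 0 < x1 := by
    rcases hx1.lt_or_eq with h | h
    · exact h
    · rw [← h, zero_mul] at hpos
      exact absurd hpos (lt_irrefl 0)
  have hz2p : 0 < z2 := by
    rcases hz2.lt_or_eq with h | h
    · exact h
    · rw [← h, mul_zero] at hpos
      exact absurd hpos (lt_irrefl 0)
  have g1 : 2 * x2 < z2 := by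
    have h : x1 * (2 * x2) < x1 * z2 := by linarith
    exact lt_of_mul_lt_mul_left h hx1
  have g2 : 2 * z1 < x1 := by
    have h : z2 * (2 * z1) < z2 * x1 := by linarith
    exact lt_of_mul_lt_mul_left h hz2
  have g3 : (2 * x2) * (2 * z1) < z2 * x1 :=
    mul_lt_mul'' g1 g2 (by linarith) (by linarith)
  linarith

/-- PROOF. Each of `|X₁ X₂|`, `w |X₁ Z₂ + X₂ Z₁|`, `w² |Z₁ Z₂|` is at most `2 N_w p N_w q`. -/
theorem sym_le {w : ℝ} (hw : 0 ≤ w) (p q : K × K) : N3 v w (sym p q) ≤ 2 * (N2 v w p * N2 v w q) := by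
  have a1 : v p.1 ≤ N2 v w p := le_max_left _ _
  have a2 : w * v p.2 ≤ N2 v w p := le_max_right _ _
  have b1 : v q.1 ≤ N2 v w q := le_max_left _ _
  have b2 : w * v q.2 ≤ N2 v w q := le_max_right _ _
  have hA : 0 ≤ N2 v w p := N2_nonneg v p
  have hB : 0 ≤ N2 v w q := N2_nonneg v q
  have hz1 : 0 ≤ w * v p.2 := mul_nonneg hw (v.nonneg _)
  have hz2 : 0 ≤ w * v q.2 := mul_nonneg hw (v.nonneg _)
  have c1 : v p.1 * v q.1 ≤ N2 v w p * N2 v w q := mul_le_mul a1 b1 (v.nonneg _) hA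
  have c2 : v p.1 * (w * v q.2) ≤ N2 v w p * N2 v w q := mul_le_mul a1 b2 hz2 hA
  have c3 : (w * v p.2) * v q.1 ≤ N2 v w p * N2 v w q := mul_le_mul a2 b1 (v.nonneg _) hA
  have c4 : (w * v p.2) * (w * v q.2) ≤ N2 v w p * N2 v w q := mul_le_mul a2 b2 hz2 hA
  have hAB : 0 ≤ N2 v w p * N2 v w q := mul_nonneg hA hB
  unfold N3 sym
  simp only
  refine max_le ?_ (max_le ?_ ?_)
  · rw [map_mul]
    linarith
  · have h := mul_le_mul_of_nonneg_left (v_add v (p.1 * q.2) (q.1 * p.2)) hw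
    rw [map_mul, map_mul] at h
    linarith
  · rw [map_mul]
    have e : w ^ 2 * (v p.2 * v q.2) = (w * v p.2) * (w * v q.2) := by ring
    rw [e]
    linarith

/-- PROOF. If the two norms are `|X₁|, |X₂|` or `w |Z₁|, w |Z₂|`: the first or third coordinate. If they are `|X₁| ≥ w |Z₁|` and `w |Z₂| ≥ |X₂|`: the claim is clear if
`|X₂| ≥ w |Z₂|/2` (first coordinate) or `w |Z₁| ≥ |X₁|/2` (third coordinate); otherwise `w |Z₁ X₂| ≤ w |X₁ Z₂|/4`, so `w |s.2.1| ≥ 3/4 w |X₁ Z₂|` (`v_sub_le`).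
The last case is symmetric (`sym_comm`). -/
theorem le_sym {w : ℝ} (hw : 0 ≤ w) (p q : K × K) : N2 v w p * N2 v w q ≤ 2 * N3 v w (sym p q) := by
  obtain ⟨N, hN⟩ : ∃ N : ℝ, N = N3 v w (sym p q) := ⟨_, rfl⟩
  have hz1 : 0 ≤ w * v p.2 := mul_nonneg hw (v.nonneg _)
  have hz2 : 0 ≤ w * v q.2 := mul_nonneg hw (v.nonneg _)
  have hx1 : 0 ≤ v p.1 := v.nonneg _
  have hx2 : 0 ≤ v q.1 := v.nonneg _
  have n1 : v p.1 * v q.1 ≤ N := by
    rw [hN, ← map_mul]
    exact le_max_left _ _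
  have n3 : (w * v p.2) * (w * v q.2) ≤ N := by
    have e : (w * v p.2) * (w * v q.2) = w ^ 2 * v (p.2 * q.2) := by
      rw [map_mul]
      ring
    rw [hN, e]
    exact (le_max_right _ _).trans (le_max_right _ _)
  have n2 : w * v (p.1 * q.2 + q.1 * p.2) ≤ N := by
    rw [hN]
    exact (le_max_left _ _).trans (le_max_right _ _)
  have m1 : v p.1 * (w * v q.2) - v q.1 * (w * v p.2) ≤ N := by
    have h := mul_le_mul_of_nonneg_left (v_sub_le v (p.1 * q.2) (q.1 * p.2)) hw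
    rw [map_mul, map_mul] at h
    linarith
  have m2 : v q.1 * (w * v p.2) - v p.1 * (w * v q.2) ≤ N := by
    have h := mul_le_mul_of_nonneg_left (v_sub_le v (q.1 * p.2) (p.1 * q.2)) hw
    rw [map_mul, map_mul, add_comm (q.1 * p.2)] at h
    linarith
  have hNn : 0 ≤ N := (mul_nonneg hx1 hx2).trans n1
  rw [← hN]
  unfold N2
  rcases le_total (w * v p.2) (v p.1) with h1 | h1 <;> rcases le_total (w * v q.2) (v q.1) with h2 | h2
  · rw [max_eq_left h1, max_eq_left h2]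
    linarith
  · rw [max_eq_left h1, max_eq_right h2]
    exact D2a_real hx1 hz1 hx2 hz2 n1 n3 m1
  · rw [max_eq_right h1, max_eq_left h2, mul_comm]
    refine D2a_real hx2 hz2 hx1 hz1 ?_ ?_ m2
    · rw [mul_comm]
      exact n1
    · rw [mul_comm]
      exact n3
  · rw [max_eq_right h1, max_eq_right h2]
    linarith

end Pool.Agent.Lib.H90L
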