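import Pool.Agent.Lib.H90L.AV
import Pool.Agent.Lib.H90L.A2b

/-!
# H90L, D2e: coordinates of `asm (sym p q)` (notation of D2c)
-/

set_option autoImplicit false

namespace Pool.Agent.Lib.H90L

open Pool.Agent.H38LS

universe u

variable {K : Type u} [Field K] (v : AbsoluteValue K ℝ)

/-- The estimates of the coordinates. PROOF. `asm_Et` and the triangle inequality (`v_add`, `v_sub_le`, `v_ofNat`): `asm₁ - s₁² = t (72 s₁ s₃ + 4 s₂ s₃ + (1 + 1296 t) s₃²)`,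
`|72 s₁| + |4 s₂| + 1 + 1296 |t| ≤ 72/4096 + 1/8 + 1 + 1 ≤ 5`; `asm₁ - t s₃² - s₁² = t (72 s₁ s₃ + 4 s₂ s₃ + 1296 t s₃²)`, of absolute value `≤ |t| (72 |s₁| + 1/8 + 1/100)`;
`|2 s₂ + s₃| ≥ 1 - 1/16 ≥ 1/2`, `|72 s₂ + 4| ≤ 22`; `asm₃ = (X₁ Z₂ - Z₁ X₂)²`. -/
theorem asm_coord {t : K} (ht1 : v t ≤ 1 / 1000000000000) {p q : K × K} (hp : v p.1 < 1 / 64) (hq : v q.1 < 1 / 64)
    (hp2 : v p.2 = 1) (hq2 : v q.2 = 1) :
    (v p.1 * v q.1) ^ 2 - 5 * v t ≤ v (asm (Et t) (sym p q)).1 ∧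
    v t - (v p.1 * v q.1) ^ 2 - v t * (72 * (v p.1 * v q.1) + 1 / 4) ≤ v (asm (Et t) (sym p q)).1 ∧
    v p.1 * v q.1 / 2 - 22 * v t ≤ v (asm (Et t) (sym p q)).2.1 ∧
    (v p.1 - v q.1) ^ 2 ≤ v (asm (Et t) (sym p q)).2.2 := by
  obtain ⟨X, Z⟩ := p
  obtain ⟨Y, T⟩ := q
  simp only at hp hq hp2 hq2
  have ha := v.nonneg X
  have hb := v.nonneg Y
  have ht := v.nonneg t
  have hs1 : v (X * Y) = v X * v Y := map_mul _ _ _
  have hs3 : v (Z * T) = 1 := by rw [map_mul, hp2, hq2, mul_one]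
  have hs2 : v (X * T + Y * Z) ≤ v X + v Y := by
    refine (v_add v _ _).trans ?_
    rw [map_mul, map_mul, hp2, hq2, mul_one, mul_one]
  have hu : v (72 * (X * Y) * (Z * T) + 4 * (X * T + Y * Z) * (Z * T) + 1296 * t * (Z * T) ^ 2) ≤
      72 * (v X * v Y) + 1 / 4 := by
    refine (v_add v _ _).trans ?_
    have e1 : v (72 * (X * Y) * (Z * T)) ≤ 72 * (v X * v Y) := by
      rw [map_mul, hs3, mul_one]
      exact (v_ofNat_mul v 72 _).trans (by rw [hs1])
    have e2 : v (4 * (X * T + Y * Z) * (Z * T)) ≤ 4 * (v X + v Y) := by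
      rw [map_mul, hs3, mul_one]
      exact (v_ofNat_mul v 4 _).trans (mul_le_mul_of_nonneg_left hs2 (by norm_num))
    have e3 : v (1296 * t * (Z * T) ^ 2) ≤ 1296 * v t := by
      rw [map_mul, map_pow, hs3, one_pow, mul_one]
      exact v_ofNat_mul v 1296 _
    have e4 := v_add v (72 * (X * Y) * (Z * T)) (4 * (X * T + Y * Z) * (Z * T))
    linarith
  have hab : v X * v Y ≤ 1 / 64 * (1 / 64) := mul_le_mul hp.le hq.le hb (by norm_num)
  rw [asm_Et]
  simp only [sym]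
  refine ⟨?_, ?_, ?_, ?_⟩
  · have e : (X * Y) ^ 2 + 72 * t * (X * Y) * (Z * T) + 4 * t * (X * T + Y * Z) * (Z * T) +
        (t + 1296 * t ^ 2) * (Z * T) ^ 2 = (X * Y) ^ 2 + t * ((Z * T) ^ 2 +
        (72 * (X * Y) * (Z * T) + 4 * (X * T + Y * Z) * (Z * T) + 1296 * t * (Z * T) ^ 2)) := by ring
    rw [e]
    refine le_trans ?_ (v_sub_le v _ _)
    have e5 : v ((Z * T) ^ 2 + (72 * (X * Y) * (Z * T) + 4 * (X * T + Y * Z) * (Z * T) +
        1296 * t * (Z * T) ^ 2)) ≤ 5 := by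
      refine (v_add v _ _).trans ?_
      rw [map_pow, hs3, one_pow]
      linarith
    rw [map_pow, hs1, map_mul]
    have := mul_le_mul_of_nonneg_left e5 ht
    linarith
  · have e : (X * Y) ^ 2 + 72 * t * (X * Y) * (Z * T) + 4 * t * (X * T + Y * Z) * (Z * T) +
        (t + 1296 * t ^ 2) * (Z * T) ^ 2 = t * (Z * T) ^ 2 + ((X * Y) ^ 2 + t *
        (72 * (X * Y) * (Z * T) + 4 * (X * T + Y * Z) * (Z * T) + 1296 * t * (Z * T) ^ 2)) := by ring
    rw [e]
    refine le_trans ?_ (v_sub_le v _ _)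
    have e5 := v_add v ((X * Y) ^ 2) (t *
        (72 * (X * Y) * (Z * T) + 4 * (X * T + Y * Z) * (Z * T) + 1296 * t * (Z * T) ^ 2))
    rw [map_pow, hs1, map_mul v t] at e5
    rw [map_mul v t, map_pow, hs3, one_pow, mul_one]
    have := mul_le_mul_of_nonneg_left hu ht
    linarith
  · have e : X * Y * (2 * (X * T + Y * Z) + Z * T) - 72 * t * (X * T + Y * Z) * (Z * T) - 4 * t * (Z * T) ^ 2 =
        X * Y * (Z * T + 2 * (X * T + Y * Z)) - t * (72 * (X * T + Y * Z) * (Z * T) + 4 * (Z * T) ^ 2) := by ring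
    rw [e]
    refine le_trans ?_ (v_sub_le' v _ _)
    rw [map_mul, hs1, map_mul v t]
    have e1 : 1 / 2 ≤ v (Z * T + 2 * (X * T + Y * Z)) := by
      refine le_trans ?_ (v_sub_le v _ _)
      have e2 := (v_ofNat_mul v 2 (X * T + Y * Z)).trans (mul_le_mul_of_nonneg_left hs2 (by norm_num))
      rw [hs3]
      linarith
    have e3 : v (72 * (X * T + Y * Z) * (Z * T) + 4 * (Z * T) ^ 2) ≤ 22 := by
      refine (v_add v _ _).trans ?_
      have e4 : v (72 * (X * T + Y * Z) * (Z * T)) ≤ 72 * (v X + v Y) := by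
        rw [map_mul, hs3, mul_one]
        exact (v_ofNat_mul v 72 _).trans (mul_le_mul_of_nonneg_left hs2 (by norm_num))
      have e5 : v (4 * (Z * T) ^ 2) ≤ 4 := by
        rw [map_mul, map_pow, hs3, one_pow, mul_one]
        exact v_ofNat v 4
      linarith
    have e6 := mul_le_mul_of_nonneg_left e1 (mul_nonneg ha hb)
    have e7 := mul_le_mul_of_nonneg_left e3 ht
    linarith
  · have e : (X * T + Y * Z) ^ 2 - 4 * (X * Y) * (Z * T) = (X * T - Y * Z) ^ 2 := by ring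
    rw [e, map_pow]
    have e1 : v X - v Y ≤ v (X * T - Y * Z) := by
      have := v_sub_le' v (X * T) (Y * Z)
      rwa [map_mul, map_mul, hp2, hq2, mul_one, mul_one] at this
    have e2 : v Y - v X ≤ v (X * T - Y * Z) := by
      have := v_sub_le' v (Y * Z) (X * T)
      rw [v.map_sub] at this
      rwa [map_mul, map_mul, hp2, hq2, mul_one, mul_one] at this
    have e3 : |v X - v Y| ≤ v (X * T - Y * Z) := abs_le.2 ⟨by linarith, e1⟩
    rw [← sq_abs (v X - v Y)]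
    exact pow_le_pow_left₀ (abs_nonneg _) e3 2

end Pool.Agent.Lib.H90L
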