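import Pool.Agent.Lib.H90L.B0
import Pool.Agent.Lib.H90L.AV

/-!
# H90L, E1b: `e1_dup`
-/

set_option autoImplicit false

namespace Pool.Agent.Lib.H90L

open Pool.Agent.H38LS

universe u

variable {K : Type u} [Field K] (v : AbsoluteValue K ℝ)

private theorem e1b_real1 {C x z : ℝ} (hC : 1 ≤ C) (hz : 0 ≤ z) (hx : 22 * C * z ≤ x) :
    x ^ 4 / 2 ≤ x ^ 4 - 2 * C * x ^ 2 * z ^ 2 - 8 * C * x * z ^ 3 - C ^ 2 * z ^ 4 := by
  have hC0 : 0 < C := by linarith
  have hx0 : 0 ≤ x := le_trans (by positivity) hx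
  obtain ⟨u, hu⟩ : ∃ u : ℝ, u = C * z := ⟨_, rfl⟩
  have hu0 : 0 ≤ u := by rw [hu]; positivity
  have hzu : z ≤ u := by
    rw [hu]
    exact le_mul_of_one_le_left hz hC
  have hux : u ≤ x / 22 := by
    rw [hu]
    linarith
  have h1 : 2 * C * x ^ 2 * z ^ 2 ≤ x ^ 4 / 242 := by
    have e1 : 2 * C * x ^ 2 * z ^ 2 = 2 * x ^ 2 * (u * z) := by rw [hu]; ring
    have e2 : u * z ≤ (x / 22) * (x / 22) :=
      mul_le_mul hux (hzu.trans hux) hz (by positivity)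
    have e3 : 2 * x ^ 2 * (u * z) ≤ 2 * x ^ 2 * ((x / 22) * (x / 22)) :=
      mul_le_mul_of_nonneg_left e2 (by positivity)
    have e4 : 2 * x ^ 2 * ((x / 22) * (x / 22)) = x ^ 4 / 242 := by ring
    linarith
  have h2 : 8 * C * x * z ^ 3 ≤ x ^ 4 / 1331 := by
    have e1 : 8 * C * x * z ^ 3 = 8 * x * (u * z ^ 2) := by rw [hu]; ring
    have e2 : u * z ^ 2 ≤ (x / 22) * (x / 22) ^ 2 :=
      mul_le_mul hux (pow_le_pow_left₀ hz (hzu.trans hux) 2) (by positivity) (by positivity)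
    have e3 : 8 * x * (u * z ^ 2) ≤ 8 * x * ((x / 22) * (x / 22) ^ 2) :=
      mul_le_mul_of_nonneg_left e2 (by positivity)
    have e4 : 8 * x * ((x / 22) * (x / 22) ^ 2) = x ^ 4 / 1331 := by ring
    linarith
  have h3 : C ^ 2 * z ^ 4 ≤ x ^ 4 / 234256 := by
    have e1 : C ^ 2 * z ^ 4 = u ^ 2 * z ^ 2 := by rw [hu]; ring
    have e2 : u ^ 2 * z ^ 2 ≤ (x / 22) ^ 2 * (x / 22) ^ 2 :=
      mul_le_mul (pow_le_pow_left₀ hu0 hux 2) (pow_le_pow_left₀ hz (hzu.trans hux) 2)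
        (by positivity) (by positivity)
    have e4 : (x / 22) ^ 2 * (x / 22) ^ 2 = x ^ 4 / 234256 := by ring
    linarith
  have h4 : 0 ≤ x ^ 4 := by positivity
  linarith

/-- PROOF. `p = (X, Z)`, `(F, G) = dupS A B p`, `R = 22 C`. If `|X| ≥ R d |Z|`: `N_d p = |X|` and `|F| ≥ |X|^4 - 2 |A| |X|² |Z|² - 8 |B| |X| |Z|³ - |A|² |Z|^4`
`≥ |X|^4 (1 - 2 C / R² - 8 C / R³ - C² / R^4) ≥ |X|^4/2`. If `|X| < R d |Z|`: `N_d p ≤ R d |Z|`, and `dupS_res` gives
`|4 (4 A³ + 27 B²)| |Z|^7 ≤ (12 R² + 16 C) d² |Z|³ |F| + (3 R³ + 5 C R + 27 C) d³ |Z|³ |G| ≤ D d² |Z|³ max |F| (d |G|)`, where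
`|4 (4 A³ + 27 B²)| = d^6 / |4|`; so `max |F| (d |G|) ≥ d^4 |Z|^4 / (4 D) ≥ N_d(p)^4 / (4 D R^4)`. -/
theorem e1_dup (h2 : (2 : K) ≠ 0) {C : ℝ} (hC : 1 ≤ C) : ∃ c : ℝ, 0 < c ∧ ∀ (A B : K) (d : ℝ), 0 < d → v A ≤ C * d ^ 2 →
    v B ≤ C * d ^ 3 → v (16 * (4 * A ^ 3 + 27 * B ^ 2)) = d ^ 6 → ∀ p : K × K, c * N2 v d p ^ 4 ≤ N2 v d (dupS A B p) := by
  have hC0 : 0 < C := by linarith
  obtain ⟨R, hR⟩ : ∃ R : ℝ, R = 22 * C := ⟨_, rfl⟩
  have hR0 : 0 < R := by rw [hR]; positivity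
  have hR1 : 1 ≤ R := by rw [hR]; linarith
  obtain ⟨D, hD⟩ : ∃ D : ℝ, D = (12 * R ^ 2 + 16 * C) + (3 * R ^ 3 + 5 * C * R + 27 * C) := ⟨_, rfl⟩
  have hD0 : 0 < D := by rw [hD]; positivity
  refine ⟨min (1 / 2) (1 / (4 * D * R ^ 4)), lt_min (by norm_num) (by positivity), ?_⟩
  intro A B d hd hA hB hdisc p
  obtain ⟨X, Z⟩ := p
  have hx0 := v.nonneg X
  have hz0 := v.nonneg Z
  have hN4 : 0 ≤ N2 v d (X, Z) ^ 4 := by
    have := N2_nonneg v (w := d) (X, Z)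
    positivity
  rcases le_or_gt (R * (d * v Z)) (v X) with hc | hc
  · have hdz : 0 ≤ d * v Z := by positivity
    have hN : N2 v d (X, Z) = v X := by
      unfold N2
      exact max_eq_left ((le_mul_of_one_le_left hdz hR1).trans hc)
    rw [hN]
    have hF : v X ^ 4 / 2 ≤ v (dupS A B (X, Z)).1 := by
      rw [hR] at hc
      refine (e1b_real1 hC hdz hc).trans ?_
      have e0 : (dupS A B (X, Z)).1 = X ^ 4 - 2 * A * X ^ 2 * Z ^ 2 - 8 * B * X * Z ^ 3 + A ^ 2 * Z ^ 4 := rfl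
      rw [e0]
      have h1 := v_sub_le v (X ^ 4 - 2 * A * X ^ 2 * Z ^ 2 - 8 * B * X * Z ^ 3) (A ^ 2 * Z ^ 4)
      have h2' := v_sub_le' v (X ^ 4 - 2 * A * X ^ 2 * Z ^ 2) (8 * B * X * Z ^ 3)
      have h3 := v_sub_le' v (X ^ 4) (2 * A * X ^ 2 * Z ^ 2)
      have t1 : v (A ^ 2 * Z ^ 4) ≤ C ^ 2 * (d * v Z) ^ 4 := by
        rw [map_mul, map_pow, map_pow]
        calc v A ^ 2 * v Z ^ 4 ≤ (C * d ^ 2) ^ 2 * v Z ^ 4 :=
              mul_le_mul_of_nonneg_right (pow_le_pow_left₀ (v.nonneg _) hA 2) (by positivity)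
          _ = _ := by ring
      have t2 : v (8 * B * X * Z ^ 3) ≤ 8 * C * v X * (d * v Z) ^ 3 := by
        rw [map_mul, map_mul, map_pow]
        calc v (8 * B) * v X * v Z ^ 3 ≤ 8 * (C * d ^ 3) * v X * v Z ^ 3 := by
              apply mul_le_mul_of_nonneg_right _ (by positivity)
              apply mul_le_mul_of_nonneg_right _ hx0
              exact (v_ofNat_mul v 8 B).trans (mul_le_mul_of_nonneg_left hB (by norm_num))
          _ = _ := by ring
      have t3 : v (2 * A * X ^ 2 * Z ^ 2) ≤ 2 * C * v X ^ 2 * (d * v Z) ^ 2 := by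
        rw [map_mul, map_mul, map_pow, map_pow]
        calc v (2 * A) * v X ^ 2 * v Z ^ 2 ≤ 2 * (C * d ^ 2) * v X ^ 2 * v Z ^ 2 := by
              apply mul_le_mul_of_nonneg_right _ (by positivity)
              apply mul_le_mul_of_nonneg_right _ (by positivity)
              exact (v_ofNat_mul v 2 A).trans (mul_le_mul_of_nonneg_left hA (by norm_num))
          _ = _ := by ring
      rw [map_pow] at h3
      linarith
    calc min (1 / 2) (1 / (4 * D * R ^ 4)) * v X ^ 4 ≤ 1 / 2 * v X ^ 4 :=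
          mul_le_mul_of_nonneg_right (min_le_left _ _) (by positivity)
      _ = v X ^ 4 / 2 := by ring
      _ ≤ v (dupS A B (X, Z)).1 := hF
      _ ≤ N2 v d (dupS A B (X, Z)) := le_max_left _ _
  · have hzpos : 0 < v Z := by
      rcases lt_or_eq_of_le hz0 with h | h
      · exact h
      · rw [← h, mul_zero, mul_zero] at hc
        exact absurd hc (not_lt.2 hx0)
    have hNle : N2 v d (X, Z) ≤ R * (d * v Z) := by
      unfold N2
      exact max_le hc.le (le_mul_of_one_le_left (by positivity) hR1)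
    obtain ⟨m, hm⟩ : ∃ m : ℝ, m = N2 v d (dupS A B (X, Z)) := ⟨_, rfl⟩
    have hm0 : 0 ≤ m := by rw [hm]; exact N2_nonneg v _
    have hFm : v (dupS A B (X, Z)).1 ≤ m := by rw [hm]; exact le_max_left _ _
    have hGm : d * v (dupS A B (X, Z)).2 ≤ m := by rw [hm]; exact le_max_right _ _
    have hres := congrArg v (dupS_res A B X Z)
    have hv4 : v (4 : K) ≤ 4 := v_ofNat v 4
    have e16 : v (4 : K) * v (4 * (4 * A ^ 3 + 27 * B ^ 2) * Z ^ 7) = d ^ 6 * v Z ^ 7 := by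
      rw [← hdisc, ← map_mul, ← map_pow, ← map_mul]
      congr 1
      ring
    have hup : v ((12 * X ^ 2 * Z + 16 * A * Z ^ 3) * (dupS A B (X, Z)).1 -
        (3 * X ^ 3 - 5 * A * X * Z ^ 2 - 27 * B * Z ^ 3) * (dupS A B (X, Z)).2) ≤
        D * (d ^ 2 * v Z ^ 3) * m := by
      have hX2 : v X ^ 2 ≤ (R * (d * v Z)) ^ 2 := pow_le_pow_left₀ hx0 hc.le 2
      have hX3 : v X ^ 3 ≤ (R * (d * v Z)) ^ 3 := pow_le_pow_left₀ hx0 hc.le 3
      have a1 : v (12 * X ^ 2 * Z + 16 * A * Z ^ 3) ≤ (12 * R ^ 2 + 16 * C) * (d ^ 2 * v Z ^ 3) := by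
        have b1 : v (12 * X ^ 2 * Z) ≤ 12 * (R * (d * v Z)) ^ 2 * v Z := by
          rw [map_mul]
          apply mul_le_mul_of_nonneg_right _ hz0
          refine (v_ofNat_mul v 12 _).trans (mul_le_mul_of_nonneg_left ?_ (by norm_num))
          rw [map_pow]
          exact hX2
        have b2 : v (16 * A * Z ^ 3) ≤ 16 * (C * d ^ 2) * v Z ^ 3 := by
          rw [map_mul, map_pow]
          apply mul_le_mul_of_nonneg_right _ (by positivity)
          exact (v_ofNat_mul v 16 _).trans (mul_le_mul_of_nonneg_left hA (by norm_num))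
        calc _ ≤ _ := v_add v _ _
          _ ≤ _ := add_le_add b1 b2
          _ = _ := by ring
      have a2 : v (3 * X ^ 3 - 5 * A * X * Z ^ 2 - 27 * B * Z ^ 3) ≤
          (3 * R ^ 3 + 5 * C * R + 27 * C) * (d ^ 3 * v Z ^ 3) := by
        have b1 : v (3 * X ^ 3) ≤ 3 * (R * (d * v Z)) ^ 3 := by
          refine (v_ofNat_mul v 3 _).trans (mul_le_mul_of_nonneg_left ?_ (by norm_num))
          rw [map_pow]
          exact hX3
        have b2 : v (5 * A * X * Z ^ 2) ≤ 5 * (C * d ^ 2) * (R * (d * v Z)) * v Z ^ 2 := by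
          rw [map_mul, map_mul, map_pow]
          apply mul_le_mul_of_nonneg_right _ (by positivity)
          apply mul_le_mul _ hc.le hx0 (by positivity)
          exact (v_ofNat_mul v 5 _).trans (mul_le_mul_of_nonneg_left hA (by norm_num))
        have b3 : v (27 * B * Z ^ 3) ≤ 27 * (C * d ^ 3) * v Z ^ 3 := by
          rw [map_mul, map_pow]
          apply mul_le_mul_of_nonneg_right _ (by positivity)
          exact (v_ofNat_mul v 27 _).trans (mul_le_mul_of_nonneg_left hB (by norm_num))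
        calc _ ≤ _ := v_sub v _ _
          _ ≤ _ := add_le_add (v_sub v _ _) le_rfl
          _ ≤ _ := add_le_add (add_le_add b1 b2) b3
          _ = _ := by ring
      have a3 : v ((12 * X ^ 2 * Z + 16 * A * Z ^ 3) * (dupS A B (X, Z)).1) ≤
          (12 * R ^ 2 + 16 * C) * (d ^ 2 * v Z ^ 3) * m := by
        rw [map_mul]
        exact mul_le_mul a1 hFm (v.nonneg _) (by positivity)
      have a4 : v ((3 * X ^ 3 - 5 * A * X * Z ^ 2 - 27 * B * Z ^ 3) * (dupS A B (X, Z)).2) ≤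
          (3 * R ^ 3 + 5 * C * R + 27 * C) * (d ^ 2 * v Z ^ 3) * m := by
        rw [map_mul]
        calc _ ≤ (3 * R ^ 3 + 5 * C * R + 27 * C) * (d ^ 3 * v Z ^ 3) * v (dupS A B (X, Z)).2 :=
              mul_le_mul_of_nonneg_right a2 (v.nonneg _)
          _ = (3 * R ^ 3 + 5 * C * R + 27 * C) * (d ^ 2 * v Z ^ 3) * (d * v (dupS A B (X, Z)).2) := by ring
          _ ≤ _ := mul_le_mul_of_nonneg_left hGm (by positivity)
      refine (v_sub v _ _).trans ((add_le_add a3 a4).trans (le_of_eq ?_))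
      rw [hD]
      ring
    rw [hres] at hup
    have hmain : d ^ 6 * v Z ^ 7 ≤ 4 * (D * (d ^ 2 * v Z ^ 3) * m) := by
      rw [← e16]
      exact mul_le_mul hv4 hup (v.nonneg _) (by norm_num)
    have hdiv : d ^ 4 * v Z ^ 4 ≤ 4 * D * m := by
      have e1 : d ^ 6 * v Z ^ 7 = d ^ 4 * v Z ^ 4 * (d ^ 2 * v Z ^ 3) := by ring
      have e2 : 4 * (D * (d ^ 2 * v Z ^ 3) * m) = 4 * D * m * (d ^ 2 * v Z ^ 3) := by ring
      rw [e1, e2] at hmain
      exact le_of_mul_le_mul_right hmain (by positivity)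
    rw [← hm]
    have hN4' : N2 v d (X, Z) ^ 4 ≤ R ^ 4 * (4 * D * m) := by
      calc N2 v d (X, Z) ^ 4 ≤ (R * (d * v Z)) ^ 4 :=
            pow_le_pow_left₀ (N2_nonneg v _) hNle 4
        _ = R ^ 4 * (d ^ 4 * v Z ^ 4) := by ring
        _ ≤ _ := mul_le_mul_of_nonneg_left hdiv (by positivity)
    calc min (1 / 2) (1 / (4 * D * R ^ 4)) * N2 v d (X, Z) ^ 4 ≤ 1 / (4 * D * R ^ 4) * N2 v d (X, Z) ^ 4 :=
          mul_le_mul_of_nonneg_right (min_le_right _ _) hN4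
      _ ≤ 1 / (4 * D * R ^ 4) * (R ^ 4 * (4 * D * m)) :=
          mul_le_mul_of_nonneg_left hN4' (by positivity)
      _ = m := by field_simp

end Pool.Agent.Lib.H90L
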