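import Pool.Agent.Lib.H90L.E1a
import Pool.Agent.Lib.H90L.E1b
import Pool.Agent.Lib.H90L.B1a

/-!
# H90L, E1
-/

set_option autoImplicit false

namespace Pool.Agent.Lib.H90L

open Pool.Agent.H38LS

universe u

/-- (E1). PROOF. `e1_coeff`, `e1_dup` (`Δ_short`), `iter_LB` (`sh_dup`) with `d = |Δ|^(1/6)` and `l = log c / 6`: `log |Δ| / 6 = log d ≤ log N_d (sh (x, 1))`. The constant is
`C = - log c / 6`. -/
theorem E1 : Spec.E1.{u} := by
  intro K _ v h2 h3 J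
  obtain ⟨C1, hC1, hco⟩ := e1_coeff v h2 h3 J
  obtain ⟨c, hc, hdup⟩ := e1_dup v h2 hC1
  refine ⟨-Real.log c / 6, ?_⟩
  intro W hΔ hJ x
  have hvΔ : 0 < v W.Δ := v.pos hΔ
  obtain ⟨d, hd, hd6⟩ : ∃ d : ℝ, 0 < d ∧ d ^ 6 = v W.Δ := by
    refine ⟨(v W.Δ) ^ ((1 : ℝ) / 6), Real.rpow_pos_of_pos hvΔ _, ?_⟩
    rw [← Real.rpow_natCast, ← Real.rpow_mul hvΔ.le]
    norm_num
  obtain ⟨hA, hB⟩ := hco W hΔ hJ d hd hd6
  have hΔ' : v (16 * (4 * cA W ^ 3 + 27 * cB W ^ 2)) = d ^ 6 := by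
    rw [hd6, Δ_short h2 h3 W, ← v.map_neg (16 * (4 * cA W ^ 3 + 27 * cB W ^ 2))]
    congr 1
    ring
  have hp : ((x, 1) : K × K) ≠ 0 := by
    intro h
    exact one_ne_zero (congrArg Prod.snd h)
  refine iter_LB v W hd hc (fun p => ?_) hp ?_
  · rw [sh_dup h2 h3]
    exact hdup _ _ d hd hA hB hΔ' (sh W p)
  · have h1 : Real.log (v W.Δ) = 6 * Real.log d := by
      rw [← hd6, Real.log_pow]
      norm_num
    have h4 : d ≤ N2 v d (sh W (x, 1)) := by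
      unfold N2
      refine le_max_of_le_right ?_
      simp [sh]
    have h5 : Real.log d ≤ Real.log (N2 v d (sh W (x, 1))) := Real.log_le_log hd h4
    rw [h1]
    linarith

end Pool.Agent.Lib.H90L
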