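import Pool.Agent.Lib.H90L.B0
import Pool.Agent.Lib.H90L.AV

/-!
# H90L, E1a: any absolute value with `6 ≠ 0`, `|j|` bounded
-/

set_option autoImplicit false

namespace Pool.Agent.Lib.H90L

open Pool.Agent.H38LS

universe u

variable {K : Type u} [Field K] (v : AbsoluteValue K ℝ)

/-- PROOF. `|48|, |864|, |16|, |27| > 0`. `|cA|³ = |c₄|³ / |48|³ ≤ C₁ d^6 ≤ (C₁ d²)³` for `C₁ = max 1 (J / |48|³)`. By `Δ_short` `27 cB² = - Δ/16 - 4 cA³`, so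
`|cB|² ≤ (|Δ| / |16| + 4 |cA|³) / |27| ≤ C₂ d^6 ≤ (C₂ d³)²` for some `C₂ ≥ 1`. `C = max C₁ C₂`. -/
theorem e1_coeff (h2 : (2 : K) ≠ 0) (h3 : (3 : K) ≠ 0) (J : ℝ) : ∃ C : ℝ, 1 ≤ C ∧ ∀ W : WeierstrassCurve K, W.Δ ≠ 0 →
    v (W.c₄) ^ 3 ≤ J * v W.Δ → ∀ d : ℝ, 0 < d → d ^ 6 = v W.Δ → v (cA W) ≤ C * d ^ 2 ∧ v (cB W) ≤ C * d ^ 3 := by
  have h48 : (48 : K) ≠ 0 := by
    have : (48 : K) = 2 * 2 * (2 * 2 * 3) := by norm_num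
    rw [this]
    exact mul_ne_zero (mul_ne_zero h2 h2) (mul_ne_zero (mul_ne_zero h2 h2) h3)
  have h432 : (432 : K) ≠ 0 := by
    have : (432 : K) = 2 * 2 * (2 * 2 * 3) * (3 * 3) := by norm_num
    rw [this]
    exact mul_ne_zero (mul_ne_zero (mul_ne_zero h2 h2) (mul_ne_zero (mul_ne_zero h2 h2) h3))
      (mul_ne_zero h3 h3)
  have p48 : 0 < v (48 : K) := v.pos h48
  have p432 : 0 < v (432 : K) := v.pos h432
  obtain ⟨C₁, hC₁1, hC₁2⟩ : ∃ C₁ : ℝ, 1 ≤ C₁ ∧ J / v (48 : K) ^ 3 ≤ C₁ :=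
    ⟨max 1 (J / v (48 : K) ^ 3), le_max_left _ _, le_max_right _ _⟩
  obtain ⟨C₂, hC₂1, hC₂2⟩ : ∃ C₂ : ℝ, 1 ≤ C₂ ∧ (1 + 64 * C₁) / v (432 : K) ≤ C₂ :=
    ⟨max 1 ((1 + 64 * C₁) / v (432 : K)), le_max_left _ _, le_max_right _ _⟩
  have hone : ∀ C : ℝ, 1 ≤ C → ∀ n : ℕ, n ≠ 0 → C ≤ C ^ n := fun C hC n hn => le_self_pow₀ hC hn
  refine ⟨max C₁ C₂, le_max_of_le_left hC₁1, ?_⟩
  intro W _ hJ d hd hd6
  have hd6p : 0 < d ^ 6 := pow_pos hd 6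
  have e1 : v (cA W) ^ 3 ≤ C₁ * d ^ 6 := by
    have h5 : v (cA W) = v W.c₄ / v (48 : K) := by
      rw [cA, map_div₀, v.map_neg]
    rw [h5, div_pow, div_le_iff₀ (pow_pos p48 3)]
    have h6 : J ≤ C₁ * v (48 : K) ^ 3 := (div_le_iff₀ (pow_pos p48 3)).1 hC₁2
    calc v W.c₄ ^ 3 ≤ J * v W.Δ := hJ
      _ = J * d ^ 6 := by rw [hd6]
      _ ≤ C₁ * v (48 : K) ^ 3 * d ^ 6 := mul_le_mul_of_nonneg_right h6 hd6p.le
      _ = C₁ * d ^ 6 * v (48 : K) ^ 3 := by ring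
  have e2 : v (cB W) ^ 2 ≤ C₂ * d ^ 6 := by
    have h7 : (432 : K) * cB W ^ 2 = -(W.Δ + 64 * cA W ^ 3) := by
      have h8 := Δ_short h2 h3 W
      linear_combination h8
    have h9 : v (432 : K) * v (cB W) ^ 2 ≤ (1 + 64 * C₁) * d ^ 6 := by
      rw [← map_pow, ← map_mul, h7, v.map_neg]
      calc v (W.Δ + 64 * cA W ^ 3) ≤ v W.Δ + v (64 * cA W ^ 3) := v.add_le _ _
        _ ≤ v W.Δ + 64 * v (cA W ^ 3) := by
            have := v_ofNat_mul v 64 (cA W ^ 3)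
            linarith
        _ = d ^ 6 + 64 * v (cA W) ^ 3 := by rw [map_pow, hd6]
        _ ≤ d ^ 6 + 64 * (C₁ * d ^ 6) := by linarith
        _ = (1 + 64 * C₁) * d ^ 6 := by ring
    have h10 : (1 + 64 * C₁) ≤ C₂ * v (432 : K) := (div_le_iff₀ p432).1 hC₂2
    have h11 : v (432 : K) * v (cB W) ^ 2 ≤ v (432 : K) * (C₂ * d ^ 6) := by
      calc v (432 : K) * v (cB W) ^ 2 ≤ (1 + 64 * C₁) * d ^ 6 := h9
        _ ≤ C₂ * v (432 : K) * d ^ 6 := mul_le_mul_of_nonneg_right h10 hd6p.le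
        _ = v (432 : K) * (C₂ * d ^ 6) := by ring
    exact le_of_mul_le_mul_left h11 p432
  constructor
  · have h12 : v (cA W) ^ 3 ≤ (C₁ * d ^ 2) ^ 3 := by
      calc v (cA W) ^ 3 ≤ C₁ * d ^ 6 := e1
        _ ≤ C₁ ^ 3 * d ^ 6 := mul_le_mul_of_nonneg_right (hone C₁ hC₁1 3 (by norm_num)) hd6p.le
        _ = (C₁ * d ^ 2) ^ 3 := by ring
    have h13 : v (cA W) ≤ C₁ * d ^ 2 :=
      le_of_pow_le_pow_left₀ (by norm_num) (mul_nonneg (by linarith) (pow_pos hd 2).le) h12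
    exact h13.trans (mul_le_mul_of_nonneg_right (le_max_left _ _) (pow_pos hd 2).le)
  · have h12 : v (cB W) ^ 2 ≤ (C₂ * d ^ 3) ^ 2 := by
      calc v (cB W) ^ 2 ≤ C₂ * d ^ 6 := e2
        _ ≤ C₂ ^ 2 * d ^ 6 := mul_le_mul_of_nonneg_right (hone C₂ hC₂1 2 (by norm_num)) hd6p.le
        _ = (C₂ * d ^ 3) ^ 2 := by ring
    have h13 : v (cB W) ≤ C₂ * d ^ 3 :=
      le_of_pow_le_pow_left₀ (by norm_num) (mul_nonneg (by linarith) (pow_pos hd 3).le) h12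
    exact h13.trans (mul_le_mul_of_nonneg_right (le_max_right _ _) (pow_pos hd 3).le)

end Pool.Agent.Lib.H90L
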