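import Pool.Agent.Lib.H90L.G1

/-!
# H90L, G2: lower bound of `N_ω (dup p)`, nonarchimedean
-/

set_option autoImplicit false

namespace Pool.Agent.Lib.H90L

open Pool.Agent.H38LS

universe u

variable {K : Type u} [Field K] {v : AbsoluteValue K ℝ}

private theorem G2_core (hv : IsNonarchimedean v) {t : K} (ht : 0 < v t) (ht1 : v t < 1) {w : ℝ} (hw : 0 < w)
    (hw2 : w ^ 2 = v t) {X Z : K} (h1 : N2 v 1 (X, Z) = 1) :
    max (N2 v w (X, Z) ^ 4) (v t) ≤ N2 v w (dup (Et t) (X, Z)) := by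
  have hX0 : 0 ≤ v X := v.nonneg _
  have hZ0 : 0 ≤ v Z := v.nonneg _
  have hX1 : v X ≤ 1 := by
    rw [← h1]
    exact le_max_left _ _
  have hZ1 : v Z ≤ 1 := by
    have h2 : 1 * v Z ≤ N2 v 1 (X, Z) := le_max_right _ _
    rw [h1, one_mul] at h2
    exact h2
  have hw1 : w < 1 := by
    by_contra hcon
    push Not at hcon
    nlinarith
  have hdX : v (dupX (Et t) X Z) ≤ N2 v w (dup (Et t) (X, Z)) := le_max_left _ _
  have hdZ : w * v (dupZ (Et t) X Z) ≤ N2 v w (dup (Et t) (X, Z)) := le_max_right _ _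
  -- absolute values of the small terms
  have t1 : v (72 * t * X ^ 2 * Z ^ 2) ≤ v t * v X ^ 2 := by
    have e : (72 : K) * t * X ^ 2 * Z ^ 2 = 72 * (t * X ^ 2 * Z ^ 2) := by ring
    rw [e]
    refine (na_nat_mul hv 72 _).trans ?_
    rw [map_mul, map_mul, map_pow, map_pow]
    exact mul_le_of_le_one_right (by positivity) (pow_le_one₀ hZ0 hZ1)
  have t2 : v (8 * t * X * Z ^ 3) ≤ v t * v X := by
    have e : (8 : K) * t * X * Z ^ 3 = 8 * (t * X * Z ^ 3) := by ring
    rw [e]
    refine (na_nat_mul hv 8 _).trans ?_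
    rw [map_mul, map_mul, map_pow]
    exact mul_le_of_le_one_right (by positivity) (pow_le_one₀ hZ0 hZ1)
  have t3 : v (1296 * t ^ 2 * Z ^ 4) ≤ v t ^ 2 := by
    have e : (1296 : K) * t ^ 2 * Z ^ 4 = 1296 * (t ^ 2 * Z ^ 4) := by ring
    rw [e]
    refine (na_nat_mul hv 1296 _).trans ?_
    rw [map_mul, map_pow, map_pow]
    exact mul_le_of_le_one_right (by positivity) (pow_le_one₀ hZ0 hZ1)
  have t4 : v (t * Z ^ 4) ≤ v t := by
    rw [map_mul, map_pow]
    exact mul_le_of_le_one_right ht.le (pow_le_one₀ hZ0 hZ1)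
  have ht2 : v t ^ 2 < v t := by nlinarith
  have eX : dupX (Et t) X Z = X ^ 4 + (72 * t * X ^ 2 * Z ^ 2 + 8 * t * X * Z ^ 3 + t * Z ^ 4 +
      1296 * t ^ 2 * Z ^ 4) := by
    rw [dupX_Et]
    ring
  have rest : v (72 * t * X ^ 2 * Z ^ 2 + 8 * t * X * Z ^ 3 + t * Z ^ 4 + 1296 * t ^ 2 * Z ^ 4) ≤ v t := by
    refine na_add hv (na_add hv (na_add hv ?_ ?_) t4) (t3.trans ht2.le)
    · exact t1.trans (mul_le_of_le_one_right ht.le (pow_le_one₀ hX0 hX1))
    · exact t2.trans (mul_le_of_le_one_right ht.le hX1)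
  by_cases hcase : v X = 1
  · have hN : N2 v w (X, Z) = 1 := by
      unfold N2
      simp only
      rw [hcase, max_eq_left]
      exact mul_le_one₀ hw1.le hZ0 hZ1
    rw [hN, one_pow, max_eq_left ht1.le]
    have h5 : v (dupX (Et t) X Z) = 1 := by
      rw [eX, na_eq hv, map_pow, hcase, one_pow]
      rw [map_pow, hcase, one_pow]
      exact lt_of_le_of_lt rest ht1
    rw [← h5]
    exact hdX
  have hXlt : v X < 1 := lt_of_le_of_ne hX1 hcase
  have hZ : v Z = 1 := by
    unfold N2 at h1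
    simp only [one_mul] at h1
    rcases max_choice (v X) (v Z) with h | h
    · rw [h] at h1
      exact absurd h1 hcase
    · rw [h] at h1
      exact h1
  have hN : N2 v w (X, Z) = max (v X) w := by
    unfold N2
    simp only
    rw [hZ, mul_one]
  have hw4 : w ^ 4 ≤ v t := by
    have : w ^ 4 = v t ^ 2 := by
      rw [← hw2]
      ring
    rw [this]
    exact ht2.le
  have hL : max (N2 v w (X, Z) ^ 4) (v t) = max (v X ^ 4) (v t) := by
    rw [hN]
    rcases le_total (v X) w with h | h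
    · rw [max_eq_right h, max_eq_right hw4, max_eq_right]
      exact (pow_le_pow_left₀ hX0 h 4).trans hw4
    · rw [max_eq_left h]
  rw [hL]
  rcases lt_trichotomy (v X ^ 4) (v t) with h | h | h
  · rw [max_eq_right h.le]
    have hd : v (dupX (Et t) X Z) = v t := by
      have e : dupX (Et t) X Z = t * Z ^ 4 + (X ^ 4 + 72 * t * X ^ 2 * Z ^ 2 + 8 * t * X * Z ^ 3 +
          1296 * t ^ 2 * Z ^ 4) := by
        rw [dupX_Et]
        ring
      have hv4 : v (t * Z ^ 4) = v t := by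
        rw [map_mul, map_pow, hZ, one_pow, mul_one]
      rw [e, na_eq hv, hv4]
      rw [hv4]
      refine na_add_lt hv (na_add_lt hv (na_add_lt hv ?_ ?_) ?_) (lt_of_le_of_lt t3 ht2)
      · rw [map_pow]
        exact h
      · refine lt_of_le_of_lt t1 ?_
        have : v X ^ 2 < 1 := pow_lt_one₀ hX0 hXlt (by norm_num)
        nlinarith
      · refine lt_of_le_of_lt t2 ?_
        nlinarith
    rw [← hd]
    exact hdX
  · rw [h, max_self]
    have hXpos : 0 < v X := by
      rcases hX0.lt_or_eq with h5 | h5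
      · exact h5
      · rw [← h5] at h
        norm_num at h
        linarith
    have hX2 : v X ^ 2 = w := by
      have h5 : (v X ^ 2) ^ 2 = w ^ 2 := by
        rw [hw2, ← h]
        ring
      exact (pow_left_inj₀ (by positivity) hw.le (by norm_num)).1 h5
    have hd : v (dupZ (Et t) X Z) = w := by
      have e : dupZ (Et t) X Z = X ^ 2 * Z ^ 2 + (4 * (X ^ 3 * Z) - 144 * (t * X * Z ^ 3) -
          4 * (t * Z ^ 4)) := by
        rw [dupZ_Et]
        ring
      have hv4 : v (X ^ 2 * Z ^ 2) = v X ^ 2 := by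
        rw [map_mul, map_pow, map_pow, hZ, one_pow, mul_one]
      have hX3 : v X ^ 3 < v X ^ 2 := by nlinarith [mul_pos hXpos hXpos]
      have hX4 : v X ^ 4 < v X ^ 2 := by nlinarith [mul_pos hXpos hXpos, mul_pos (mul_pos hXpos hXpos) hXpos]
      rw [e, na_eq hv, hv4, hX2]
      rw [hv4]
      refine na_sub_lt hv (na_sub_lt hv ?_ ?_) ?_
      · refine lt_of_le_of_lt (na_nat_mul hv 4 _) ?_
        rw [map_mul, map_pow, hZ, mul_one]
        exact hX3
      · refine lt_of_le_of_lt (na_nat_mul hv 144 _) ?_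
        rw [map_mul, map_mul, map_pow, hZ, one_pow, mul_one, ← h]
        have : v X ^ 4 * v X ≤ v X ^ 4 * 1 := mul_le_mul_of_nonneg_left hX1 (by positivity)
        linarith
      · refine lt_of_le_of_lt (na_nat_mul hv 4 _) ?_
        rw [map_mul, map_pow, hZ, one_pow, mul_one, ← h]
        exact hX4
    calc v t = w * w := by
          rw [← hw2]
          ring
      _ = w * v (dupZ (Et t) X Z) := by rw [hd]
      _ ≤ _ := hdZ
  · rw [max_eq_left h.le]
    have hd : v (dupX (Et t) X Z) = v X ^ 4 := by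
      rw [eX, na_eq hv, map_pow]
      rw [map_pow]
      exact lt_of_le_of_lt rest h
    rw [← hd]
    exact hdX

/-- PROOF. Scale to `N_1 p = 1` as in `dup_N1`. If `|X| = 1`: the left side is `1` and `|dupX| = 1`. If `|X| < 1`: `|Z| = 1`, `N_ω p = max |X| ω`,
so the left side is `max (|X|^4) |t|` (`ω^4 = |t|^2 ≤ |t|`). If `|X|^4 ≠ |t|`: `|dupX| = max (|X|^4) |t|` (`X^4` or `t Z^4` dominates; the other
terms have absolute value `< |t|`). If `|X|^4 = |t|`, i.e. `|X|^2 = ω`: `ω |dupZ| = ω |X|^2 = ω^2 = |t|` (`X^2 Z^2` dominates in `dupZ`). -/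
theorem dup_Nw (hv : IsNonarchimedean v) {t : K} (ht : 0 < v t) (ht1 : v t < 1) {L : ℝ} (hL : L = -Real.log (v t))
    {p : K × K} (hp : p ≠ 0) :
    max (N2 v (Real.exp (-(L / 2))) p ^ 4) (v t * N2 v 1 p ^ 4) ≤ N2 v (Real.exp (-(L / 2))) (dup (Et t) p) := by
  obtain ⟨c, hc, h1⟩ := exists_norm v hp
  have hvc : 0 < v c := v.pos hc
  have hw : 0 < Real.exp (-(L / 2)) := Real.exp_pos _
  have hcore := G2_core hv ht ht1 hw (sq_exp ht hL) (X := (c • p).1) (Z := (c • p).2) h1
  have hcore' : max (N2 v (Real.exp (-(L / 2))) (c • p) ^ 4) (v t) ≤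
      N2 v (Real.exp (-(L / 2))) (dup (Et t) (c • p)) := hcore
  rw [dup_smul, N2_smul, N2_smul, map_pow] at hcore'
  rw [N2_smul] at h1
  have hmul : v c ^ 4 * max (N2 v (Real.exp (-(L / 2))) p ^ 4) (v t * N2 v 1 p ^ 4) ≤
      v c ^ 4 * N2 v (Real.exp (-(L / 2))) (dup (Et t) p) := by
    refine le_trans (le_of_eq ?_) hcore'
    rw [mul_max_of_nonneg _ _ (by positivity)]
    congr 1
    · ring
    · have : v c ^ 4 * (v t * N2 v 1 p ^ 4) = v t * (v c * N2 v 1 p) ^ 4 := by ring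
      rw [this, h1, one_pow, mul_one]
  exact le_of_mul_le_mul_left hmul (by positivity)

end Pool.Agent.Lib.H90L
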