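import Pool.Agent.Lib.H90L.A1
import Pool.Agent.Lib.H90L.A2
import Pool.Agent.Lib.H90L.A5
import Pool.Agent.Lib.H90L.B1
import Pool.Agent.Lib.H90L.B2
import Pool.Agent.Lib.H90L.B3
import Pool.Agent.Lib.H90L.D1
import Pool.Agent.Lib.H90L.D2
import Pool.Agent.Lib.H90L.E1

/-!
# H90L, Local: all targets of `H38LS.LocalSpec`

`A0` (Base), `A1`, `A2`, `A5`, `B1`, `B2`, `B3`, `D1`, `D2`, `E1` in the namespace `Pool.Agent.Lib.H90L`.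
-/

set_option autoImplicit false

namespace Pool.Agent.Lib.H90L

open Pool.Agent.H38LS

universe u

theorem all : Spec.A0.{u} ∧ Spec.A1.{u} ∧ Spec.A2.{u} ∧ Spec.A5.{u} ∧ Spec.B1.{u} ∧ Spec.B2.{u} ∧ Spec.B3.{u} ∧ Spec.D1.{u} ∧
    Spec.D2.{u} ∧ Spec.E1.{u} :=
  ⟨A0, A1, A2, A5, B1, B2, B3, D1, D2, E1⟩

end Pool.Agent.Lib.H90L
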