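import Pool.Agent.Lib.H90L.Base

/-!
# H90L, NA: nonarchimedean absolute values (all proved)
-/

set_option autoImplicit false

namespace Pool.Agent.Lib.H90L

open Pool.Agent.H38LS

universe u

variable {K : Type u} [Field K] {v : AbsoluteValue K ℝ}

theorem na_add (hv : IsNonarchimedean v) {x y : K} {r : ℝ} (hx : v x ≤ r) (hy : v y ≤ r) : v (x + y) ≤ r :=
  (hv x y).trans (max_le hx hy)

theorem na_sub (hv : IsNonarchimedean v) {x y : K} {r : ℝ} (hx : v x ≤ r) (hy : v y ≤ r) : v (x - y) ≤ r := by
  rw [sub_eq_add_neg]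
  exact na_add hv hx (by rwa [v.map_neg])

theorem na_add_lt (hv : IsNonarchimedean v) {x y : K} {r : ℝ} (hx : v x < r) (hy : v y < r) : v (x + y) < r :=
  (hv x y).trans_lt (max_lt hx hy)

theorem na_sub_lt (hv : IsNonarchimedean v) {x y : K} {r : ℝ} (hx : v x < r) (hy : v y < r) : v (x - y) < r := by
  rw [sub_eq_add_neg]
  exact na_add_lt hv hx (by rwa [v.map_neg])

theorem na_eq (hv : IsNonarchimedean v) {x y : K} (h : v y < v x) : v (x + y) = v x := by
  apply le_antisymm (na_add hv le_rfl h.le)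
  have h1 : v x ≤ max (v (x + y)) (v y) := by
    have h2 : v x = v ((x + y) - y) := by rw [add_sub_cancel_right]
    rw [h2]
    exact na_sub hv (le_max_left _ _) (le_max_right _ _)
  rcases le_max_iff.1 h1 with h2 | h2
  · exact h2
  · exact absurd h2 (not_le.2 h)

theorem na_eq_sub (hv : IsNonarchimedean v) {x y : K} (h : v y < v x) : v (x - y) = v x := by
  rw [sub_eq_add_neg]
  exact na_eq hv (by rwa [v.map_neg])

theorem na_eq' (hv : IsNonarchimedean v) {x y : K} (h : v x < v y) : v (x + y) = v y := by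
  rw [add_comm]
  exact na_eq hv h

theorem na_eq_sub' (hv : IsNonarchimedean v) {x y : K} (h : v x < v y) : v (x - y) = v y := by
  rw [v.map_sub]
  exact na_eq_sub hv h

theorem na_nat (hv : IsNonarchimedean v) (n : ℕ) : v (n : K) ≤ 1 := by
  induction n with
  | zero => simp
  | succ n ih =>
    rw [Nat.cast_succ]
    exact na_add hv ih (by rw [map_one])

theorem na_ofNat (hv : IsNonarchimedean v) (n : ℕ) [n.AtLeastTwo] : v (OfNat.ofNat n : K) ≤ 1 := by
  have := na_nat hv (OfNat.ofNat n)
  rwa [Nat.cast_ofNat] at this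

/-- An integer multiple has no larger absolute value. -/
theorem na_nat_mul (hv : IsNonarchimedean v) (n : ℕ) [n.AtLeastTwo] (x : K) : v (OfNat.ofNat n * x) ≤ v x := by
  rw [map_mul]
  exact mul_le_of_le_one_left (v.nonneg _) (na_ofNat hv n)

end Pool.Agent.Lib.H90L
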